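import Pool.Graph.R_seed8.W448.AD.F
set_option autoImplicit false
open Finset

/-! Antichains of bounded diameter: transfer to a centre level, elimination of one side. -/

namespace Pool.Agent.H66.AD

open Pool.Agent.H173R2.AntiDiam Pool.Agent.W448.AD

variable {n : ℕ}

theorem card_le_n (A : Finset (Fin n)) : A.card ≤ n := by
  have := card_le_univ A
  rwa [Fintype.card_fin] at this

theorem card_compl' (A : Finset (Fin n)) : Aᶜ.card = n - A.card := by
  rw [card_compl, Fintype.card_fin]

theorem sdiff_cc (A B : Finset (Fin n)) : Aᶜ \ Bᶜ = B \ A := by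
  ext x; simp only [mem_sdiff, mem_compl, not_not]; tauto

theorem hbal (A B : Finset (Fin n)) : A.card + (B \ A).card = B.card + (A \ B).card := by
  have h1 := card_sdiff_add_card_inter A B
  have h2 := card_sdiff_add_card_inter B A
  rw [inter_comm] at h2
  omega

theorem hne1 (F : Finset (Finset (Fin n))) (hanti : ∀ A ∈ F, ∀ B ∈ F, A ⊆ B → A = B) :
    ∀ A ∈ F, ∀ B ∈ F, A ≠ B → 1 ≤ (A \ B).card := by
  intro A hA B hB hAB
  rw [Nat.one_le_iff_ne_zero, Ne, card_eq_zero, sdiff_eq_empty_iff_subset]
  exact fun h => hAB (hanti A hA B hB h)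

theorem sum_compl (f : Finset (Fin n) → ℚ) : ∑ X, f Xᶜ = ∑ X, f X := by
  refine sum_bij' (fun X _ => Xᶜ) (fun X _ => Xᶜ) (by simp) (by simp) (by simp) (by simp) ?_
  intro X _
  rfl

/-- from sums over supersets to sums over disjoint sets -/
theorem incl_to_disj (s m : ℕ) (hsm : s ≤ m) (g : Finset (Fin n) → ℚ)
    (hg : ∀ X, X.card ≠ m → g X = 0)
    (h0 : ∀ S : Finset (Fin n), S.card = s → ∑ Y with S ⊆ Y, g Y = 0)
    (S : Finset (Fin n)) (hS : S.card = s) : ∑ Y with Disjoint S Y, g Y = 0 := by
  classical
  have h1 := key s m hsm g hg h0 Sᶜ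
  rw [← h1, sum_filter]
  apply sum_congr rfl
  intro Y _
  have e : Y \ Sᶜ = Y ∩ S := by
    ext x; simp only [mem_sdiff, mem_compl, not_not, mem_inter]
  rw [e]
  by_cases h : Disjoint S Y
  · rw [if_pos h, inter_comm, disjoint_iff_inter_eq_empty.1 h, card_empty, P_zero, mul_one]
  · rw [if_neg h, P_pos, mul_zero]
    · rw [Nat.one_le_iff_ne_zero, Ne, card_eq_zero, inter_comm]
      exact fun h' => h (disjoint_iff_inter_eq_empty.2 h')
    · exact (card_le_card inter_subset_right).trans hS.le

/-- from sums over disjoint sets to sums over supersets -/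
theorem disj_to_incl (s m : ℕ) (hms : m + s ≤ n) (g : Finset (Fin n) → ℚ)
    (hg : ∀ X, X.card ≠ m → g X = 0)
    (h0 : ∀ S : Finset (Fin n), S.card = s → ∑ Y with Disjoint S Y, g Y = 0)
    (S : Finset (Fin n)) (hS : S.card = s) : ∑ Y with S ⊆ Y, g Y = 0 := by
  classical
  have h1 := incl_to_disj s (n - m) (by omega) (fun X => g Xᶜ) ?_ ?_ S hS
  · rw [← h1, sum_filter, sum_filter, ← sum_compl]
    apply sum_congr rfl
    intro Y _
    have e : (S ⊆ Yᶜ) ↔ Disjoint S Y := by
      rw [disjoint_left, subset_iff]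
      simp only [mem_compl]
    by_cases h : Disjoint S Y
    · rw [if_pos h, if_pos (e.2 h)]
    · rw [if_neg h, if_neg (fun h' => h (e.1 h'))]
  · intro X hX
    apply hg
    rw [card_compl']
    have := card_le_n X
    omega
  · intro S hS
    rw [← h0 S hS, sum_filter, sum_filter, ← sum_compl]
    apply sum_congr rfl
    intro Y _
    rw [compl_compl]
    have e : (S ⊆ Yᶜ) ↔ Disjoint S Y := by
      rw [disjoint_left, subset_iff]
      simp only [mem_compl]
    by_cases h : Disjoint S Y
    · rw [if_pos h, if_pos (e.2 h)]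
    · rw [if_neg h, if_neg (fun h' => h (e.1 h'))]

theorem co_key (m t : ℕ) (htm : t ≤ m) (hm : m ≤ n) (g : Finset (Fin n) → ℚ)
    (hg : ∀ X, X.card ≠ t → g X = 0)
    (h0 : ∀ Y : Finset (Fin n), Y.card = m → ∑ X with X ⊆ Y, g X = 0)
    (B : Finset (Fin n)) : ∑ X, g X * P (n - m) (B \ X).card = 0 := by
  classical
  have h1 := key (n - m) (n - t) (by omega) (fun X => g Xᶜ) ?_ ?_ Bᶜ
  · rw [← h1, ← sum_compl]
    apply sum_congr rfl
    intro X _
    show g Xᶜ * P (n - m) (B \ Xᶜ).card = g Xᶜ * P (n - m) (X \ Bᶜ).card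
    have e : B \ Xᶜ = X \ Bᶜ := by
      ext x; simp only [mem_sdiff, mem_compl, not_not]; tauto
    rw [e]
  · intro X hX
    apply hg
    rw [card_compl']
    have := card_le_n X
    omega
  · intro S hS
    rw [← h0 Sᶜ (by rw [card_compl']; have := card_le_n S; omega), sum_filter, sum_filter,
      ← sum_compl]
    apply sum_congr rfl
    intro Y _
    rw [compl_compl]
    by_cases h : S ⊆ Yᶜ
    · rw [if_pos h, if_pos]
      intro x hx
      rw [mem_compl]
      intro hxS
      exact (mem_compl.1 (h hxS)) hx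
    · rw [if_neg h, if_neg]
      intro h'
      apply h
      intro x hx
      rw [mem_compl]
      intro hxY
      exact (mem_compl.1 (h' hxY)) hx

/-- two adjacent levels below `m` -/
theorem low2 (m t : ℕ) (htm : t < m) (hm : m ≤ n) (F : Finset (Finset (Fin n)))
    (hanti : ∀ A ∈ F, ∀ B ∈ F, A ⊆ B → A = B)
    (hF : ∀ A ∈ F, ∀ B ∈ F, A.card ≤ t → B.card ≤ t → (A \ B).card ≤ n - m)
    (hsz : ∀ A ∈ F, A.card < m → A.card = t ∨ A.card + 1 = t)
    (w : Finset (Fin n) → ℚ) (hwF : ∀ X, X ∉ F → w X = 0)
    (h0 : ∀ Y : Finset (Fin n), Y.card = m → ∑ X with (X.card < m ∧ X ⊆ Y), w X = 0) :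
    ∀ X : Finset (Fin n), X.card < m → w X = 0 := by
  classical
  set c : ℚ := 1 / ((m - (t - 1) : ℕ) : ℚ) with hc
  have hc0 : ((m - (t - 1) : ℕ) : ℚ) ≠ 0 := by
    rw [Nat.cast_ne_zero]; omega
  set g : Finset (Fin n) → ℚ := fun Z => if Z.card = t then
    (w Z + c * ∑ X with (X.card + 1 = t ∧ X ⊆ Z), w X) else 0 with hg
  have hg0 : ∀ Z : Finset (Fin n), Z.card ≠ t → g Z = 0 := by
    intro Z hZ
    show (if Z.card = t then _ else _) = _
    rw [if_neg hZ]
  have hg1 : ∀ Z : Finset (Fin n), Z.card = t → g Z =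
      w Z + c * ∑ X with (X.card + 1 = t ∧ X ⊆ Z), w X := by
    intro Z hZ
    show (if Z.card = t then _ else _) = _
    rw [if_pos hZ]
  have hsum : ∀ Y : Finset (Fin n), Y.card = m → ∑ Z with Z ⊆ Y, g Z = 0 := by
    intro Y hY
    rw [← h0 Y hY]
    have e1 : ∑ Z with Z ⊆ Y, g Z = ∑ Z with (Z.card = t ∧ Z ⊆ Y),
        (w Z + c * ∑ X with (X.card + 1 = t ∧ X ⊆ Z), w X) := by
      rw [sum_filter, sum_filter]
      apply sum_congr rfl
      intro Z _
      by_cases hZt : Z.card = t
      · by_cases hZY : Z ⊆ Y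
        · rw [if_pos hZY, if_pos ⟨hZt, hZY⟩, hg1 Z hZt]
        · rw [if_neg hZY, if_neg (fun h => hZY h.2)]
      · simp [hg0 Z hZt, hZt]
    rw [e1, sum_add_distrib, ← mul_sum]
    have e2 : ∑ Z with (Z.card = t ∧ Z ⊆ Y), ∑ X with (X.card + 1 = t ∧ X ⊆ Z), w X =
        ∑ X with (X.card + 1 = t ∧ X ⊆ Y), ((m - (t - 1) : ℕ) : ℚ) * w X := by
      rw [sum_comm' (t' := (univ : Finset (Finset (Fin n))).filter
          (fun X => X.card + 1 = t ∧ X ⊆ Y))
        (s' := fun X => (univ : Finset (Finset (Fin n))).filter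
          (fun Z => Z.card = t ∧ X ⊆ Z ∧ Z ⊆ Y))]
      · apply sum_congr rfl
        intro X hX
        rw [mem_filter] at hX
        rw [sum_const, nsmul_eq_mul, card_between X Y t hX.2.2 (by omega), hY]
        have e3 : t - X.card = 1 := by omega
        rw [e3, Nat.choose_one_right]
        have e4 : m - X.card = m - (t - 1) := by omega
        rw [e4]
      · intro X Z
        simp only [mem_filter, mem_univ, true_and]
        constructor
        · rintro ⟨⟨h1, h2⟩, h3, h4⟩
          exact ⟨⟨h1, h4, h2⟩, h3, h4.trans h2⟩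
        · rintro ⟨⟨h1, h2, h3⟩, h4, h5⟩
          exact ⟨⟨h1, h3⟩, h4, h2⟩
    rw [e2, ← mul_sum, ← mul_assoc, hc, one_div, inv_mul_cancel₀ hc0, one_mul]
    have e5 : ∑ X with (X.card < m ∧ X ⊆ Y), w X =
        ∑ X : Finset (Fin n), ((if (X.card = t ∧ X ⊆ Y) then w X else 0) +
          (if (X.card + 1 = t ∧ X ⊆ Y) then w X else 0)) := by
      rw [sum_filter]
      apply sum_congr rfl
      intro X _
      by_cases hXF : X ∈ F
      · by_cases hXY : X ⊆ Y
        · by_cases hXm : X.card < m
          · rcases hsz X hXF hXm with h | h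
            · rw [if_pos ⟨hXm, hXY⟩, if_pos ⟨h, hXY⟩, if_neg (by omega), add_zero]
            · rw [if_pos ⟨hXm, hXY⟩, if_neg (by omega), if_pos ⟨h, hXY⟩, zero_add]
          · rw [if_neg (fun h => hXm h.1), if_neg (by omega), if_neg (by omega), add_zero]
        · rw [if_neg (fun h => hXY h.2), if_neg (fun h => hXY h.2), if_neg (fun h => hXY h.2),
            add_zero]
      · rw [hwF X hXF]; simp
    rw [e5, sum_add_distrib, sum_filter, sum_filter]
  have htop : ∀ B : Finset (Fin n), B.card = t → w B = 0 := by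
    intro B hBt
    by_cases hB : B ∈ F
    · have h1 := co_key m t htm.le hm g hg0 hsum B
      rw [sum_eq_single B] at h1
      · rw [sdiff_self, show ((⊥ : Finset (Fin n)).card) = 0 from rfl, P_zero, mul_one,
          hg1 B hBt] at h1
        have e1 : ∑ X with (X.card + 1 = t ∧ X ⊆ B), w X = 0 := by
          apply sum_eq_zero
          intro X hX
          rw [mem_filter] at hX
          by_cases hXF : X ∈ F
          · have := hanti X hXF B hB hX.2.2
            rw [this] at hX
            omega
          · exact hwF X hXF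
        rw [e1, mul_zero, add_zero] at h1
        exact h1
      · intro Z _ hZB
        by_cases hZt : Z.card = t
        · by_cases hz : g Z = 0
          · rw [hz, zero_mul]
          · have hpos : 1 ≤ (B \ Z).card := by
              rw [Nat.one_le_iff_ne_zero, Ne, card_eq_zero, sdiff_eq_empty_iff_subset]
              intro hs
              exact hZB (eq_of_subset_of_card_le hs (by omega)).symm
            have hle : (B \ Z).card ≤ n - m := by
              by_cases hZF : Z ∈ F
              · exact hF B hB Z hZF hBt.le hZt.le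
              · have : ∑ X with (X.card + 1 = t ∧ X ⊆ Z), w X ≠ 0 := by
                  intro h
                  apply hz
                  rw [hg1 Z hZt, h, hwF Z hZF]; ring
                obtain ⟨X, hX, hX0⟩ := exists_ne_zero_of_sum_ne_zero this
                rw [mem_filter] at hX
                have hXF : X ∈ F := by
                  by_contra h
                  exact hX0 (hwF X h)
                have h2 := hF B hB X hXF hBt.le (by omega)
                exact (card_le_card (sdiff_subset_sdiff subset_rfl hX.2.2)).trans h2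
            rw [P_pos _ _ hpos hle, mul_zero]
        · rw [hg0 Z hZt, zero_mul]
      · intro h; exact absurd (mem_univ _) h
    · exact hwF B hB
  intro X hX
  by_cases hXF : X ∈ F
  · rcases hsz X hXF hX with h | h
    · exact htop X h
    · have h1 := low_zero m (t - 1) (by omega) hm F ?_ (fun X => if X.card = t - 1 then w X else 0)
        (fun X hX => by simp [hX]) (fun X hX => by simp [hwF X hX]) ?_ X
      · rw [if_pos (by omega)] at h1
        exact h1
      · intro A hA B hB hAa hBa
        exact hF A hA B hB (by omega) (by omega)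
      · intro Y hY
        refine Eq.trans ?_ (h0 Y hY)
        rw [sum_filter, sum_filter]
        apply sum_congr rfl
        intro Z _
        by_cases hZY : Z ⊆ Y
        · rw [if_pos hZY]
          by_cases hZ1 : Z.card = t - 1
          · rw [if_pos hZ1, if_pos ⟨by omega, hZY⟩]
          · rw [if_neg hZ1]
            by_cases hZm : Z.card < m
            · by_cases hZF : Z ∈ F
              · rcases hsz Z hZF hZm with h' | h'
                · simp [htop Z h']
                · omega
              · simp [hwF Z hZF]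
            · simp [hZm]
        · simp [hZY]
  · exact hwF X hXF

end Pool.Agent.H66.AD
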