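import Pool.Agent.H66.AD1
set_option autoImplicit false
open Finset

/-! Antichains of bounded diameter: one centre. -/

namespace Pool.Agent.H66.AD

open Pool.Agent.H173R2.AntiDiam Pool.Agent.W448.AD

variable {n : ℕ}

/-- the transfer to level `m` -/
def Tr (m : ℕ) : (Finset (Fin n) → ℚ) →ₗ[ℚ] (Finset (Fin n) → ℚ) where
  toFun w := fun Y => if Y.card = m then
    ((∑ X with (X.card < m ∧ X ⊆ Y), w X) + w Y + ∑ X with (m < X.card ∧ Y ⊆ X), w X) else 0
  map_add' f g := by
    funext Y
    simp only [Pi.add_apply]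
    split_ifs
    · rw [sum_add_distrib, sum_add_distrib]; ring
    · simp
  map_smul' q f := by
    funext Y
    simp only [Pi.smul_apply, smul_eq_mul, RingHom.id_apply]
    split_ifs
    · rw [← mul_sum, ← mul_sum]; ring
    · simp

theorem Tr_zero (m : ℕ) (w : Finset (Fin n) → ℚ) (Y : Finset (Fin n)) (hY : Y.card ≠ m) :
    Tr m w Y = 0 := by
  show (if Y.card = m then _ else _) = _; rw [if_neg hY]

theorem Tr_eq (m : ℕ) (w : Finset (Fin n) → ℚ) (Y : Finset (Fin n)) (hY : Y.card = m) :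
    Tr m w Y = (∑ X with (X.card < m ∧ X ⊆ Y), w X) + w Y +
      ∑ X with (m < X.card ∧ Y ⊆ X), w X := by
  show (if Y.card = m then _ else _) = _; rw [if_pos hY]

theorem Tr_compl (m : ℕ) (hm : m ≤ n) (w : Finset (Fin n) → ℚ) (Y : Finset (Fin n)) :
    Tr (n - m) (fun X => w Xᶜ) Y = Tr m w Yᶜ := by
  classical
  have hYn := card_le_n Y
  by_cases hY : Y.card = n - m
  · rw [Tr_eq _ _ _ hY, Tr_eq m w Yᶜ (by rw [card_compl']; omega)]
    have e1 : ∑ X with (X.card < n - m ∧ X ⊆ Y), w Xᶜ = ∑ X with (m < X.card ∧ Yᶜ ⊆ X), w X := by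
      rw [sum_filter, sum_filter, ← sum_compl]
      apply sum_congr rfl
      intro X _
      rw [compl_compl]
      have hX := card_le_n X
      have hc : (Xᶜ.card < n - m ∧ Xᶜ ⊆ Y) ↔ (m < X.card ∧ Yᶜ ⊆ X) := by
        rw [card_compl', compl_sub_comm]
        constructor
        · rintro ⟨h1, h2⟩; exact ⟨by omega, h2⟩
        · rintro ⟨h1, h2⟩; exact ⟨by omega, h2⟩
      by_cases h : m < X.card ∧ Yᶜ ⊆ X
      · rw [if_pos h, if_pos (hc.2 h)]
      · rw [if_neg h, if_neg (fun h' => h (hc.1 h'))]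
    have e2 : ∑ X with (n - m < X.card ∧ Y ⊆ X), w Xᶜ = ∑ X with (X.card < m ∧ X ⊆ Yᶜ), w X := by
      rw [sum_filter, sum_filter, ← sum_compl]
      apply sum_congr rfl
      intro X _
      rw [compl_compl]
      have hX := card_le_n X
      have hs : Y ⊆ Xᶜ ↔ X ⊆ Yᶜ := by
        constructor
        · intro h x hx
          rw [mem_compl]
          intro hxY
          exact (mem_compl.1 (h hxY)) hx
        · intro h x hx
          rw [mem_compl]
          intro hxY
          exact (mem_compl.1 (h hxY)) hx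
      have hc : (n - m < Xᶜ.card ∧ Y ⊆ Xᶜ) ↔ (X.card < m ∧ X ⊆ Yᶜ) := by
        rw [card_compl', hs]
        constructor
        · rintro ⟨h1, h2⟩; exact ⟨by omega, h2⟩
        · rintro ⟨h1, h2⟩; exact ⟨by omega, h2⟩
      by_cases h : X.card < m ∧ X ⊆ Yᶜ
      · rw [if_pos h, if_pos (hc.2 h)]
      · rw [if_neg h, if_neg (fun h' => h (hc.1 h'))]
    rw [e1, e2]
    show _ + w Yᶜ + _ = _
    ring
  · rw [Tr_zero _ _ _ hY, Tr_zero _ _ _ (by rw [card_compl']; omega)]

theorem elim_below (s ε m : ℕ) (hε : ε ≤ 1) (hsm : s ≤ m) (hms : m + s ≤ n)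
    (F : Finset (Finset (Fin n)))
    (hanti : ∀ A ∈ F, ∀ B ∈ F, A ⊆ B → A = B)
    (hd : ∀ A ∈ F, ∀ B ∈ F, (A \ B).card + (B \ A).card ≤ 2 * s + ε)
    (hb : ∀ A ∈ F, ∀ B ∈ F, A.card < m → B.card < m → A.card + ε ≤ B.card + 1)
    (hx : ∀ A ∈ F, ∀ B ∈ F, A.card < m → m < B.card → A.card + B.card + ε ≤ 2 * m + 1)
    (w : Finset (Fin n) → ℚ) (hwF : ∀ X, X ∉ F → w X = 0)
    (h0 : ∀ S : Finset (Fin n), S.card = s → ∑ Y with S ⊆ Y, Tr m w Y = 0) :
    ∀ X : Finset (Fin n), X.card < m → w X = 0 := by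
  classical
  have hne := hne1 F hanti
  set ψ : Finset (Fin n) → ℚ := fun Y => ∑ X with (X.card < m ∧ X ⊆ Y), w X with hψ
  set χ : Finset (Fin n) → ℚ := fun Y => ∑ X with (m < X.card ∧ Y ⊆ X), w X with hχ
  have hψn : ∀ Y, ψ Y ≠ 0 → ∃ X ∈ F, X.card < m ∧ X ⊆ Y := by
    intro Y hY
    by_contra h
    push Not at h
    apply hY
    apply sum_eq_zero
    intro X hX
    rw [mem_filter] at hX
    exact hwF X (fun hXF => h X hXF hX.2.1 hX.2.2)
  have hχn : ∀ Y, χ Y ≠ 0 → ∃ X ∈ F, m < X.card ∧ Y ⊆ X := by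
    intro Y hY
    by_contra h
    push Not at h
    apply hY
    apply sum_eq_zero
    intro X hX
    rw [mem_filter] at hX
    exact hwF X (fun hXF => h X hXF hX.2.1 hX.2.2)
  have hPle : ∀ y, 1 ≤ y → y ≤ s → P s y = 0 := fun y h1 h2 => P_pos s y h1 h2
  have hk1 : ∀ X' ∈ F, X'.card < m → ∑ Y with (Y.card = m ∧ X' ⊆ Y), ψ Y = 0 := by
    intro X' hX' hXa
    have hk := key' s m hsm (Tr m w) (Tr_zero m w) h0 X'
    rw [← hk, sum_filter]
    apply sum_congr rfl
    intro Y _
    by_cases hYm : Y.card = m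
    · rw [Tr_eq m w Y hYm]
      have e2 : w Y * P s (X' \ Y).card = 0 := by
        by_cases hY : Y ∈ F
        · have hXY : X' ≠ Y := fun h => by rw [h] at hXa; omega
          have h1 := hne X' hX' Y hY hXY
          have h2 := hd X' hX' Y hY
          have h3 := hbal X' Y
          rw [hPle _ h1 (by omega), mul_zero]
        · rw [hwF Y hY, zero_mul]
      have e3 : χ Y * P s (X' \ Y).card = 0 := by
        by_cases hc0 : χ Y = 0
        · rw [hc0, zero_mul]
        · obtain ⟨X, hX, hXc, hYX⟩ := hχn Y hc0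
          have hXX : X' ≠ X := fun h => by rw [h] at hXa; omega
          have h1 := hne X' hX' X hX hXX
          have h2 := hd X' hX' X hX
          have h3 := hbal X' X
          have h4 : (X' \ X).card ≤ (X' \ Y).card := card_le_card (sdiff_subset_sdiff subset_rfl hYX)
          have h5 : (X' \ Y).card ≤ (X' \ X).card + (X \ Y).card := by
            refine (card_le_card ?_).trans (card_union_le _ _)
            intro x hx
            rw [mem_sdiff] at hx
            rw [mem_union, mem_sdiff, mem_sdiff]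
            by_cases hxX : x ∈ X
            · exact Or.inr ⟨hxX, hx.2⟩
            · exact Or.inl ⟨hx.1, hxX⟩
          have h6 : (X \ Y).card = X.card - m := by rw [card_sdiff_of_subset hYX, hYm]
          have h7 := hx X' hX' X hX hXa hXc
          rw [hPle _ (by omega) (by omega), mul_zero]
      have e1 : ψ Y * P s (X' \ Y).card = if X' ⊆ Y then ψ Y else 0 := by
        by_cases hc0 : ψ Y = 0
        · rw [hc0, zero_mul]; simp
        · by_cases hs : X' ⊆ Y
          · rw [if_pos hs, sdiff_eq_empty_iff_subset.2 hs, card_empty, P_zero, mul_one]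
          · obtain ⟨X, hX, hXc, hXY⟩ := hψn Y hc0
            have h2 := hd X' hX' X hX
            have h3 := hbal X' X
            have h4 : (X' \ Y).card ≤ (X' \ X).card := card_le_card (sdiff_subset_sdiff subset_rfl hXY)
            have h5 : 1 ≤ (X' \ Y).card := by
              rw [Nat.one_le_iff_ne_zero, Ne, card_eq_zero, sdiff_eq_empty_iff_subset]
              exact hs
            have h7 := hb X' hX' X hX hXa hXc
            rw [if_neg hs, hPle _ h5 (by omega), mul_zero]
      have e4 : (if Y.card = m ∧ X' ⊆ Y then ψ Y else 0) = if X' ⊆ Y then ψ Y else 0 := by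
        simp [hYm]
      rw [e4, add_mul, add_mul]
      show _ = ψ Y * _ + w Y * _ + χ Y * _
      rw [e1, e2, e3]; ring
    · rw [Tr_zero m w Y hYm, zero_mul, if_neg (fun h => hYm h.1)]
  have hψ0 : ∀ Y : Finset (Fin n), Y.card = m → ψ Y = 0 := by
    have h1 : ∑ Y with Y.card = m, ψ Y * ψ Y = 0 := by
      have h2 : ∑ Y with Y.card = m, ψ Y * ψ Y =
          ∑ X with X.card < m, w X * ∑ Y with (Y.card = m ∧ X ⊆ Y), ψ Y := by
        simp_rw [mul_sum]
        rw [sum_comm' (t' := (univ : Finset (Finset (Fin n))).filter (fun Y => Y.card = m))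
          (s' := fun Y => (univ : Finset (Finset (Fin n))).filter (fun X => X.card < m ∧ X ⊆ Y))]
        · apply sum_congr rfl
          intro Y _
          rw [← sum_mul]
        · intro X Y
          simp only [mem_filter, mem_univ, true_and]
          tauto
      rw [h2]
      apply sum_eq_zero
      intro X hX
      rw [mem_filter] at hX
      by_cases hXF : X ∈ F
      · rw [hk1 X hXF hX.2, mul_zero]
      · rw [hwF X hXF, zero_mul]
    rw [sum_eq_zero_iff_of_nonneg (fun _ _ => mul_self_nonneg _)] at h1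
    intro Y hY
    exact mul_self_eq_zero.1 (h1 Y (mem_filter.2 ⟨mem_univ _, hY⟩))
  -- the largest size below `m`
  by_cases hE : ∃ A ∈ F, A.card < m
  · obtain ⟨A0, hA0, hA0m⟩ := hE
    obtain ⟨A1, hA1, hmax⟩ := exists_max_image (F.filter (fun A => A.card < m)) card
      ⟨A0, mem_filter.2 ⟨hA0, hA0m⟩⟩
    rw [mem_filter] at hA1
    refine low2 m A1.card hA1.2 (by omega) F hanti ?_ ?_ w hwF hψ0
    · intro A hA B hB hAt hBt
      have h2 := hd A hA B hB
      have h3 := hbal A B
      have h4 := hb A hA B hB (by omega) (by omega)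
      omega
    · intro A hA hAm
      have h4 := hb A1 hA1.1 A hA hA1.2 hAm
      have h5 := hmax A (mem_filter.2 ⟨hA, hAm⟩)
      omega
  · intro X hX
    apply hwF
    intro h
    exact hE ⟨X, h, hX⟩

theorem elim_above (s ε m : ℕ) (hε : ε ≤ 1) (hsm : s ≤ m) (hms : m + s ≤ n)
    (F : Finset (Finset (Fin n)))
    (hanti : ∀ A ∈ F, ∀ B ∈ F, A ⊆ B → A = B)
    (hd : ∀ A ∈ F, ∀ B ∈ F, (A \ B).card + (B \ A).card ≤ 2 * s + ε)
    (ha : ∀ A ∈ F, ∀ B ∈ F, m < A.card → m < B.card → A.card + ε ≤ B.card + 1)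
    (hx : ∀ A ∈ F, ∀ B ∈ F, A.card < m → m < B.card → 2 * m + ε ≤ A.card + B.card + 1)
    (w : Finset (Fin n) → ℚ) (hwF : ∀ X, X ∉ F → w X = 0)
    (h0 : ∀ S : Finset (Fin n), S.card = s → ∑ Y with S ⊆ Y, Tr m w Y = 0) :
    ∀ X : Finset (Fin n), m < X.card → w X = 0 := by
  classical
  have hmem : ∀ X : Finset (Fin n), X ∈ F.image (fun A => Aᶜ) ↔ Xᶜ ∈ F := by
    intro X
    rw [mem_image]
    constructor
    · rintro ⟨A, hA, rfl⟩
      rwa [compl_compl]
    · intro h
      exact ⟨Xᶜ, h, compl_compl X⟩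
  have h1 := elim_below s ε (n - m) hε (by omega) (by omega) (F.image (fun A => Aᶜ)) ?_ ?_ ?_ ?_
    (fun X => w Xᶜ) ?_ ?_
  · intro X hX
    have h2 := h1 Xᶜ (by rw [card_compl']; have := card_le_n X; omega)
    simpa using h2
  · intro A hA B hB hAB
    rw [hmem] at hA hB
    have h2 := hanti Bᶜ hB Aᶜ hA (compl_subset_compl.2 hAB)
    have h3 := congrArg (fun Z : Finset (Fin n) => Zᶜ) h2
    simpa using h3.symm
  · intro A hA B hB
    rw [hmem] at hA hB
    have h2 := hd Aᶜ hA Bᶜ hB
    rw [sdiff_cc, sdiff_cc] at h2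
    omega
  · intro A hA B hB hAm hBm
    rw [hmem] at hA hB
    have h2 := ha Bᶜ hB Aᶜ hA
    rw [card_compl', card_compl'] at h2
    have := card_le_n A
    have := card_le_n B
    have := h2 (by omega) (by omega)
    omega
  · intro A hA B hB hAm hBm
    rw [hmem] at hA hB
    have h2 := hx Bᶜ hB Aᶜ hA
    rw [card_compl', card_compl'] at h2
    have := card_le_n A
    have := card_le_n B
    have := h2 (by omega) (by omega)
    omega
  · intro X hX
    rw [hmem] at hX
    exact hwF _ hX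
  · intro S hS
    simp_rw [Tr_compl m (show m ≤ n by omega) w]
    have h2 := incl_to_disj s m hsm (Tr m w) (Tr_zero m w) h0 S hS
    rw [← h2, sum_filter, sum_filter, ← sum_compl]
    apply sum_congr rfl
    intro Y _
    rw [compl_compl]
    have e : (S ⊆ Yᶜ) ↔ Disjoint S Y := by
      rw [disjoint_left, subset_iff]
      simp only [mem_compl]
    by_cases h : Disjoint S Y
    · rw [if_pos h, if_pos (e.2 h)]
    · rw [if_neg h, if_neg (fun h' => h (e.1 h'))]

theorem centre (s m : ℕ) (hsm : s ≤ m)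
    (F : Finset (Finset (Fin n)))
    (hF : ∀ A ∈ F, ∀ B ∈ F, A.card = m → B.card = m → (A \ B).card ≤ s)
    (w : Finset (Fin n) → ℚ) (hwF : ∀ X, X ∉ F → w X = 0)
    (hbe : ∀ X : Finset (Fin n), X.card < m → w X = 0)
    (hab : ∀ X : Finset (Fin n), m < X.card → w X = 0)
    (h0 : ∀ S : Finset (Fin n), S.card = s → ∑ Y with S ⊆ Y, Tr m w Y = 0) :
    ∀ X : Finset (Fin n), w X = 0 := by
  classical
  have hT : ∀ Y : Finset (Fin n), Y.card = m → Tr m w Y = w Y := by
    intro Y hY
    rw [Tr_eq m w Y hY]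
    have e1 : ∑ X with (X.card < m ∧ X ⊆ Y), w X = 0 := by
      apply sum_eq_zero
      intro X hX
      exact hbe X (mem_filter.1 hX).2.1
    have e2 : ∑ X with (m < X.card ∧ Y ⊆ X), w X = 0 := by
      apply sum_eq_zero
      intro X hX
      exact hab X (mem_filter.1 hX).2.1
    rw [e1, e2]; ring
  have h1 := uniform s m hsm F hF (Tr m w) (Tr_zero m w) ?_ h0
  · intro X
    rcases lt_trichotomy X.card m with h | h | h
    · exact hbe X h
    · rw [← hT X h]; exact h1 X
    · exact hab X h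
  · intro X hX
    by_cases hXm : X.card = m
    · rw [hT X hXm]; exact hwF X hX
    · exact Tr_zero m w X hXm

theorem core (s ε m : ℕ) (hε : ε ≤ 1) (hsm : s ≤ m) (hms : m + s ≤ n)
    (F : Finset (Finset (Fin n)))
    (hanti : ∀ A ∈ F, ∀ B ∈ F, A ⊆ B → A = B)
    (hd : ∀ A ∈ F, ∀ B ∈ F, (A \ B).card + (B \ A).card ≤ 2 * s + ε)
    (hb : ∀ A ∈ F, ∀ B ∈ F, A.card < m → B.card < m → A.card + ε ≤ B.card + 1)
    (ha : ∀ A ∈ F, ∀ B ∈ F, m < A.card → m < B.card → A.card + ε ≤ B.card + 1)
    (w : Finset (Fin n) → ℚ) (hwF : ∀ X, X ∉ F → w X = 0)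
    (h0 : ∀ S : Finset (Fin n), S.card = s → ∑ Y with S ⊆ Y, Tr m w Y = 0) :
    ∀ X : Finset (Fin n), w X = 0 := by
  classical
  have hFm : ∀ A ∈ F, ∀ B ∈ F, A.card = m → B.card = m → (A \ B).card ≤ s := by
    intro A hA B hB hAm hBm
    have h2 := hd A hA B hB
    have h3 := hbal A B
    omega
  by_cases hcase : ∀ A ∈ F, ∀ B ∈ F, A.card < m → m < B.card → A.card + B.card + ε ≤ 2 * m + 1
  · have hbe := elim_below s ε m hε hsm hms F hanti hd hb hcase w hwF h0
    have hab := elim_above s ε m hε hsm hms (F.filter (fun A => m ≤ A.card))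
      (fun A hA B hB => hanti A (mem_filter.1 hA).1 B (mem_filter.1 hB).1)
      (fun A hA B hB => hd A (mem_filter.1 hA).1 B (mem_filter.1 hB).1)
      (fun A hA B hB => ha A (mem_filter.1 hA).1 B (mem_filter.1 hB).1)
      (fun A hA B hB hAm => by
        have := (mem_filter.1 hA).2
        omega) w
      (fun X hX => by
        by_cases hXF : X ∈ F
        · apply hbe
          by_contra h
          exact hX (mem_filter.2 ⟨hXF, by omega⟩)
        · exact hwF X hXF) h0
    exact centre s m hsm F hFm w hwF hbe hab h0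
  · push Not at hcase
    obtain ⟨A0, hA0, B0, hB0, hA0m, hB0m, hlt⟩ := hcase
    have hab := elim_above s ε m hε hsm hms F hanti hd ha (fun A hA B hB hAm hBm => by
      have h1 := hb A0 hA0 A hA hA0m hAm
      have h2 := ha B0 hB0 B hB hB0m hBm
      omega) w hwF h0
    have hbe := elim_below s ε m hε hsm hms (F.filter (fun A => A.card ≤ m))
      (fun A hA B hB => hanti A (mem_filter.1 hA).1 B (mem_filter.1 hB).1)
      (fun A hA B hB => hd A (mem_filter.1 hA).1 B (mem_filter.1 hB).1)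
      (fun A hA B hB => hb A (mem_filter.1 hA).1 B (mem_filter.1 hB).1)
      (fun A hA B hB hAm hBm => by
        have := (mem_filter.1 hB).2
        omega) w
      (fun X hX => by
        by_cases hXF : X ∈ F
        · apply hab
          by_contra h
          exact hX (mem_filter.2 ⟨hXF, by omega⟩)
        · exact hwF X hXF) h0
    exact centre s m hsm F hFm w hwF hbe hab h0

end Pool.Agent.H66.AD
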