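import Pool.Agent.H66.AD2
set_option autoImplicit false
open Finset

/-! Antichains of bounded diameter: two centres. -/

namespace Pool.Agent.H66.AD

open Pool.Agent.H173R2.AntiDiam Pool.Agent.W448.AD

variable {n : ℕ}

/-- sums over supersets -/
def Up : (Finset (Fin n) → ℚ) →ₗ[ℚ] (Finset (Fin n) → ℚ) where
  toFun g := fun S => ∑ Y with S ⊆ Y, g Y
  map_add' f g := by
    funext S
    simp only [Pi.add_apply, sum_add_distrib]
  map_smul' q f := by
    funext S
    simp only [Pi.smul_apply, smul_eq_mul, RingHom.id_apply, mul_sum]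

/-- sums over disjoint sets -/
def Dj : (Finset (Fin n) → ℚ) →ₗ[ℚ] (Finset (Fin n) → ℚ) where
  toFun g := fun S => ∑ Y with Disjoint S Y, g Y
  map_add' f g := by
    funext S
    simp only [Pi.add_apply, sum_add_distrib]
  map_smul' q f := by
    funext S
    simp only [Pi.smul_apply, smul_eq_mul, RingHom.id_apply, mul_sum]

/-- restriction to a family -/
def Rs (L : Finset (Finset (Fin n))) : (Finset (Fin n) → ℚ) →ₗ[ℚ] (Finset (Fin n) → ℚ) where
  toFun w := fun X => if X ∈ L then w X else 0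
  map_add' f g := by
    funext X
    simp only [Pi.add_apply]
    split_ifs <;> simp
  map_smul' q f := by
    funext X
    simp only [Pi.smul_apply, smul_eq_mul, RingHom.id_apply]
    split_ifs <;> simp

theorem Up_apply (g : Finset (Fin n) → ℚ) (S : Finset (Fin n)) : Up g S = ∑ Y with S ⊆ Y, g Y := rfl

theorem Dj_apply (g : Finset (Fin n) → ℚ) (S : Finset (Fin n)) :
    Dj g S = ∑ Y with Disjoint S Y, g Y := rfl

theorem Rs_apply (L : Finset (Finset (Fin n))) (w : Finset (Fin n) → ℚ) (X : Finset (Fin n)) :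
    Rs L w X = if X ∈ L then w X else 0 := rfl

/-- counting through an injective linear map to functions on the level `r` -/
theorem card_le_of_ker (r : ℕ) (G : Finset (Finset (Fin n)))
    (Φ : (Finset (Fin n) → ℚ) →ₗ[ℚ] (Finset (Fin n) → ℚ))
    (hinj : ∀ c : Finset (Fin n) → ℚ, (∀ X, X ∉ G → c X = 0) →
      (∀ S : Finset (Fin n), S.card = r → Φ c S = 0) → ∀ X, c X = 0) :
    G.card ≤ n.choose r := by
  classical
  let E : (G → ℚ) →ₗ[ℚ] (Finset (Fin n) → ℚ) :=
    { toFun := fun c X => if h : X ∈ G then c ⟨X, h⟩ else 0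
      map_add' := by
        intro c d
        funext X
        simp only [Pi.add_apply]
        split_ifs <;> simp
      map_smul' := by
        intro q c
        funext X
        simp only [Pi.smul_apply, smul_eq_mul, RingHom.id_apply]
        split_ifs <;> simp }
  have hE : ∀ (c : G → ℚ) (X : G), E c X = c X := by
    intro c X
    show (if h : (X : Finset (Fin n)) ∈ G then c ⟨X, h⟩ else 0) = c X
    simp
  have hE0 : ∀ (c : G → ℚ) (X : Finset (Fin n)), X ∉ G → E c X = 0 := by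
    intro c X hX
    show (if h : X ∈ G then c ⟨X, h⟩ else 0) = 0
    simp [hX]
  let R : (Finset (Fin n) → ℚ) →ₗ[ℚ] ((powersetCard r (univ : Finset (Fin n)) :
      Finset (Finset (Fin n))) → ℚ) := LinearMap.funLeft ℚ ℚ (fun S => (S : Finset (Fin n)))
  have hL : Function.Injective (R ∘ₗ Φ ∘ₗ E) := by
    rw [← LinearMap.ker_eq_bot, LinearMap.ker_eq_bot']
    intro c hc
    have h1 := hinj (E c) (hE0 c) (fun S hS => by
      have := congrFun hc ⟨S, mem_powersetCard.2 ⟨subset_univ _, hS⟩⟩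
      exact this)
    funext X
    rw [← hE c X]
    exact h1 X
  have h4 := LinearMap.finrank_le_finrank_of_injective hL
  rw [Module.finrank_pi, Module.finrank_pi, Fintype.card_coe, Fintype.card_coe, card_powersetCard,
    card_univ, Fintype.card_fin] at h4
  exact h4

theorem Tr_ne (m : ℕ) (w : Finset (Fin n) → ℚ) (L : Finset (Finset (Fin n)))
    (hw : ∀ X, X ∉ L → w X = 0) (Y : Finset (Fin n)) (hY : Tr m w Y ≠ 0) :
    Y.card = m ∧ ∃ A ∈ L, (A ⊆ Y ∨ Y ⊆ A) := by
  classical
  have hm : Y.card = m := by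
    by_contra h
    exact hY (Tr_zero m w Y h)
  refine ⟨hm, ?_⟩
  by_contra h
  push Not at h
  apply hY
  rw [Tr_eq m w Y hm]
  have e1 : ∑ X with (X.card < m ∧ X ⊆ Y), w X = 0 := by
    apply sum_eq_zero
    intro X hX
    apply hw
    intro hXL
    exact (h X hXL).1 (mem_filter.1 hX).2.2
  have e2 : ∑ X with (m < X.card ∧ Y ⊆ X), w X = 0 := by
    apply sum_eq_zero
    intro X hX
    apply hw
    intro hXL
    exact (h X hXL).2 (mem_filter.1 hX).2.2
  rw [e1, e2, hw Y (fun hYL => (h Y hYL).1 subset_rfl)]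
  ring

theorem tri (A B C : Finset (Fin n)) : (A \ C).card ≤ (A \ B).card + (B \ C).card := by
  refine (card_le_card ?_).trans (card_union_le _ _)
  intro x hx
  rw [mem_sdiff] at hx
  rw [mem_union, mem_sdiff, mem_sdiff]
  by_cases hxB : x ∈ B
  · exact Or.inr ⟨hxB, hx.2⟩
  · exact Or.inl ⟨hx.1, hxB⟩

theorem comp_dist (A Y : Finset (Fin n)) (h : A ⊆ Y ∨ Y ⊆ A) :
    (A \ Y).card + (Y \ A).card = (A.card - Y.card) + (Y.card - A.card) := by
  rcases h with h | h
  · rw [sdiff_eq_empty_iff_subset.2 h, card_empty, card_sdiff_of_subset h]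
    have := card_le_card h
    omega
  · rw [sdiff_eq_empty_iff_subset.2 h, card_empty, card_sdiff_of_subset h]
    have := card_le_card h
    omega

/-- the two-centre theorem -/
theorem main (s ε m m' : ℕ) (hε : ε ≤ 1) (h1 : s ≤ m) (h2 : m ≤ m') (h3 : m' + s ≤ n)
    (F L H : Finset (Finset (Fin n))) (hF : F = L ∪ H)
    (hanti : ∀ A ∈ F, ∀ B ∈ F, A ⊆ B → A = B)
    (hd : ∀ A ∈ F, ∀ B ∈ F, (A \ B).card + (B \ A).card ≤ 2 * s + ε)
    (hLb : ∀ A ∈ L, ∀ B ∈ L, A.card < m → B.card < m → A.card + ε ≤ B.card + 1)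
    (hLa : ∀ A ∈ L, ∀ B ∈ L, m < A.card → m < B.card → A.card + ε ≤ B.card + 1)
    (hHb : ∀ A ∈ H, ∀ B ∈ H, A.card < m' → B.card < m' → A.card + ε ≤ B.card + 1)
    (hHa : ∀ A ∈ H, ∀ B ∈ H, m' < A.card → m' < B.card → A.card + ε ≤ B.card + 1)
    (hcut : ∀ A ∈ L, ∀ B ∈ H, (A.card - m) + (m - A.card) + ((B.card - m') + (m' - B.card)) + ε <
      m' - m) : F.card ≤ n.choose s := by
  classical
  have hLF : ∀ A ∈ L, A ∈ F := fun A hA => by rw [hF]; exact mem_union_left _ hA
  have hHF : ∀ A ∈ H, A ∈ F := fun A hA => by rw [hF]; exact mem_union_right _ hA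
  apply card_le_of_ker s F
    (Up ∘ₗ Tr m ∘ₗ Rs L + Dj ∘ₗ Tr m' ∘ₗ Rs H)
  intro c hc h0
  have hs : ∀ S : Finset (Fin n), S.card = s → Up (Tr m (Rs L c)) S + Dj (Tr m' (Rs H c)) S = 0 :=
    fun S hS => h0 S hS
  have hRL : ∀ X, X ∉ L → Rs L c X = 0 := fun X hX => by rw [Rs_apply, if_neg hX]
  have hRH : ∀ X, X ∉ H → Rs H c X = 0 := fun X hX => by rw [Rs_apply, if_neg hX]
  have hex : ∀ S : Finset (Fin n), S.card = s →
      Up (Tr m (Rs L c)) S = 0 ∨ Dj (Tr m' (Rs H c)) S = 0 := by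
    intro S hS
    by_contra hcon
    push Not at hcon
    rw [Up_apply, Dj_apply] at hcon
    obtain ⟨Y, hY, hY0⟩ := exists_ne_zero_of_sum_ne_zero hcon.1
    obtain ⟨Z, hZ, hZ0⟩ := exists_ne_zero_of_sum_ne_zero hcon.2
    rw [mem_filter] at hY hZ
    obtain ⟨hYm, A, hA, hAY⟩ := Tr_ne m _ L hRL Y hY0
    obtain ⟨hZm, B, hB, hBZ⟩ := Tr_ne m' _ H hRH Z hZ0
    have e1 := comp_dist A Y hAY
    have e2 := comp_dist B Z hBZ
    have e3 := hd A (hLF A hA) B (hHF B hB)
    have e4 := hcut A hA B hB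
    have e5 : S.card ≤ (Y \ Z).card := by
      apply card_le_card
      intro x hx
      rw [mem_sdiff]
      exact ⟨hY.2 hx, fun hxZ => disjoint_left.1 hZ.2 hx hxZ⟩
    have e6 := tri Y A Z
    have e7 := tri A B Z
    have e8 := tri Z B Y
    have e9 := tri B A Y
    have e10 := hbal Y Z
    omega
  have hA0 : ∀ S : Finset (Fin n), S.card = s → Up (Tr m (Rs L c)) S = 0 := by
    intro S hS
    rcases hex S hS with h | h
    · exact h
    · have := hs S hS
      rw [h, add_zero] at this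
      exact this
  have hB0 : ∀ S : Finset (Fin n), S.card = s → Dj (Tr m' (Rs H c)) S = 0 := by
    intro S hS
    have := hs S hS
    rw [hA0 S hS, zero_add] at this
    exact this
  have hL0 := core s ε m hε h1 (by omega) L
    (fun A hA B hB => hanti A (hLF A hA) B (hLF B hB))
    (fun A hA B hB => hd A (hLF A hA) B (hLF B hB)) hLb hLa (Rs L c) hRL hA0
  have hH0 := core s ε m' hε (by omega) h3 H
    (fun A hA B hB => hanti A (hHF A hA) B (hHF B hB))
    (fun A hA B hB => hd A (hHF A hA) B (hHF B hB)) hHb hHa (Rs H c) hRH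
    (fun S hS => disj_to_incl s m' h3 _ (Tr_zero m' _) hB0 S hS)
  intro X
  by_cases hXF : X ∈ F
  · rw [hF, mem_union] at hXF
    rcases hXF with h | h
    · have := hL0 X
      rw [Rs_apply, if_pos h] at this
      exact this
    · have := hH0 X
      rw [Rs_apply, if_pos h] at this
      exact this
  · exact hc X hXF

/-- one centre -/
theorem one (s ε m : ℕ) (hε : ε ≤ 1) (h1 : s ≤ m) (h3 : m + s ≤ n)
    (F : Finset (Finset (Fin n)))
    (hanti : ∀ A ∈ F, ∀ B ∈ F, A ⊆ B → A = B)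
    (hd : ∀ A ∈ F, ∀ B ∈ F, (A \ B).card + (B \ A).card ≤ 2 * s + ε)
    (hLb : ∀ A ∈ F, ∀ B ∈ F, A.card < m → B.card < m → A.card + ε ≤ B.card + 1)
    (hLa : ∀ A ∈ F, ∀ B ∈ F, m < A.card → m < B.card → A.card + ε ≤ B.card + 1) :
    F.card ≤ n.choose s := by
  refine main s ε m m hε h1 le_rfl h3 F F ∅ (by simp) hanti hd hLb hLa ?_ ?_ ?_
  · intro A hA; exact absurd hA (notMem_empty A)
  · intro A hA; exact absurd hA (notMem_empty A)
  · intro A _ B hB; exact absurd hB (notMem_empty B)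

end Pool.Agent.H66.AD
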