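import Pool.Agent.H66.AD3
set_option autoImplicit false
open Finset

/-! Consequences of the two-centre theorem. -/

namespace Pool.Agent.H66.AD

open Pool.Agent.H173R2.AntiDiam Pool.Agent.W448.AD

variable {n : ℕ}

/-- ten consecutive sizes -/
theorem ten (s p : ℕ) (h1 : s ≤ p + 2) (h2 : p + 7 + s ≤ n)
    (F : Finset (Finset (Fin n)))
    (hanti : ∀ A ∈ F, ∀ B ∈ F, A ⊆ B → A = B)
    (hd : ∀ A ∈ F, ∀ B ∈ F, (A \ B).card + (B \ A).card ≤ 2 * s)
    (hsz : ∀ A ∈ F, p ≤ A.card ∧ A.card ≤ p + 9) : F.card ≤ n.choose s := by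
  classical
  refine main s 0 (p + 2) (p + 7) (by omega) h1 (by omega) h2 F
    (F.filter (fun A => A.card ≤ p + 4)) (F.filter (fun A => ¬ A.card ≤ p + 4))
    (filter_union_filter_not_eq _ F).symm hanti (by simpa using hd) ?_ ?_ ?_ ?_ ?_
  all_goals
    intro A hA B hB
    rw [mem_filter] at hA hB
    have := hsz A hA.1
    have := hsz B hB.1
    omega

/-- four sizes -/
theorem four (s ε a b c d : ℕ) (hε : ε ≤ 1) (hab : a < b) (hbc : b + ε < c) (hcd : c < d)
    (h1 : s ≤ a) (h2 : d + s ≤ n)
    (F : Finset (Finset (Fin n)))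
    (hanti : ∀ A ∈ F, ∀ B ∈ F, A ⊆ B → A = B)
    (hd : ∀ A ∈ F, ∀ B ∈ F, (A \ B).card + (B \ A).card ≤ 2 * s + ε)
    (hsz : ∀ A ∈ F, A.card = a ∨ A.card = b ∨ A.card = c ∨ A.card = d) :
    F.card ≤ n.choose s := by
  classical
  refine main s ε ((a + b) / 2) ((c + d + 1) / 2) hε (by omega) (by omega) (by omega) F
    (F.filter (fun A => A.card ≤ b)) (F.filter (fun A => ¬ A.card ≤ b))
    (filter_union_filter_not_eq _ F).symm hanti hd ?_ ?_ ?_ ?_ ?_
  all_goals
    intro A hA B hB
    rw [mem_filter] at hA hB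
    have := hsz A hA.1
    have := hsz B hB.1
    omega

theorem card_one (F : Finset (Finset (Fin n)))
    (hanti : ∀ A ∈ F, ∀ B ∈ F, A ⊆ B → A = B)
    (h : ∅ ∈ F ∨ univ ∈ F) : F.card ≤ 1 := by
  rw [card_le_one]
  intro A hA B hB
  rcases h with h | h
  · rw [← hanti ∅ h A hA (empty_subset _), ← hanti ∅ h B hB (empty_subset _)]
  · rw [hanti A hA univ h (subset_univ _), hanti B hB univ h (subset_univ _)]

theorem gap (D : ℕ) (F : Finset (Finset (Fin n)))
    (hanti : ∀ A ∈ F, ∀ B ∈ F, A ⊆ B → A = B)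
    (hd : ∀ A ∈ F, ∀ B ∈ F, (A \ B).card + (B \ A).card ≤ D) :
    ∀ A ∈ F, ∀ B ∈ F, A.card + 2 ≤ B.card + D ∨ A = B := by
  intro A hA B hB
  by_cases h : A = B
  · exact Or.inr h
  · left
    have h1 := hne1 F hanti A hA B hB h
    have h2 := hne1 F hanti B hB A hA (Ne.symm h)
    have h3 := hd A hA B hB
    have h4 := hbal A B
    omega

/-- diameter at most six -/
theorem diam6 (hn : 6 ≤ n) (F : Finset (Finset (Fin n)))
    (hanti : ∀ A ∈ F, ∀ B ∈ F, A ⊆ B → A = B)
    (hd : ∀ A ∈ F, ∀ B ∈ F, (A \ B).card + (B \ A).card ≤ 6) : F.card ≤ n.choose 3 := by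
  classical
  by_cases hE : ∅ ∈ F ∨ univ ∈ F
  · refine (card_one F hanti hE).trans (Nat.choose_pos (by omega))
  · rcases F.eq_empty_or_nonempty with h0 | hne
    · rw [h0, card_empty]; exact Nat.zero_le _
    · push Not at hE
      have hsz : ∀ A ∈ F, 1 ≤ A.card ∧ A.card + 1 ≤ n := by
        intro A hA
        constructor
        · rw [Nat.one_le_iff_ne_zero, Ne, card_eq_zero]
          intro h
          exact hE.1 (h ▸ hA)
        · have h1 := card_le_n A
          have h2 : A.card ≠ n := by
            intro h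
            apply hE.2
            have : A = univ := by
              rw [← card_eq_iff_eq_univ, Fintype.card_fin]; exact h
            exact this ▸ hA
          omega
      obtain ⟨Q, hQ, hmax⟩ := exists_max_image F card hne
      have hg := gap 6 F hanti hd
      have hlow : ∀ A ∈ F, Q.card ≤ A.card + 4 := by
        intro A hA
        rcases hg Q hQ A hA with h | h
        · omega
        · rw [h]; omega
      have h1 := hsz Q hQ
      apply one 3 0 (max 3 (Q.card - 2)) (by omega) (by omega) (by omega) F hanti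
        (by simpa using hd)
      all_goals
        intro A hA B hB
        have := hsz A hA
        have := hsz B hB
        have := hlow A hA
        have := hlow B hB
        have := hmax A hA
        have := hmax B hB
        omega

/-- removing a point -/
def del (x : Fin (n + 1)) (B : Finset (Fin (n + 1))) : Finset (Fin n) :=
  univ.filter (fun y => x.succAbove y ∈ B)

theorem mem_del (x : Fin (n + 1)) (B : Finset (Fin (n + 1))) (y : Fin n) :
    y ∈ del x B ↔ x.succAbove y ∈ B := by
  unfold del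
  simp

theorem del_card (x : Fin (n + 1)) (B : Finset (Fin (n + 1))) (hx : x ∉ B) :
    (del x B).card = B.card := by
  classical
  have h : B = (del x B).map x.succAboveEmb := by
    ext z
    rw [mem_map]
    constructor
    · intro hz
      have hzx : z ≠ x := fun h => hx (h ▸ hz)
      obtain ⟨y, hy⟩ := Fin.exists_succAbove_eq hzx
      refine ⟨y, ?_, hy⟩
      rw [mem_del, hy]
      exact hz
    · rintro ⟨y, hy, rfl⟩
      exact (mem_del x B y).1 hy
  conv_rhs => rw [h]
  rw [card_map]

theorem del_sdiff (x : Fin (n + 1)) (A B : Finset (Fin (n + 1))) :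
    del x A \ del x B = del x (A \ B) := by
  ext y
  simp only [mem_sdiff, mem_del]

/-- reduction when a singleton belongs to the family -/
theorem single_red (D b : ℕ) (F : Finset (Finset (Fin (n + 1)))) (x : Fin (n + 1)) (hx : {x} ∈ F)
    (hanti : ∀ A ∈ F, ∀ B ∈ F, A ⊆ B → A = B)
    (hd : ∀ A ∈ F, ∀ B ∈ F, (A \ B).card + (B \ A).card ≤ D)
    (hrec : ∀ G : Finset (Finset (Fin n)), (∀ A ∈ G, ∀ B ∈ G, A ⊆ B → A = B) →
      (∀ A ∈ G, ∀ B ∈ G, (A \ B).card + (B \ A).card ≤ D) → G.card ≤ b) :
    F.card ≤ b + 1 := by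
  classical
  have hno : ∀ B ∈ F.erase {x}, x ∉ B := by
    intro B hB hxB
    rw [mem_erase] at hB
    have := hanti {x} hx B hB.2 (singleton_subset_iff.2 hxB)
    exact hB.1 this.symm
  have hinj : Set.InjOn (del x) (F.erase {x} : Finset (Finset (Fin (n + 1)))) := by
    intro A hA B hB hAB
    have h1 := del_sdiff x A B
    have h2 := del_sdiff x B A
    rw [hAB, sdiff_self] at h1
    rw [hAB, sdiff_self] at h2
    have hA' := hno A hA
    have hB' := hno B hB
    have h3 : (A \ B).card = 0 := by
      rw [← del_card x (A \ B) (fun h => hA' (mem_sdiff.1 h).1), ← h1]; rfl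
    have h4 : (B \ A).card = 0 := by
      rw [← del_card x (B \ A) (fun h => hB' (mem_sdiff.1 h).1), ← h2]; rfl
    rw [card_eq_zero, sdiff_eq_empty_iff_subset] at h3 h4
    exact subset_antisymm h3 h4
  have h1 := hrec ((F.erase {x}).image (del x)) ?_ ?_
  · rw [card_image_of_injOn hinj, card_erase_of_mem hx] at h1
    omega
  · intro A hA B hB hAB
    rw [mem_image] at hA hB
    obtain ⟨A', hA', rfl⟩ := hA
    obtain ⟨B', hB', rfl⟩ := hB
    have h2 := del_sdiff x A' B'
    rw [sdiff_eq_empty_iff_subset.2 hAB] at h2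
    have h3 : (A' \ B').card = 0 := by
      rw [← del_card x (A' \ B') (fun h => hno A' hA' (mem_sdiff.1 h).1), ← h2]; rfl
    rw [card_eq_zero, sdiff_eq_empty_iff_subset] at h3
    rw [hanti A' (mem_erase.1 hA').2 B' (mem_erase.1 hB').2 h3]
  · intro A hA B hB
    rw [mem_image] at hA hB
    obtain ⟨A', hA', rfl⟩ := hA
    obtain ⟨B', hB', rfl⟩ := hB
    rw [del_sdiff, del_sdiff, del_card x _ (fun h => hno A' hA' (mem_sdiff.1 h).1),
      del_card x _ (fun h => hno B' hB' (mem_sdiff.1 h).1)]
    exact hd A' (mem_erase.1 hA').2 B' (mem_erase.1 hB').2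

/-- the family of complements -/
theorem compl_fam (D : ℕ) (F : Finset (Finset (Fin n)))
    (hanti : ∀ A ∈ F, ∀ B ∈ F, A ⊆ B → A = B)
    (hd : ∀ A ∈ F, ∀ B ∈ F, (A \ B).card + (B \ A).card ≤ D) :
    ∃ G : Finset (Finset (Fin n)), G.card = F.card ∧ (∀ X, X ∈ G ↔ Xᶜ ∈ F) ∧
      (∀ A ∈ G, ∀ B ∈ G, A ⊆ B → A = B) ∧
      (∀ A ∈ G, ∀ B ∈ G, (A \ B).card + (B \ A).card ≤ D) := by
  classical
  have hmem : ∀ X : Finset (Fin n), X ∈ F.image (fun A => Aᶜ) ↔ Xᶜ ∈ F := by
    intro X
    rw [mem_image]
    constructor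
    · rintro ⟨A, hA, rfl⟩
      rwa [compl_compl]
    · intro h
      exact ⟨Xᶜ, h, compl_compl X⟩
  refine ⟨F.image (fun A => Aᶜ), card_image_of_injective _ compl_injective, hmem, ?_, ?_⟩
  · intro A hA B hB hAB
    rw [hmem] at hA hB
    have h2 := hanti Bᶜ hB Aᶜ hA (compl_subset_compl.2 hAB)
    have h3 := congrArg (fun Z : Finset (Fin n) => Zᶜ) h2
    simpa using h3.symm
  · intro A hA B hB
    rw [hmem] at hA hB
    have h2 := hd Aᶜ hA Bᶜ hB
    rw [sdiff_cc, sdiff_cc] at h2
    omega

/-- diameter at most eight, all sizes between `2` and `n - 2` -/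
theorem diam8_mid (hn : 12 ≤ n) (F : Finset (Finset (Fin n)))
    (hanti : ∀ A ∈ F, ∀ B ∈ F, A ⊆ B → A = B)
    (hd : ∀ A ∈ F, ∀ B ∈ F, (A \ B).card + (B \ A).card ≤ 8)
    (hsz : ∀ A ∈ F, 2 ≤ A.card ∧ A.card + 2 ≤ n) : F.card ≤ n.choose 4 := by
  classical
  rcases F.eq_empty_or_nonempty with h0 | hne
  · rw [h0, card_empty]; exact Nat.zero_le _
  · obtain ⟨Q, hQ, hmin⟩ := exists_min_image F card hne
    have hg := gap 8 F hanti hd
    have hup : ∀ A ∈ F, A.card ≤ Q.card + 6 := by
      intro A hA
      rcases hg A hA Q hQ with h | h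
      · omega
      · rw [h]; omega
    by_cases hp : Q.card ≤ 3
    · refine main 4 0 4 8 (by omega) (by omega) (by omega) (by omega) F
        (F.filter (fun A => A.card ≤ 6)) (F.filter (fun A => ¬ A.card ≤ 6))
        (filter_union_filter_not_eq _ F).symm hanti (by simpa using hd) ?_ ?_ ?_ ?_ ?_
      all_goals
        intro A hA B hB
        rw [mem_filter] at hA hB
        have := hsz A hA.1
        have := hsz B hB.1
        have := hup A hA.1
        have := hup B hB.1
        omega
    · obtain ⟨m, hm⟩ : ∃ m, m = min Q.card (n - 8) := ⟨_, rfl⟩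
      have h1 := hsz Q hQ
      refine main 4 0 m (m + 4) (by omega) (by omega) (by omega) (by omega) F
        (F.filter (fun A => A.card ≤ m + 1)) (F.filter (fun A => ¬ A.card ≤ m + 1))
        (filter_union_filter_not_eq _ F).symm hanti (by simpa using hd) ?_ ?_ ?_ ?_ ?_
      all_goals
        intro A hA B hB
        rw [mem_filter] at hA hB
        have := hsz A hA.1
        have := hsz B hB.1
        have := hup A hA.1
        have := hup B hB.1
        have := hmin A hA.1
        have := hmin B hB.1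
        omega

/-- diameter at most eight -/
theorem diam8 : ∀ n : ℕ, 9 ≤ n → ∀ F : Finset (Finset (Fin n)),
    (∀ A ∈ F, ∀ B ∈ F, A ⊆ B → A = B) →
    (∀ A ∈ F, ∀ B ∈ F, (A \ B).card + (B \ A).card ≤ 8) → F.card ≤ n.choose 4 := by
  classical
  intro n hn
  induction n, hn using Nat.le_induction with
  | base =>
    intro F hanti hd
    apply small_gap 4 (by omega) (by omega) F hanti
    intro A hA B hB hAB
    have h1 := hd A hA B hB
    have h2 := hbal A B
    omega
  | succ n hn ih =>
    intro F hanti hd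
    by_cases hsmall : n + 1 ≤ 11
    · apply small_gap 4 (by omega) (by omega) F hanti
      intro A hA B hB hAB
      have h1 := hd A hA B hB
      have h2 := hbal A B
      omega
    · have hch : n.choose 4 + 1 ≤ (n + 1).choose 4 := by
        rw [Nat.choose_succ_succ' n 3]
        have : 0 < n.choose 3 := Nat.choose_pos (by omega)
        have e : n.choose (3 + 1) = n.choose 4 := rfl
        omega
      have hsing : ∀ G : Finset (Finset (Fin (n + 1))), (∀ A ∈ G, ∀ B ∈ G, A ⊆ B → A = B) →
          (∀ A ∈ G, ∀ B ∈ G, (A \ B).card + (B \ A).card ≤ 8) → (∃ A ∈ G, A.card = 1) →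
          G.card ≤ (n + 1).choose 4 := by
        intro G hG1 hG2 ⟨A, hA, hA1⟩
        obtain ⟨x, rfl⟩ := card_eq_one.1 hA1
        exact (single_red 8 (n.choose 4) G x hA hG1 hG2 ih).trans hch
      by_cases h1 : ∃ A ∈ F, A.card = 1
      · exact hsing F hanti hd h1
      · obtain ⟨G, hGc, hGm, hG1, hG2⟩ := compl_fam 8 F hanti hd
        by_cases h2 : ∃ A ∈ F, A.card = n
        · rw [← hGc]
          apply hsing G hG1 hG2
          obtain ⟨A, hA, hAn⟩ := h2
          refine ⟨Aᶜ, (hGm _).2 (by rwa [compl_compl]), ?_⟩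
          rw [card_compl']
          omega
        · by_cases hE : ∅ ∈ F ∨ univ ∈ F
          · refine (card_one F hanti hE).trans (Nat.choose_pos (by omega))
          · push Not at hE
            apply diam8_mid (by omega) F hanti hd
            intro A hA
            have e1 : A.card ≠ 1 := fun h => h1 ⟨A, hA, h⟩
            have e2 : A.card ≠ n := fun h => h2 ⟨A, hA, h⟩
            have e3 : A.card ≠ 0 := by
              rw [Ne, card_eq_zero]
              intro h
              exact hE.1 (h ▸ hA)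
            have e4 : A.card ≠ n + 1 := by
              intro h
              apply hE.2
              have : A = univ := by
                rw [← card_eq_iff_eq_univ, Fintype.card_fin]; exact h
              exact this ▸ hA
            have e5 := card_le_n A
            omega

end Pool.Agent.H66.AD
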