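import Pool.Graph.R_seed8.Helper153.FrkL
set_option autoImplicit false
open Finset

/-! Antichains of bounded diameter: residue classes of sizes. -/

namespace Pool.Agent.H66.AE

variable {n : ℕ}

theorem card_le_n (A : Finset (Fin n)) : A.card ≤ n := by
  have := card_le_univ A
  rwa [Fintype.card_fin] at this

theorem fib (F : Finset (Finset (Fin n))) (z : Finset (Fin n) → ℝ) (c : ℕ → ℕ → ℝ) :
    ∑ A ∈ F, ∑ B ∈ F, z A * z B * c A.card B.card =
      ∑ a ∈ range (n + 1), ∑ b ∈ range (n + 1),
        c a b * ((∑ A ∈ F with A.card = a, z A) * (∑ B ∈ F with B.card = b, z B)) := by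
  classical
  have hm : ∀ A ∈ F, A.card ∈ range (n + 1) := fun A _ => by
    rw [mem_range]; have := card_le_n A; omega
  rw [← sum_fiberwise_of_maps_to (t := range (n + 1)) (g := card) hm
    (fun A => ∑ B ∈ F, z A * z B * c A.card B.card)]
  apply sum_congr rfl
  intro a _
  have e1 : ∀ A ∈ F.filter (fun A => A.card = a), ∑ B ∈ F, z A * z B * c A.card B.card =
      ∑ b ∈ range (n + 1), ∑ B ∈ F with B.card = b, z A * z B * c a b := by
    intro A hA
    rw [mem_filter] at hA
    rw [← sum_fiberwise_of_maps_to (t := range (n + 1)) (g := card) hm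
      (fun B => z A * z B * c A.card B.card)]
    apply sum_congr rfl
    intro b _
    apply sum_congr rfl
    intro B hB
    rw [mem_filter] at hB
    rw [hA.2, hB.2]
  rw [sum_congr rfl e1, sum_comm]
  apply sum_congr rfl
  intro b _
  rw [sum_mul_sum, mul_sum]
  apply sum_congr rfl
  intro A _
  rw [mul_sum]
  apply sum_congr rfl
  intro B _
  ring

/-- the sum over the members of size `s` containing `S` -/
noncomputable def Y (F : Finset (Finset (Fin n))) (y : Finset (Fin n) → ℝ) (S : Finset (Fin n))
    (s : ℕ) : ℝ := ∑ A ∈ F with (S ⊆ A ∧ A.card = s), y A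

theorem level (F : Finset (Finset (Fin n))) (y : Finset (Fin n) → ℝ) (c : ℕ → ℕ → ℝ) (i : ℕ) :
    ∑ A ∈ F, ∑ B ∈ F, y A * y B * (c A.card B.card * ((A ∩ B).card.choose i : ℝ)) =
      ∑ S ∈ powersetCard i (univ : Finset (Fin n)), ∑ a ∈ range (n + 1), ∑ b ∈ range (n + 1),
        c a b * (Y F y S a * Y F y S b) := by
  classical
  have e1 : ∀ A ∈ F, ∀ B ∈ F, y A * y B * (c A.card B.card * ((A ∩ B).card.choose i : ℝ)) =
      ∑ S ∈ powersetCard i (univ : Finset (Fin n)),
        ((if S ⊆ A then (1 : ℝ) else 0) * y A) * ((if S ⊆ B then (1 : ℝ) else 0) * y B) *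
          c A.card B.card := by
    intro A _ B _
    rw [FrB.lemB n i A B, mul_sum, mul_sum]
    apply sum_congr rfl
    intro S _
    ring
  rw [sum_congr rfl fun A hA => sum_congr rfl fun B hB => e1 A hA B hB]
  rw [sum_congr rfl fun A hA => sum_comm, sum_comm]
  apply sum_congr rfl
  intro S _
  rw [fib F (fun A => (if S ⊆ A then (1 : ℝ) else 0) * y A) c]
  have e2 : ∀ s, ∑ A ∈ F with A.card = s, (if S ⊆ A then (1 : ℝ) else 0) * y A = Y F y S s := by
    intro s
    unfold Y
    rw [sum_filter, sum_filter]
    apply sum_congr rfl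
    intro A _
    by_cases h1 : A.card = s
    · by_cases h2 : S ⊆ A
      · rw [if_pos h1, if_pos h2, if_pos ⟨h2, h1⟩, one_mul]
      · rw [if_pos h1, if_neg h2, if_neg (fun h => h2 h.1), zero_mul]
    · rw [if_neg h1, if_neg (fun h => h1 h.2)]
  simp only [e2]

theorem sizes_vanish (r ε : ℕ) (hε : ε ≤ 1) (F : Finset (Finset (Fin n)))
    (hsize : ∀ A ∈ F, r + 1 ≤ A.card)
    (hanti : ∀ A ∈ F, ∀ B ∈ F, A ⊆ B → A = B)
    (hd : ∀ A ∈ F, ∀ B ∈ F, (A \ B).card + (B \ A).card ≤ 2 * r + ε)
    (y : Finset (Fin n) → ℝ)
    (hy : ∀ l, 2 ≤ l → l ≤ r → ∀ S : Finset (Fin n), S.card = r - l → ∀ j < 2 * l - 1 + ε,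
      ∑ A ∈ F with (S ⊆ A ∧ A.card % (2 * l - 1 + ε) = j), y A = 0) :
    ∀ m, m + 2 ≤ r → ∀ S : Finset (Fin n), S.card = m → ∀ s, Y F y S s = 0 := by
  classical
  intro m
  induction m using Nat.strong_induction_on with
  | _ m ih =>
    intro hm
    obtain ⟨l, hl⟩ : ∃ l, l = r - m := ⟨_, rfl⟩
    obtain ⟨M, hM⟩ : ∃ M, M = 2 * l - 1 + ε := ⟨_, rfl⟩
    have hMpos : 0 < M := by omega
    have hyM : ∀ S : Finset (Fin n), S.card = m → ∀ j < M,
        ∑ A ∈ F with (S ⊆ A ∧ A.card % M = j), y A = 0 := by
      intro S hS j hj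
      rw [hM] at hj ⊢
      exact hy l (by omega) (by omega) S (by omega) j hj
    set ind : ℕ → ℕ → ℝ := fun a b => if (a ≠ b ∧ a % M = b % M) then 1 else 0 with hind
    have hker : ∀ A ∈ F, ∀ B ∈ F, ind A.card B.card * ∑ i ∈ range (m + 1),
        (-1 : ℝ) ^ (m - i) * ((min A.card B.card - i - 1).choose (m - i) : ℝ) *
          ((A ∩ B).card.choose i : ℝ) = 0 := by
      intro A hA B hB
      by_cases hc : A.card ≠ B.card ∧ A.card % M = B.card % M
      · have cI : (A ∩ B).card + (A \ B).card = A.card := by
          rw [add_comm]; exact card_sdiff_add_card_inter A B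
        have cI2 : (A ∩ B).card + (B \ A).card = B.card := by
          rw [add_comm, inter_comm]; exact card_sdiff_add_card_inter B A
        have h1 := hd A hA B hB
        have p1 : 1 ≤ (A \ B).card := by
          rw [Nat.one_le_iff_ne_zero, Ne, card_eq_zero, sdiff_eq_empty_iff_subset]
          intro h
          exact hc.1 (by rw [hanti A hA B hB h])
        have p2 : 1 ≤ (B \ A).card := by
          rw [Nat.one_le_iff_ne_zero, Ne, card_eq_zero, sdiff_eq_empty_iff_subset]
          intro h
          exact hc.1 (by rw [hanti B hB A hA h])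
        have s1 := hsize A hA
        have s2 := hsize B hB
        have hdist : A.card + M ≤ B.card ∨ B.card + M ≤ A.card := by
          rcases lt_or_gt_of_ne hc.1 with h | h
          · left
            have h3 : (B.card - A.card) % M = 0 := by
              have := (Nat.modEq_iff_dvd' h.le).1 hc.2
              exact Nat.mod_eq_zero_of_dvd this
            have h4 := Nat.le_of_dvd (by omega) (Nat.dvd_of_mod_eq_zero h3)
            omega
          · right
            have h3 : (A.card - B.card) % M = 0 := by
              have := (Nat.modEq_iff_dvd' h.le).1 hc.2.symm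
              exact Nat.mod_eq_zero_of_dvd this
            have h4 := Nat.le_of_dvd (by omega) (Nat.dvd_of_mod_eq_zero h3)
            omega
        have hk := FrA.kernel_id m (min A.card B.card) (A ∩ B).card (by omega) (by omega) (by omega)
        rw [hk, if_neg (by omega), mul_zero]
      · show (if _ then _ else _) * _ = _
        rw [if_neg hc, zero_mul]
    -- the level forms
    have hE : ∑ i ∈ range (m + 1), (-1 : ℝ) ^ (m - i) *
        ∑ S ∈ powersetCard i (univ : Finset (Fin n)), ∑ a ∈ range (n + 1), ∑ b ∈ range (n + 1),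
          (ind a b * ((min a b - i - 1).choose (m - i) : ℝ)) * (Y F y S a * Y F y S b) = 0 := by
      have e1 : ∀ i ∈ range (m + 1), (-1 : ℝ) ^ (m - i) *
          ∑ S ∈ powersetCard i (univ : Finset (Fin n)), ∑ a ∈ range (n + 1), ∑ b ∈ range (n + 1),
            (ind a b * ((min a b - i - 1).choose (m - i) : ℝ)) * (Y F y S a * Y F y S b) =
          ∑ A ∈ F, ∑ B ∈ F, y A * y B * (ind A.card B.card * ((-1 : ℝ) ^ (m - i) *
            ((min A.card B.card - i - 1).choose (m - i) : ℝ) * ((A ∩ B).card.choose i : ℝ))) := by
        intro i _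
        rw [← level F y (fun a b => ind a b * ((min a b - i - 1).choose (m - i) : ℝ)) i, mul_sum]
        apply sum_congr rfl
        intro A _
        rw [mul_sum]
        apply sum_congr rfl
        intro B _
        ring
      rw [sum_congr rfl e1, sum_comm]
      apply sum_eq_zero
      intro A hA
      rw [sum_comm]
      apply sum_eq_zero
      intro B hB
      rw [← mul_sum, ← mul_sum, hker A hA B hB, mul_zero]
    rw [sum_range_succ] at hE
    have hlow : ∑ i ∈ range m, (-1 : ℝ) ^ (m - i) *
        ∑ S ∈ powersetCard i (univ : Finset (Fin n)), ∑ a ∈ range (n + 1), ∑ b ∈ range (n + 1),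
          (ind a b * ((min a b - i - 1).choose (m - i) : ℝ)) * (Y F y S a * Y F y S b) = 0 := by
      apply sum_eq_zero
      intro i hi
      rw [mem_range] at hi
      have : ∑ S ∈ powersetCard i (univ : Finset (Fin n)), ∑ a ∈ range (n + 1),
          ∑ b ∈ range (n + 1),
          (ind a b * ((min a b - i - 1).choose (m - i) : ℝ)) * (Y F y S a * Y F y S b) = 0 := by
        apply sum_eq_zero
        intro S hS
        rw [mem_powersetCard] at hS
        apply sum_eq_zero
        intro a _
        apply sum_eq_zero
        intro b _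
        rw [ih i hi (by omega) S hS.2 a, zero_mul, mul_zero]
      rw [this, mul_zero]
    rw [hlow, zero_add, Nat.sub_self, pow_zero, one_mul] at hE
    have hres : ∀ S : Finset (Fin n), S.card = m → ∀ a ∈ range (n + 1),
        ∑ b ∈ range (n + 1), ind a b * Y F y S b = - Y F y S a := by
      intro S hS a ha
      have e1 : ∑ b ∈ range (n + 1), (if a % M = b % M then (1 : ℝ) else 0) * Y F y S b = 0 := by
        refine Eq.trans ?_ (hyM S hS (a % M) (Nat.mod_lt _ hMpos))
        have hm' : ∀ A ∈ F.filter (fun A => S ⊆ A ∧ A.card % M = a % M), A.card ∈ range (n + 1) :=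
          fun A _ => by rw [mem_range]; have := card_le_n A; omega
        rw [← sum_fiberwise_of_maps_to (t := range (n + 1)) (g := card) hm' y]
        apply sum_congr rfl
        intro b _
        unfold Y
        rw [filter_filter]
        by_cases hab : a % M = b % M
        · rw [if_pos hab, one_mul]
          apply sum_congr _ (fun _ _ => rfl)
          ext A
          simp only [mem_filter]
          constructor
          · rintro ⟨h1, h2, h3⟩
            exact ⟨h1, ⟨h2, by rw [h3, hab]⟩, h3⟩
          · rintro ⟨h1, ⟨h2, _⟩, h3⟩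
            exact ⟨h1, h2, h3⟩
        · rw [if_neg hab, zero_mul]
          symm
          apply sum_eq_zero
          intro A hA
          rw [mem_filter] at hA
          exfalso
          apply hab
          rw [← hA.2.1.2, hA.2.2]
      have e2 : ∑ b ∈ range (n + 1), (if a % M = b % M then (1 : ℝ) else 0) * Y F y S b =
          ∑ b ∈ range (n + 1), ind a b * Y F y S b + Y F y S a := by
        have e3 : Y F y S a = ∑ b ∈ range (n + 1), if b = a then Y F y S b else 0 := by
          rw [sum_ite_eq' (range (n + 1)) a, if_pos ha]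
        rw [e3, ← sum_add_distrib]
        apply sum_congr rfl
        intro b _
        show _ = (if _ then _ else _) * _ + _
        by_cases hab : a = b
        · subst hab
          rw [if_pos rfl, if_neg (fun h => h.1 rfl), if_pos rfl]; ring
        · rw [if_neg (show ¬ b = a from fun h => hab h.symm)]
          by_cases h2 : a % M = b % M
          · rw [if_pos h2, if_pos ⟨hab, h2⟩]; ring
          · rw [if_neg h2, if_neg (fun h => h2 h.2)]; ring
      linarith
    have hsq : ∑ S ∈ powersetCard m (univ : Finset (Fin n)), ∑ a ∈ range (n + 1),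
        (Y F y S a) ^ 2 = 0 := by
      have e1 : ∑ S ∈ powersetCard m (univ : Finset (Fin n)), ∑ a ∈ range (n + 1),
          ∑ b ∈ range (n + 1),
          (ind a b * ((min a b - m - 1).choose 0 : ℝ)) * (Y F y S a * Y F y S b) =
          - ∑ S ∈ powersetCard m (univ : Finset (Fin n)), ∑ a ∈ range (n + 1), (Y F y S a) ^ 2 := by
        rw [← sum_neg_distrib]
        apply sum_congr rfl
        intro S hS
        rw [mem_powersetCard] at hS
        rw [← sum_neg_distrib]
        apply sum_congr rfl
        intro a ha
        have e2 : ∀ b ∈ range (n + 1), (ind a b * ((min a b - m - 1).choose 0 : ℝ)) *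
            (Y F y S a * Y F y S b) = Y F y S a * (ind a b * Y F y S b) := by
          intro b _
          rw [Nat.choose_zero_right]
          push_cast
          ring
        rw [sum_congr rfl e2, ← mul_sum, hres S hS.2 a ha]
        ring
      rw [e1] at hE
      linarith
    intro S hS s
    rw [sum_eq_zero_iff_of_nonneg (fun S _ => sum_nonneg fun a _ => sq_nonneg _)] at hsq
    have h1 := hsq S (mem_powersetCard.2 ⟨subset_univ _, hS⟩)
    rw [sum_eq_zero_iff_of_nonneg (fun a _ => sq_nonneg _)] at h1
    by_cases hs : s ∈ range (n + 1)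
    · exact pow_eq_zero_iff (two_ne_zero) |>.1 (h1 s hs)
    · unfold Y
      apply sum_eq_zero
      intro A hA
      rw [mem_filter] at hA
      exfalso
      apply hs
      rw [mem_range, ← hA.2.2]
      have := card_le_n A
      omega

end Pool.Agent.H66.AE
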