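import Pool.Agent.H66.AE1
set_option autoImplicit false
open Finset

/-! Antichains of bounded diameter: the size bound. -/

namespace Pool.Agent.H66.AE

open FrE FrD2 FrB

theorem size_bound (n r h ε : ℕ) (hε : ε ≤ 1) (hr : 1 ≤ r) (F : Finset (Finset (Fin n)))
    (hsize : ∀ A ∈ F, r + 1 ≤ A.card ∧ A.card ≤ r + h)
    (hanti : ∀ A ∈ F, ∀ B ∈ F, A ⊆ B → A = B)
    (hd : ∀ A ∈ F, ∀ B ∈ F, (A \ B).card + (B \ A).card ≤ 2 * r + ε)
    (D : Finset (Finset (Fin n))) (hD : ∀ T ∈ D, T.card = r)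
    (hDF : ∀ T ∈ D, ∀ A ∈ F, ¬ T ⊆ A)
    (τ : ℝ) (hτ : 0 < τ) (hcτ : ((h : ℝ) + 3) + τ ≤ (n : ℝ) - 2 * r + 2) :
    (F.card : ℝ) + n.choose (r - 1) ≤ n.choose r - D.card + r * D.card / τ +
      ∑ l ∈ Finset.Icc 2 r, ((2 * l - 1 + ε : ℕ) : ℝ) * (n.choose (r - l) : ℝ) := by
  classical
  have hedge : ∀ A ∈ F, ∀ B ∈ F, A ≠ B → A.card ≤ B.card →
      1 ≤ (A \ B).card ∧ (A \ B).card ≤ r := by
    intro A hA B hB hne hcard
    have h1 := hd A hA B hB
    have h2 := FrL.sdiff_card_eq A B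
    refine ⟨?_, by omega⟩
    rw [Nat.one_le_iff_ne_zero, Ne, card_eq_zero, sdiff_eq_empty_iff_subset]
    intro h
    exact hne (hanti A hA B hB h)
  -- extension by zero
  let ex : (F → ℝ) →ₗ[ℝ] (Finset (Fin n) → ℝ) :=
    { toFun := fun y A => if hA : A ∈ F then y ⟨A, hA⟩ else 0
      map_add' := by
        intro y z
        funext A
        by_cases hA : A ∈ F
        · simp [hA]
        · simp [hA]
      map_smul' := by
        intro a y
        funext A
        by_cases hA : A ∈ F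
        · simp [hA]
        · simp [hA] }
  have hex : ∀ (y : F → ℝ) (A : F), ex y A = y A := by
    intro y A
    simp [ex]
  let J : Finset (Σ _ : ℕ, ℕ × Finset (Fin n)) :=
    (Icc 2 r).sigma fun l => range (2 * l - 1 + ε) ×ˢ (univ : Finset (Fin n)).powersetCard (r - l)
  have hJ : (J.card : ℝ) = ∑ l ∈ Finset.Icc 2 r, ((2 * l - 1 + ε : ℕ) : ℝ) *
      (n.choose (r - l) : ℝ) := by
    rw [card_sigma, Nat.cast_sum]
    refine sum_congr rfl fun l _ => ?_
    rw [card_product, card_range, card_powersetCard, card_univ, Fintype.card_fin, Nat.cast_mul]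
  let Φ : (F → ℝ) →ₗ[ℝ] (J → ℝ) :=
    { toFun := fun y j => ∑ A ∈ F with (j.1.2.2 ⊆ A ∧ A.card % (2 * j.1.1 - 1 + ε) = j.1.2.1), ex y A
      map_add' := by
        intro y z
        funext j
        simp only [map_add, Pi.add_apply, sum_add_distrib]
      map_smul' := by
        intro a y
        funext j
        simp only [map_smul, Pi.smul_apply, smul_eq_mul, RingHom.id_apply, mul_sum] }
  have hΦ : ∀ y j, Φ y j =
    ∑ A ∈ F with (j.1.2.2 ⊆ A ∧ A.card % (2 * j.1.1 - 1 + ε) = j.1.2.1), ex y A := fun y j => rfl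
  let Ψ : (F → ℝ) →ₗ[ℝ] (Finset (Fin n) → ℝ) :=
    { toFun := fun y T => if T.card = r then ∑ A ∈ F with T ⊆ A, ex y A else 0
      map_add' := by
        intro y z
        funext T
        simp only [map_add, Pi.add_apply, sum_add_distrib]
        split_ifs <;> simp
      map_smul' := by
        intro a y
        funext T
        simp only [map_smul, Pi.smul_apply, smul_eq_mul, RingHom.id_apply, ← mul_sum]
        split_ifs <;> simp }
  have hΨ : ∀ y T, Ψ y T = if T.card = r then ∑ A ∈ F with T ⊆ A, ex y A else 0 := fun y T => rfl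
  have hform : ∀ y ∈ LinearMap.ker Φ, ((h : ℝ) + 3) * ∑ A ∈ F, (ex y A) ^ 2 +
      ∑ S ∈ (univ : Finset (Fin n)).powersetCard (r - 1),
        (∑ A ∈ F with S ⊆ A, ((A.card : ℝ) - r + 1) * ex y A) ^ 2 ≤
      ((h : ℝ) + 3) * ∑ T ∈ (univ : Finset (Fin n)).powersetCard r,
        (∑ A ∈ F with T ⊆ A, ex y A) ^ 2 := by
    intro y hy
    apply form_bound n r h hr F hsize hedge
    intro l hl1 hl2 s S hS
    have hv := sizes_vanish r ε hε F (fun A hA => (hsize A hA).1) hanti hd (ex y) ?_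
      (r - 2 * l) (by omega) S hS s
    · exact hv
    · intro l' hl'1 hl'2 S' hS' j hj
      have hmem : (⟨l', (j, S')⟩ : Σ _ : ℕ, ℕ × Finset (Fin n)) ∈ J := by
        simp only [J, mem_sigma, mem_product, mem_Icc, mem_powersetCard, mem_range]
        exact ⟨⟨hl'1, hl'2⟩, hj, subset_univ _, hS'⟩
      have h1 := congrFun (LinearMap.mem_ker.mp hy) ⟨_, hmem⟩
      rw [hΦ] at h1
      exact h1
  have hΨr : ∀ y, ∑ T ∈ (univ : Finset (Fin n)).powersetCard r, (Ψ y T) ^ 2 =
      ∑ T ∈ (univ : Finset (Fin n)).powersetCard r, (∑ A ∈ F with T ⊆ A, ex y A) ^ 2 := by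
    intro y
    refine sum_congr rfl fun T hT => ?_
    rw [hΨ, if_pos (mem_powersetCard.mp hT).2]
  have hΨW : ∀ y, ∑ S ∈ (univ : Finset (Fin n)).powersetCard (r - 1),
        (∑ T ∈ (univ : Finset (Fin n)).powersetCard r with S ⊆ T, Ψ y T) ^ 2 =
      ∑ S ∈ (univ : Finset (Fin n)).powersetCard (r - 1),
        (∑ A ∈ F with S ⊆ A, ((A.card : ℝ) - r + 1) * ex y A) ^ 2 := by
    intro y
    refine sum_congr rfl fun S hS => ?_
    rw [← double_count n r hr F (fun A hA => (hsize A hA).1) (ex y) S (mem_powersetCard.mp hS).2]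
    congr 1
    refine sum_congr rfl fun T hT => ?_
    rw [mem_filter] at hT
    rw [hΨ, if_pos (mem_powersetCard.mp hT.1).2]
  have hsq : ∀ y : F → ℝ, ∑ A ∈ F, (ex y A) ^ 2 = 0 → y = 0 := by
    intro y hy
    rw [sum_eq_zero_iff_of_nonneg (fun A _ => sq_nonneg _)] at hy
    funext A
    have h1 := hy A.1 A.2
    rw [hex] at h1
    exact pow_eq_zero_iff (two_ne_zero) |>.mp h1
  have hsq0 : ∀ y : F → ℝ, 0 ≤ ∑ A ∈ F, (ex y A) ^ 2 := fun y => sum_nonneg fun A _ => sq_nonneg _
  have hh3 : (0 : ℝ) < (h : ℝ) + 3 := by positivity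
  let ΨY := Ψ.domRestrict (LinearMap.ker Φ)
  have hinj : Function.Injective ΨY := by
    rw [← LinearMap.ker_eq_bot, LinearMap.ker_eq_bot']
    rintro ⟨y, hy⟩ h0
    have h0' : Ψ y = 0 := h0
    have h1 := hform y hy
    rw [← hΨr, h0'] at h1
    have h2 : ∑ T ∈ (univ : Finset (Fin n)).powersetCard r, ((0 : Finset (Fin n) → ℝ) T) ^ 2 = 0 := by
      apply sum_eq_zero
      intro T _
      simp
    rw [h2, mul_zero] at h1
    have h3 : 0 ≤ ∑ S ∈ (univ : Finset (Fin n)).powersetCard (r - 1),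
        (∑ A ∈ F with S ⊆ A, ((A.card : ℝ) - r + 1) * ex y A) ^ 2 :=
      sum_nonneg fun S _ => sq_nonneg _
    have h4 : ∑ A ∈ F, (ex y A) ^ 2 = 0 := by
      have h5 := hsq0 y
      have h6 : ((h : ℝ) + 3) * ∑ A ∈ F, (ex y A) ^ 2 = 0 :=
        le_antisymm (by linarith) (mul_nonneg hh3.le h5)
      rcases mul_eq_zero.mp h6 with h7 | h7
      · exact absurd h7 hh3.ne'
      · exact h7
    exact Subtype.ext (hsq y h4)
  have hdim := dim_bound n r hr D hD ((h : ℝ) + 3) τ hh3 hτ hcτ (LinearMap.range ΨY)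
    (by
      rintro _ ⟨⟨y, hy⟩, rfl⟩ T hT
      change Ψ y T = 0
      rw [hΨ]
      split_ifs with hTr
      · rcases hT with hT | hT
        · exact absurd hTr hT
        · apply sum_eq_zero
          intro A hA
          rw [mem_filter] at hA
          exact absurd hA.2 (hDF T hT A hA.1)
      · rfl)
    (by
      rintro _ ⟨⟨y, hy⟩, rfl⟩ hne
      change ∑ S ∈ (univ : Finset (Fin n)).powersetCard (r - 1),
        (∑ T ∈ (univ : Finset (Fin n)).powersetCard r with S ⊆ T, Ψ y T) ^ 2 <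
        ((h : ℝ) + 3) * ∑ T ∈ (univ : Finset (Fin n)).powersetCard r, (Ψ y T) ^ 2
      rw [hΨr, hΨW]
      have h1 := hform y hy
      have h2 : 0 < ∑ A ∈ F, (ex y A) ^ 2 := by
        rcases (hsq0 y).lt_or_eq with h3 | h3
        · exact h3
        · exfalso
          apply hne
          have h4 : y = 0 := hsq y h3.symm
          subst h4
          exact map_zero ΨY
      have h5 : 0 < ((h : ℝ) + 3) * ∑ A ∈ F, (ex y A) ^ 2 := mul_pos hh3 h2
      linarith)
  rw [LinearMap.finrank_range_of_inj hinj] at hdim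
  have hrk := Φ.finrank_range_add_finrank_ker
  have hle : Module.finrank ℝ (LinearMap.range Φ) ≤ J.card := by
    refine (Submodule.finrank_le _).trans ?_
    rw [Module.finrank_fintype_fun_eq_card, Fintype.card_coe]
  rw [Module.finrank_fintype_fun_eq_card, Fintype.card_coe] at hrk
  have hF : (F.card : ℝ) ≤ J.card + Module.finrank ℝ (LinearMap.ker Φ) := by
    rw [← hrk]
    push_cast
    have : (Module.finrank ℝ (LinearMap.range Φ) : ℝ) ≤ J.card := by exact_mod_cast hle
    linarith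
  rw [hJ] at hF
  linarith

end Pool.Agent.H66.AE
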