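import Pool.Agent.H66.AE2
set_option autoImplicit false
open Finset

/-! Antichains of bounded diameter: few members of extreme size. -/

namespace Pool.Agent.H66.AE

variable {n : ℕ}

theorem ch9 (n r j : ℕ) (hn : 10 * r ≤ n) (hj : j + 1 ≤ r) : 9 * n.choose j ≤ n.choose (j + 1) := by
  have h := Nat.choose_succ_right_eq n j
  have h1 : 9 * (j + 1) ≤ n - j := by omega
  have h2 : n.choose j * (9 * (j + 1)) ≤ n.choose (j + 1) * (j + 1) := by
    rw [h]; exact Nat.mul_le_mul_left _ h1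
  have h3 : (9 * n.choose j) * (j + 1) ≤ n.choose (j + 1) * (j + 1) := by
    calc (9 * n.choose j) * (j + 1) = n.choose j * (9 * (j + 1)) := by ring
      _ ≤ _ := h2
  exact Nat.le_of_mul_le_mul_right h3 (by omega)

theorem tail (n r : ℕ) (hn : 10 * r ≤ n) : ∀ d t : ℕ, t + d = r → 2 ≤ t →
    2 * ∑ l ∈ Icc t r, (2 * l) * n.choose (r - l) ≤ 5 * t * n.choose (r - t) := by
  intro d
  induction d with
  | zero =>
    intro t ht h2
    have : t = r := by omega
    subst this
    rw [Icc_self, sum_singleton, Nat.sub_self, Nat.choose_zero_right]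
    omega
  | succ d ih =>
    intro t ht h2
    have h1 := ih (t + 1) (by omega) (by omega)
    have h3 : Icc t r = insert t (Icc (t + 1) r) := by
      ext x; simp only [mem_Icc, mem_insert]; omega
    rw [h3, sum_insert (by simp), mul_add]
    have h4 := ch9 n r (r - (t + 1)) hn (by omega)
    have e : r - (t + 1) + 1 = r - t := by omega
    rw [e] at h4
    have h5 : 5 * (t + 1) * n.choose (r - (t + 1)) ≤ t * n.choose (r - t) := by
      calc 5 * (t + 1) * n.choose (r - (t + 1)) ≤ 9 * t * n.choose (r - (t + 1)) :=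
            Nat.mul_le_mul_right _ (by omega)
        _ = t * (9 * n.choose (r - (t + 1))) := by ring
        _ ≤ t * n.choose (r - t) := Nat.mul_le_mul_left _ h4
    calc 2 * ((2 * t) * n.choose (r - t)) + 2 * ∑ l ∈ Icc (t + 1) r, (2 * l) * n.choose (r - l)
        ≤ 2 * ((2 * t) * n.choose (r - t)) + 5 * (t + 1) * n.choose (r - (t + 1)) :=
          Nat.add_le_add_left h1 _
      _ ≤ 2 * ((2 * t) * n.choose (r - t)) + t * n.choose (r - t) := Nat.add_le_add_left h5 _
      _ = 5 * t * n.choose (r - t) := by ring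

theorem tail_real (n r ε : ℕ) (hε : ε ≤ 1) (hn : 10 * r ≤ n) (hr : 2 ≤ r) :
    ∑ l ∈ Icc 2 r, ((2 * l - 1 + ε : ℕ) : ℝ) * (n.choose (r - l) : ℝ) ≤ 5 * n.choose (r - 2) := by
  have h1 := tail n r hn (r - 2) 2 (by omega) le_rfl
  have h2 : ∑ l ∈ Icc 2 r, (2 * l - 1 + ε) * n.choose (r - l) ≤
      ∑ l ∈ Icc 2 r, (2 * l) * n.choose (r - l) := by
    apply sum_le_sum
    intro l hl
    rw [mem_Icc] at hl
    exact Nat.mul_le_mul_right _ (by omega)
  have h3 : ∑ l ∈ Icc 2 r, (2 * l - 1 + ε) * n.choose (r - l) ≤ 5 * n.choose (r - 2) := by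
    have : 5 * 2 * n.choose (r - 2) = 2 * (5 * n.choose (r - 2)) := by ring
    omega
  exact_mod_cast h3

theorem ratio (n r : ℕ) (hr : 1 ≤ r) (hn : r ≤ n) :
    (n.choose r : ℝ) * r = n.choose (r - 1) * ((n : ℝ) - r + 1) := by
  have h := Nat.choose_succ_right_eq n (r - 1)
  have e : r - 1 + 1 = r := by omega
  rw [e] at h
  have h2 : ((n.choose r * r : ℕ) : ℝ) = ((n.choose (r - 1) * (n - (r - 1)) : ℕ) : ℝ) := by rw [h]
  push_cast at h2
  rw [h2, Nat.cast_sub (by omega), Nat.cast_sub hr]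
  push_cast
  ring

theorem five (n r : ℕ) (hr : 1 ≤ r) (hn : 10 * r ≤ n) (ε : ℕ) (hε : ε ≤ 1) :
    (∑ l ∈ Icc 2 r, ((2 * l - 1 + ε : ℕ) : ℝ) * (n.choose (r - l) : ℝ)) * ((n : ℝ) - r) ≤
      5 * r * n.choose (r - 1) := by
  have hrR : (1 : ℝ) ≤ r := by exact_mod_cast hr
  have hnR : (10 : ℝ) * r ≤ n := by exact_mod_cast hn
  by_cases h2 : 2 ≤ r
  · have h1 := tail_real n r ε hε hn h2
    have h3 := ratio n (r - 1) (by omega) (by omega)
    have e : r - 1 - 1 = r - 2 := by omega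
    rw [e, Nat.cast_sub hr] at h3
    push_cast at h3
    have h4 : (0 : ℝ) ≤ n.choose (r - 2) := Nat.cast_nonneg _
    have h5 : (0 : ℝ) ≤ n.choose (r - 1) := Nat.cast_nonneg _
    have h6 : (0 : ℝ) ≤ (n : ℝ) - r := by linarith
    calc (∑ l ∈ Icc 2 r, ((2 * l - 1 + ε : ℕ) : ℝ) * (n.choose (r - l) : ℝ)) * ((n : ℝ) - r)
        ≤ (5 * n.choose (r - 2)) * ((n : ℝ) - r) := mul_le_mul_of_nonneg_right h1 h6
      _ ≤ 5 * (n.choose (r - 2) * ((n : ℝ) - (r - 1) + 1)) := by nlinarith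
      _ = 5 * (n.choose (r - 1) * ((r : ℝ) - 1)) := by rw [h3]
      _ ≤ _ := by nlinarith
  · have : r = 1 := by omega
    subst this
    have e : Icc 2 1 = (∅ : Finset ℕ) := by simp
    rw [e, sum_empty, zero_mul]
    positivity

/-- few members of size at most `r`, none of large size -/
theorem sparse_low (n r ε : ℕ) (hε : ε ≤ 1) (hr : 1 ≤ r) (hn : 10 * r ≤ n)
    (F : Finset (Finset (Fin n)))
    (hanti : ∀ A ∈ F, ∀ B ∈ F, A ⊆ B → A = B)
    (hd : ∀ A ∈ F, ∀ B ∈ F, (A \ B).card + (B \ A).card ≤ 2 * r + ε)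
    (hmax : ∀ A ∈ F, A.card + 1 ≤ 3 * r)
    (hlow : n * (F.filter (fun A => A.card ≤ r)).card ≤ (n - 9 * r) * n.choose r) :
    F.card ≤ n.choose r := by
  classical
  obtain ⟨D, hDc, hD⟩ := FrF.up_family n r (by omega) (F.filter (fun A => A.card ≤ r))
    (by
      intro A hA B hB hne hAB
      rw [mem_coe, mem_filter] at hA hB
      exact hne (hanti A hA.1 B hB.1 hAB))
    (by
      intro A hA
      exact (mem_filter.1 hA).2)
  have hrR : (1 : ℝ) ≤ r := by exact_mod_cast hr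
  have hnR : (10 : ℝ) * r ≤ n := by exact_mod_cast hn
  have key := size_bound n r (2 * r - 1) ε hε hr (F.filter (fun A => ¬ A.card ≤ r))
    (by
      intro A hA
      rw [mem_filter] at hA
      have := hmax A hA.1
      omega)
    (fun A hA B hB => hanti A (mem_filter.1 hA).1 B (mem_filter.1 hB).1)
    (fun A hA B hB => hd A (mem_filter.1 hA).1 B (mem_filter.1 hB).1)
    D (fun T hT => (hD T hT).1)
    (by
      intro T hT A hA hTA
      obtain ⟨B, hB, hBT⟩ := (hD T hT).2
      rw [mem_filter] at hA hB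
      have := hanti B hB.1 A hA.1 (hBT.trans hTA)
      rw [this] at hB
      exact hA.2 hB.2)
    ((n : ℝ) - 4 * r) (by linarith) (by
      rw [Nat.cast_sub (by omega)]
      push_cast
      linarith)
  have hsplit := card_filter_add_card_filter_not (s := F) (fun A => A.card ≤ r)
  have hc0 : (0 : ℝ) ≤ n.choose r := Nat.cast_nonneg _
  have hc1 : (0 : ℝ) ≤ n.choose (r - 1) := Nat.cast_nonneg _
  have hrat := ratio n r hr (by omega)
  have h5 := five n r hr hn ε hε
  obtain ⟨Sg, hSg⟩ : ∃ Sg, Sg = ∑ l ∈ Icc 2 r, ((2 * l - 1 + ε : ℕ) : ℝ) *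
    (n.choose (r - l) : ℝ) := ⟨_, rfl⟩
  rw [← hSg] at key h5
  have hlowR : (n : ℝ) * D.card ≤ ((n : ℝ) - 9 * r) * n.choose r := by
    rw [hDc]
    have h1 : ((n * (F.filter (fun A => A.card ≤ r)).card : ℕ) : ℝ) ≤
        (((n - 9 * r) * n.choose r : ℕ) : ℝ) := by exact_mod_cast hlow
    rw [Nat.cast_mul, Nat.cast_mul, Nat.cast_sub (by omega)] at h1
    push_cast at h1
    exact h1
  have hpos4 : (0 : ℝ) < (n : ℝ) - 4 * r := by linarith
  have hposn : (0 : ℝ) < n := by linarith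
  have hS0 : Sg * ((n : ℝ) - 4 * r) ≤ 5 * r * n.choose (r - 1) := by
    have hSnn : 0 ≤ Sg := by rw [hSg]; positivity
    nlinarith
  have hmain : (r : ℝ) * D.card / ((n : ℝ) - 4 * r) + Sg ≤ n.choose (r - 1) := by
    rw [div_add' _ _ _ hpos4.ne', div_le_iff₀ hpos4]
    -- `r * D + Sg * (n - 4 r) ≤ c1 * (n - 4 r)`
    have h1 : (r : ℝ) * D.card ≤ n.choose (r - 1) * ((n : ℝ) - 9 * r) := by
      have h2 : (n : ℝ) * (r * D.card) ≤ n * (n.choose (r - 1) * ((n : ℝ) - 9 * r)) := by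
        calc (n : ℝ) * (r * D.card) = r * (n * D.card) := by ring
          _ ≤ r * (((n : ℝ) - 9 * r) * n.choose r) :=
              mul_le_mul_of_nonneg_left hlowR (by linarith)
          _ = ((n : ℝ) - 9 * r) * (n.choose r * r) := by ring
          _ = ((n : ℝ) - 9 * r) * (n.choose (r - 1) * ((n : ℝ) - r + 1)) := by rw [hrat]
          _ ≤ ((n : ℝ) - 9 * r) * (n.choose (r - 1) * n) := by
              apply mul_le_mul_of_nonneg_left _ (by linarith)
              apply mul_le_mul_of_nonneg_left _ hc1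
              linarith
          _ = _ := by ring
      exact le_of_mul_le_mul_left h2 hposn
    linarith
  have hFR : (F.card : ℝ) ≤ n.choose r := by
    have h6 : (F.card : ℝ) = D.card + (F.filter (fun A => ¬ A.card ≤ r)).card := by
      rw [hDc]
      exact_mod_cast hsplit.symm
    linarith
  exact_mod_cast hFR

end Pool.Agent.H66.AE
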