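import Pool.Agent.H66.AE3
import Pool.Agent.H66.AD4
set_option autoImplicit false
open Finset

/-! Antichains of bounded diameter: the linear range. -/

namespace Pool.Agent.H66.AE

variable {n : ℕ}

theorem c_compl (A : Finset (Fin n)) : Aᶜ.card = n - A.card := by
  rw [card_compl, Fintype.card_fin]

/-- all sizes strictly between `r` and `n - r - 1` -/
theorem mid0 (n r ε : ℕ) (hε : ε ≤ 1) (hr : 1 ≤ r) (hn : 10 * r ≤ n)
    (F : Finset (Finset (Fin n)))
    (hanti : ∀ A ∈ F, ∀ B ∈ F, A ⊆ B → A = B)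
    (hd : ∀ A ∈ F, ∀ B ∈ F, (A \ B).card + (B \ A).card ≤ 2 * r + ε)
    (hsz : ∀ A ∈ F, r + 1 ≤ A.card ∧ A.card + r + 2 ≤ n) : F.card ≤ n.choose r := by
  classical
  have hrR : (1 : ℝ) ≤ r := by exact_mod_cast hr
  have hnR : (10 : ℝ) * r ≤ n := by exact_mod_cast hn
  have key := size_bound n r (n - 2 * r - 2) ε hε hr F
    (by
      intro A hA
      have := hsz A hA
      omega) hanti hd ∅ (by simp) (by simp) 1 one_pos (by
      rw [Nat.cast_sub (by omega), Nat.cast_sub (by omega)]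
      push_cast
      linarith)
  have h5 := five n r hr hn ε hε
  obtain ⟨Sg, hSg⟩ : ∃ Sg, Sg = ∑ l ∈ Icc 2 r, ((2 * l - 1 + ε : ℕ) : ℝ) *
    (n.choose (r - l) : ℝ) := ⟨_, rfl⟩
  rw [← hSg] at key h5
  simp only [card_empty, Nat.cast_zero, mul_zero, zero_div, sub_zero, add_zero] at key
  have hc1 : (0 : ℝ) ≤ n.choose (r - 1) := Nat.cast_nonneg _
  have h6 : Sg ≤ n.choose (r - 1) := by
    have h7 : Sg * ((n : ℝ) - r) ≤ n.choose (r - 1) * ((n : ℝ) - r) := by
      refine h5.trans ?_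
      nlinarith
    exact le_of_mul_le_mul_right h7 (by linarith)
  have : (F.card : ℝ) ≤ n.choose r := by linarith
  exact_mod_cast this

theorem mid (n r ε : ℕ) (hε : ε ≤ 1) (hr : 1 ≤ r) (hn : 10 * r ≤ n)
    (F : Finset (Finset (Fin n)))
    (hanti : ∀ A ∈ F, ∀ B ∈ F, A ⊆ B → A = B)
    (hd : ∀ A ∈ F, ∀ B ∈ F, (A \ B).card + (B \ A).card ≤ 2 * r + ε)
    (hsz : ∀ A ∈ F, r + 1 ≤ A.card ∧ A.card + r + 1 ≤ n) : F.card ≤ n.choose r := by
  classical
  by_cases h : ∀ A ∈ F, A.card + r + 2 ≤ n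
  · exact mid0 n r ε hε hr hn F hanti hd (fun A hA => ⟨(hsz A hA).1, h A hA⟩)
  · push Not at h
    obtain ⟨A0, hA0, hlt⟩ := h
    have hg := AD.gap (2 * r + ε) F hanti hd
    obtain ⟨G, hGc, hGm, hG1, hG2⟩ := AD.compl_fam (2 * r + ε) F hanti hd
    rw [← hGc]
    apply mid0 n r ε hε hr hn G hG1 hG2
    intro X hX
    rw [hGm] at hX
    have h1 := hsz _ hX
    have h2 := card_le_n X
    rw [c_compl] at h1
    rcases hg A0 hA0 _ hX with h3 | h3
    · rw [c_compl] at h3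
      omega
    · rw [h3, c_compl] at hlt
      omega

theorem filter_compl (F G : Finset (Finset (Fin n))) (r : ℕ) (hGm : ∀ X, X ∈ G ↔ Xᶜ ∈ F) :
    (G.filter (fun A => A.card ≤ r)).card = (F.filter (fun A => n ≤ A.card + r)).card := by
  classical
  apply card_nbij' (fun A => Aᶜ) (fun A => Aᶜ)
  · intro A hA
    simp only [coe_filter, Set.mem_setOf_eq] at hA ⊢
    rw [hGm] at hA
    refine ⟨hA.1, ?_⟩
    rw [c_compl]; have := card_le_n A; omega
  · intro A hA
    simp only [coe_filter, Set.mem_setOf_eq] at hA ⊢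
    rw [hGm, compl_compl]
    refine ⟨hA.1, ?_⟩
    rw [c_compl]; have := card_le_n A; omega
  · intro A _; exact compl_compl A
  · intro A _; exact compl_compl A

/-- reduction to families with a member of size at most `r` -/
theorem reduce (n r ε : ℕ) (hε : ε ≤ 1) (hr : 1 ≤ r) (hn : 10 * r ≤ n)
    (P : Finset (Finset (Fin n)) → Prop)
    (hP : ∀ G : Finset (Finset (Fin n)), (∀ A ∈ G, ∀ B ∈ G, A ⊆ B → A = B) →
      (∀ A ∈ G, ∀ B ∈ G, (A \ B).card + (B \ A).card ≤ 2 * r + ε) →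
      (∀ A ∈ G, A.card + 1 ≤ 3 * r) → P (G.filter (fun A => A.card ≤ r)) → G.card ≤ n.choose r)
    (F : Finset (Finset (Fin n)))
    (hanti : ∀ A ∈ F, ∀ B ∈ F, A ⊆ B → A = B)
    (hd : ∀ A ∈ F, ∀ B ∈ F, (A \ B).card + (B \ A).card ≤ 2 * r + ε)
    (hP1 : P (F.filter (fun A => A.card ≤ r)))
    (hP2 : ∀ G : Finset (Finset (Fin n)), (∀ X, X ∈ G ↔ Xᶜ ∈ F) →
      P (G.filter (fun A => A.card ≤ r))) : F.card ≤ n.choose r := by
  classical
  have hg := AD.gap (2 * r + ε) F hanti hd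
  by_cases h1 : ∃ A ∈ F, A.card ≤ r
  · obtain ⟨A0, hA0, h0⟩ := h1
    apply hP F hanti hd _ hP1
    intro B hB
    rcases hg B hB A0 hA0 with h3 | h3
    · omega
    · rw [h3]; omega
  · by_cases h2 : ∃ A ∈ F, n ≤ A.card + r
    · obtain ⟨A0, hA0, h0⟩ := h2
      obtain ⟨G, hGc, hGm, hG1, hG2⟩ := AD.compl_fam (2 * r + ε) F hanti hd
      rw [← hGc]
      apply hP G hG1 hG2 _ (hP2 G hGm)
      intro X hX
      rw [hGm] at hX
      have h4 := card_le_n X
      rcases hg A0 hA0 _ hX with h3 | h3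
      · rw [c_compl] at h3
        omega
      · rw [h3, c_compl] at h0
        omega
    · push Not at h1 h2
      apply mid n r ε hε hr hn F hanti hd
      intro A hA
      have := h1 A hA
      have := h2 A hA
      omega

theorem few_extreme (n r ε : ℕ) (hε : ε ≤ 1) (hr : 1 ≤ r) (hn : 10 * r ≤ n)
    (F : Finset (Finset (Fin n)))
    (hanti : ∀ A ∈ F, ∀ B ∈ F, A ⊆ B → A = B)
    (hd : ∀ A ∈ F, ∀ B ∈ F, (A \ B).card + (B \ A).card ≤ 2 * r + ε)
    (hlow : n * (F.filter (fun A => A.card ≤ r)).card ≤ (n - 9 * r) * n.choose r)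
    (hhigh : n * (F.filter (fun A => n ≤ A.card + r)).card ≤ (n - 9 * r) * n.choose r) :
    F.card ≤ n.choose r := by
  refine reduce n r ε hε hr hn (fun H => n * H.card ≤ (n - 9 * r) * n.choose r) ?_ F hanti hd
    hlow ?_
  · intro G h1 h2 h3 h4
    exact sparse_low n r ε hε hr hn G h1 h2 h3 h4
  · intro G hG
    show n * (G.filter (fun A => A.card ≤ r)).card ≤ _
    rw [filter_compl F G r hG]
    exact hhigh

end Pool.Agent.H66.AE
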