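import Pool.Agent.H66.AE4
import Mathlib.Combinatorics.SetFamily.KruskalKatona
import Mathlib.Combinatorics.SetFamily.LYM
set_option autoImplicit false
open Finset
open scoped FinsetFamily

/-! Antichains of bounded diameter: many members of size at most `r`. -/

namespace Pool.Agent.H66.AE

variable {n : ℕ}

theorem choose_mono_half' (n r q : ℕ) (hn : 2 * r ≤ n) (hq : q ≤ r) : n.choose q ≤ n.choose r :=
  FrF.choose_mono_half n r hn q hq

/-- LYM for two groups of levels -/
theorem lym (r : ℕ) (hr : 1 ≤ r) (hn : 2 * r ≤ n) (F : Finset (Finset (Fin n)))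
    (hanti : ∀ A ∈ F, ∀ B ∈ F, A ⊆ B → A = B) :
    ((F.filter (fun A => A.card < r)).card : ℝ) * n.choose r +
      (F.filter (fun A => A.card = r)).card * n.choose (r - 1) ≤
      n.choose (r - 1) * n.choose r := by
  classical
  have h1 := lubell_yamamoto_meshalkin_inequality_sum_inv_choose (𝕜 := ℝ) (𝒜 := F) (by
    intro A hA B hB hne hAB
    exact hne (hanti A (mem_coe.1 hA) B (mem_coe.1 hB) hAB))
  rw [Fintype.card_fin] at h1
  have hc0 : (0 : ℝ) < n.choose r := by exact_mod_cast Nat.choose_pos (by omega)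
  have hc1 : (0 : ℝ) < n.choose (r - 1) := by exact_mod_cast Nat.choose_pos (by omega)
  have h2 : ((F.filter (fun A => A.card < r)).card : ℝ) * (n.choose (r - 1) : ℝ)⁻¹ +
      (F.filter (fun A => A.card = r)).card * (n.choose r : ℝ)⁻¹ ≤ 1 := by
    refine le_trans ?_ h1
    rw [← nsmul_eq_mul, ← nsmul_eq_mul, ← sum_const, ← sum_const, sum_filter, sum_filter,
      ← sum_add_distrib]
    apply sum_le_sum
    intro A _
    rcases lt_trichotomy A.card r with h | h | h
    · rw [if_pos h, if_neg (by omega), add_zero]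
      apply inv_anti₀
      · exact_mod_cast Nat.choose_pos (card_le_n A)
      · exact_mod_cast choose_mono_half' n (r - 1) A.card (by omega) (by omega)
    · rw [if_neg (by omega), if_pos h, zero_add, h]
    · rw [if_neg (by omega), if_neg (by omega), add_zero]
      positivity
  have h3 := mul_le_mul_of_nonneg_right h2 (mul_pos hc1 hc0).le
  rw [one_mul] at h3
  refine le_trans (le_of_eq ?_) h3
  field_simp

/-- incidences of `r`-sets with a set -/
theorem inc (r : ℕ) (hr : 1 ≤ r) (hn : r ≤ n) (A : Finset (Fin n)) (H : Finset (Finset (Fin n)))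
    (hH : ∀ T ∈ H, T.card = r) :
    n * ∑ T ∈ H, (T ∩ A).card ≤ A.card * (r * n.choose r) := by
  classical
  have hn0 : 1 ≤ n := by omega
  have h1 : ∑ T ∈ H, (T ∩ A).card ≤ A.card * (n - 1).choose (r - 1) := by
    have e1 : ∀ T ∈ H, (T ∩ A).card = ∑ x ∈ A, if x ∈ T then 1 else 0 := by
      intro T _
      rw [inter_comm, card_eq_sum_ones, ← sum_filter]
      apply sum_congr _ (fun _ _ => rfl)
      ext x
      rw [mem_inter, mem_filter]
    rw [sum_congr rfl e1, sum_comm]
    calc ∑ x ∈ A, ∑ T ∈ H, (if x ∈ T then 1 else 0) ≤ ∑ x ∈ A, (n - 1).choose (r - 1) := by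
          apply sum_le_sum
          intro x _
          rw [← sum_filter, ← card_eq_sum_ones]
          have h2 := Pool.Agent.H173R2.AntiDiam.card_between ({x} : Finset (Fin n)) univ r
            (subset_univ _) (by rw [card_singleton]; exact hr)
          rw [card_singleton, card_univ, Fintype.card_fin] at h2
          rw [← h2]
          apply card_le_card
          intro T hT
          rw [mem_filter] at hT ⊢
          exact ⟨mem_univ _, hH T hT.1, singleton_subset_iff.2 hT.2, subset_univ _⟩
      _ = A.card * (n - 1).choose (r - 1) := by rw [sum_const, smul_eq_mul]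
  have h2 : n * (n - 1).choose (r - 1) = r * n.choose r := by
    have h3 := Nat.add_one_mul_choose_eq (n - 1) (r - 1)
    have e1 : n - 1 + 1 = n := by omega
    have e2 : r - 1 + 1 = r := by omega
    rw [e1, e2] at h3
    rw [h3, mul_comm]
  calc n * ∑ T ∈ H, (T ∩ A).card ≤ n * (A.card * (n - 1).choose (r - 1)) :=
        Nat.mul_le_mul_left _ h1
    _ = A.card * (n * (n - 1).choose (r - 1)) := by ring
    _ = A.card * (r * n.choose r) := by rw [h2]

/-- sum of the binomial coefficients below `r` -/
theorem sum_low (x r : ℕ) (hx : 3 * r ≤ x) : ∑ i ∈ range (r + 1), x.choose i ≤ 2 * x.choose r := by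
  induction r with
  | zero => simp
  | succ r ih =>
    rw [sum_range_succ]
    have h1 := ih (by omega)
    have h2 := Nat.choose_succ_right_eq x r
    have h3 : 2 * x.choose r ≤ x.choose (r + 1) := by
      have h4 : 2 * (r + 1) ≤ x - r := by omega
      have h5 : (2 * x.choose r) * (r + 1) ≤ x.choose (r + 1) * (r + 1) := by
        rw [h2]
        calc (2 * x.choose r) * (r + 1) = x.choose r * (2 * (r + 1)) := by ring
          _ ≤ _ := Nat.mul_le_mul_left _ h4
      exact Nat.le_of_mul_le_mul_right h5 (by omega)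
    omega

/-- the Kruskal–Katona step -/
theorem kk (r a x E : ℕ) (hra : r < a) (han : a + r ≤ n) (hx : x ≤ n) (hE : E < x.choose r)
    (G H : Finset (Finset (Fin n))) (hG : ∀ A ∈ G, A.card = a) (hH : ∀ T ∈ H, T.card = r)
    (hcr : ∀ T ∈ H, ∀ A ∈ G, (T \ A).card + (A \ T).card ≤ 2 * r)
    (hEH : n.choose r ≤ H.card + E) :
    G.card ≤ x.choose (n - a) := by
  classical
  set 𝒜 : Finset (Finset (Fin n)) := G.image (fun A => Aᶜ) with h𝒜
  have hcard : 𝒜.card = G.card := card_image_of_injective _ compl_injective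
  have hsz : (𝒜 : Set (Finset (Fin n))).Sized (n - a) := by
    intro B hB
    rw [mem_coe, h𝒜, mem_image] at hB
    obtain ⟨A, hA, rfl⟩ := hB
    rw [c_compl, hG A hA]
  have hsh : (∂^[n - a - r] 𝒜).card ≤ E := by
    have h1 : ∂^[n - a - r] 𝒜 ⊆ powersetCard r (univ : Finset (Fin n)) \ H := by
      intro T hT
      rw [mem_shadow_iterate_iff_exists_mem_card_add] at hT
      obtain ⟨B, hB, hTB, hc⟩ := hT
      rw [h𝒜, mem_image] at hB
      obtain ⟨A, hA, rfl⟩ := hB
      rw [c_compl, hG A hA] at hc
      rw [mem_sdiff, mem_powersetCard]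
      refine ⟨⟨subset_univ _, by omega⟩, ?_⟩
      intro hTH
      have h2 := hcr T hTH A hA
      have h3 : Disjoint T A := by
        rw [disjoint_left]
        intro y hy hyA
        exact (mem_compl.1 (hTB hy)) hyA
      rw [sdiff_eq_self_of_disjoint h3, sdiff_eq_self_of_disjoint h3.symm, hH T hTH, hG A hA] at h2
      omega
    have h2 := card_le_card h1
    rw [card_sdiff_of_subset, card_powersetCard, card_univ, Fintype.card_fin] at h2
    · omega
    · intro T hT
      rw [mem_powersetCard]
      exact ⟨subset_univ _, hH T hT⟩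
  by_contra hcon
  push Not at hcon
  have e1 : n - a - (n - a - r) = r := by omega
  by_cases hxa : n - a ≤ x
  · have h3 := kruskal_katona_lovasz_form (i := n - a - r) (by omega) hxa hx hsz
      (by rw [hcard]; exact hcon.le)
    rw [e1] at h3
    omega
  · have h3 := kruskal_katona_lovasz_form (i := n - a - r) (k := n - a) (by omega) le_rfl
      (by omega) hsz (by rw [hcard, Nat.choose_self]; omega)
    rw [e1] at h3
    have h4 : x.choose r ≤ (n - a).choose r := Nat.choose_le_choose r (by omega)
    omega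

/-- lower bound for a binomial coefficient -/
theorem bern (r J : ℕ) (hJ : J + 1 + r ≤ n) :
    (n.choose r : ℝ) * (1 - ((J : ℝ) + 1) * (r / ((n : ℝ) - J))) ≤ (n - (J + 1)).choose r := by
  have hnJ : (0 : ℝ) < (n : ℝ) - J := by
    have : ((J + 1 + r : ℕ) : ℝ) ≤ n := by exact_mod_cast hJ
    push_cast at this
    have : (0 : ℝ) ≤ r := Nat.cast_nonneg _
    linarith
  have hq : (r : ℝ) / ((n : ℝ) - J) ≤ 1 := by
    rw [div_le_one hnJ]
    have : ((J + 1 + r : ℕ) : ℝ) ≤ n := by exact_mod_cast hJ
    push_cast at this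
    linarith
  have h1 : ∀ m : ℕ, m ≤ J + 1 → (n.choose r : ℝ) * (1 - r / ((n : ℝ) - J)) ^ m ≤
      (n - m).choose r := by
    intro m
    induction m with
    | zero => intro _; simp
    | succ m ih =>
      intro hm
      have h2 := ih (by omega)
      rw [pow_succ, ← mul_assoc]
      have h3 : (0 : ℝ) ≤ 1 - r / ((n : ℝ) - J) := by linarith
      refine (mul_le_mul_of_nonneg_right h2 h3).trans ?_
      have h4 : ((n - m).choose r : ℝ) * ((n : ℝ) - m - r) = (n - (m + 1)).choose r * ((n : ℝ) - m) := by
        have h5 := Nat.choose_mul_succ_eq (n - (m + 1)) r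
        have e1 : n - (m + 1) + 1 = n - m := by omega
        rw [e1] at h5
        have h6 : (((n - (m + 1)).choose r * (n - m) : ℕ) : ℝ) =
            (((n - m).choose r * (n - m - r) : ℕ) : ℝ) := by rw [h5]
        rw [Nat.cast_mul, Nat.cast_mul, Nat.cast_sub (by omega), Nat.cast_sub (by omega),
          Nat.cast_sub (by omega)] at h6
        linarith
      have hpos : (0 : ℝ) < (n : ℝ) - m := by
        have : ((m + 1 : ℕ) : ℝ) ≤ n := by exact_mod_cast (by omega)
        push_cast at this
        linarith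
      have h7 : ((n - (m + 1)).choose r : ℝ) = (n - m).choose r * (1 - r / ((n : ℝ) - m)) := by
        field_simp
        linarith
      rw [h7]
      apply mul_le_mul_of_nonneg_left _ (Nat.cast_nonneg _)
      have h8 : (r : ℝ) / ((n : ℝ) - m) ≤ r / ((n : ℝ) - J) := by
        apply div_le_div_of_nonneg_left (Nat.cast_nonneg _) hnJ
        have : (m : ℝ) ≤ J := by exact_mod_cast (by omega)
        linarith
      linarith
  refine le_trans ?_ (h1 (J + 1) le_rfl)
  apply mul_le_mul_of_nonneg_left _ (Nat.cast_nonneg _)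
  have h9 := one_add_mul_le_pow (a := -((r : ℝ) / ((n : ℝ) - J))) (by linarith) (J + 1)
  push_cast at h9
  calc 1 - ((J : ℝ) + 1) * (r / ((n : ℝ) - J)) = 1 + ((J : ℝ) + 1) * -(r / ((n : ℝ) - J)) := by ring
    _ ≤ (1 + -(r / ((n : ℝ) - J))) ^ (J + 1) := h9
    _ = _ := by rw [← sub_eq_add_neg]

end Pool.Agent.H66.AE
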