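import Pool.Agent.H66.AE5
set_option autoImplicit false
open Finset

/-! Antichains of even diameter: many members of size at most `r`. -/

namespace Pool.Agent.H66.AE

variable {n : ℕ}

/-- numerical contradiction -/
theorem num1 (n r j J : ℝ) (hr : 1 ≤ r) (hj : 0 ≤ j) (hn : 24 * r ≤ n)
    (hn3 : 8 * r ^ 3 ≤ n ^ 2) (h1 : (n - 12 * r) * j ≤ 2 * r ^ 2) (hJj : J ≤ j)
    (h2 : (n - 10 * r) * (n - J) ≤ n * ((J + 1) * r)) : False := by
  have hn0 : 0 < n := by linarith
  have h3 : n * j ≤ 4 * r ^ 2 := by nlinarith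
  have h4 : (n - 10 * r) * (n - j) ≤ n * ((j + 1) * r) := by
    have h5 : (n - 10 * r) * (n - j) ≤ (n - 10 * r) * (n - J) :=
      mul_le_mul_of_nonneg_left (by linarith) (by linarith)
    have h6 : n * ((J + 1) * r) ≤ n * ((j + 1) * r) := by
      apply mul_le_mul_of_nonneg_left _ hn0.le
      apply mul_le_mul_of_nonneg_right _ (by linarith)
      linarith
    linarith
  have h7 : n * j * r ≤ 4 * r ^ 3 := by
    calc n * j * r ≤ 4 * r ^ 2 * r := mul_le_mul_of_nonneg_right h3 (by linarith)
      _ = 4 * r ^ 3 := by ring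
  have h8 : n * r ≤ n ^ 2 / 24 := by nlinarith
  have h9 : j ≤ n / 144 := by
    have h10 : n * j ≤ n * (n / 144) := by
      have : 4 * r ^ 2 ≤ n * (n / 144) := by nlinarith
      linarith
    exact le_of_mul_le_mul_left h10 hn0
  have h11 : (14 / 24 * n) * (143 / 144 * n) ≤ (n - 10 * r) * (n - j) := by
    apply mul_le_mul
    · linarith
    · linarith
    · positivity
    · linarith
  have h12 : n * ((j + 1) * r) = n * j * r + n * r := by ring
  nlinarith

theorem num2 (x r c e : ℝ) (hr : 1 ≤ r) (hx : 21 * r ≤ x) (hc : 0 ≤ c)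
    (h : e * x * r = c * (x - r + 1) * (x - r)) : 19 * c ≤ e := by
  have hx0 : 0 < x * r := mul_pos (by linarith) (by linarith)
  have h1 : 19 * (x * r) ≤ (x - r + 1) * (x - r) := by nlinarith
  have h2 : (19 * c) * (x * r) ≤ e * (x * r) := by
    calc (19 * c) * (x * r) = c * (19 * (x * r)) := by ring
      _ ≤ c * ((x - r + 1) * (x - r)) := mul_le_mul_of_nonneg_left h1 hc
      _ = e * x * r := by rw [h]; ring
      _ = e * (x * r) := by ring
  exact le_of_mul_le_mul_right h2 hx0

theorem dense_low (r : ℕ) (hr : 1 ≤ r) (hn : 24 * r ≤ n) (hn3 : 8 * r ^ 3 ≤ n ^ 2)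
    (F : Finset (Finset (Fin n)))
    (hanti : ∀ A ∈ F, ∀ B ∈ F, A ⊆ B → A = B)
    (hd : ∀ A ∈ F, ∀ B ∈ F, (A \ B).card + (B \ A).card ≤ 2 * r)
    (hmax : ∀ A ∈ F, A.card + 1 ≤ 3 * r)
    (hdense : (n - 9 * r) * n.choose r < n * (F.filter (fun A => A.card ≤ r)).card) :
    F.card ≤ n.choose r := by
  classical
  obtain ⟨Fl, hFl⟩ : ∃ Fl, Fl = F.filter (fun A => A.card < r) := ⟨_, rfl⟩
  obtain ⟨Fs, hFs⟩ : ∃ Fs, Fs = F.filter (fun A => A.card = r) := ⟨_, rfl⟩
  obtain ⟨G, hG⟩ : ∃ G, G = F.filter (fun A => ¬ A.card ≤ r) := ⟨_, rfl⟩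
  have hsp1 : (F.filter (fun A => A.card ≤ r)).card = Fl.card + Fs.card := by
    rw [hFl, hFs, ← card_union_of_disjoint]
    · congr 1
      ext A
      simp only [mem_union, mem_filter]
      constructor
      · rintro ⟨h1, h2⟩
        rcases h2.lt_or_eq with h3 | h3
        · exact Or.inl ⟨h1, h3⟩
        · exact Or.inr ⟨h1, h3⟩
      · rintro (⟨h1, h2⟩ | ⟨h1, h2⟩)
        · exact ⟨h1, h2.le⟩
        · exact ⟨h1, h2.le⟩
    · rw [disjoint_left]
      intro A hA hB
      rw [mem_filter] at hA hB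
      omega
  have hsp : Fl.card + Fs.card + G.card = F.card := by
    rw [← hsp1, hG]
    exact card_filter_add_card_filter_not (s := F) (fun A => A.card ≤ r)
  have hFsc : Fs.card ≤ n.choose r := by
    have h1 : Fs ⊆ powersetCard r (univ : Finset (Fin n)) := by
      intro T hT
      rw [hFs, mem_filter] at hT
      rw [mem_powersetCard]
      exact ⟨subset_univ _, hT.2⟩
    have := card_le_card h1
    rwa [card_powersetCard, card_univ, Fintype.card_fin] at this
  obtain ⟨E, hE⟩ : ∃ E, E = n.choose r - Fs.card := ⟨_, rfl⟩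
  have hES : Fs.card + E = n.choose r := by omega
  have hESR : (Fs.card : ℝ) + E = n.choose r := by exact_mod_cast hES
  have hrR : (1 : ℝ) ≤ r := by exact_mod_cast hr
  have hnR : (24 : ℝ) * r ≤ n := by exact_mod_cast hn
  have hn3R : (8 : ℝ) * (r : ℝ) ^ 3 ≤ (n : ℝ) ^ 2 := by exact_mod_cast hn3
  have hc0 : (0 : ℝ) < n.choose r := by exact_mod_cast Nat.choose_pos (by omega)
  have hc1 : (0 : ℝ) < n.choose (r - 1) := by exact_mod_cast Nat.choose_pos (by omega)
  have hly := lym r hr (by omega) F hanti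
  rw [← hFl, ← hFs] at hly
  have hrat := ratio n r hr (by omega)
  have ha : (Fl.card : ℝ) * ((n : ℝ) - r + 1) ≤ r * E := by
    have h1 : (Fl.card : ℝ) * n.choose r ≤ n.choose (r - 1) * E := by nlinarith
    have h2 : ((Fl.card : ℝ) * ((n : ℝ) - r + 1)) * n.choose (r - 1) ≤
        (r * E) * n.choose (r - 1) := by
      calc ((Fl.card : ℝ) * ((n : ℝ) - r + 1)) * n.choose (r - 1) =
          Fl.card * (n.choose (r - 1) * ((n : ℝ) - r + 1)) := by ring
        _ = Fl.card * (n.choose r * r) := by rw [hrat]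
        _ = (Fl.card * n.choose r) * r := by ring
        _ ≤ (n.choose (r - 1) * E) * r := mul_le_mul_of_nonneg_right h1 (by linarith)
        _ = _ := by ring
    exact le_of_mul_le_mul_right h2 hc1
  have hEnn : (0 : ℝ) ≤ E := Nat.cast_nonneg _
  have hFlnn : (0 : ℝ) ≤ Fl.card := Nat.cast_nonneg _
  have hb : 23 * (Fl.card : ℝ) ≤ E := by
    have h1 : (23 * (Fl.card : ℝ)) * r ≤ E * r := by nlinarith
    exact le_of_mul_le_mul_right h1 (by linarith)
  rcases G.eq_empty_or_nonempty with hG0 | hGne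
  · rw [hG0, card_empty] at hsp
    have h1 : (Fl.card : ℝ) ≤ E := by linarith
    have h2 : Fl.card ≤ E := by exact_mod_cast h1
    omega
  have hb' : (n : ℝ) * E ≤ 10 * r * n.choose r := by
    have h1 : (((n - 9 * r) * n.choose r : ℕ) : ℝ) <
        ((n * (F.filter (fun A => A.card ≤ r)).card : ℕ) : ℝ) := by exact_mod_cast hdense
    rw [hsp1] at h1
    rw [Nat.cast_mul, Nat.cast_mul, Nat.cast_sub (by omega)] at h1
    push_cast at h1
    have h2 : (Fs.card : ℝ) = n.choose r - E := by linarith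
    rw [h2] at h1
    have h3 : (n : ℝ) * (23 * Fl.card) ≤ n * E := mul_le_mul_of_nonneg_left hb (by linarith)
    nlinarith [mul_pos (show (0 : ℝ) < r by linarith) hc0]
  obtain ⟨A0, hA0, hA0max⟩ := exists_max_image G card hGne
  have hA0F := hA0
  rw [hG, mem_filter] at hA0F
  obtain ⟨j, hj⟩ : ∃ j, A0.card = r + j := ⟨A0.card - r, by omega⟩
  have hj1 : 1 ≤ j := by omega
  have h3r := hmax A0 hA0F.1
  -- the averaging step
  have hmark : ((n : ℝ) - 12 * r) * j ≤ 2 * (r : ℝ) ^ 2 := by
    have h1 := inc r hr (by omega) A0 Fs (fun T hT => by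
      rw [hFs, mem_filter] at hT
      exact hT.2)
    have h2 : Fs.card * j ≤ 2 * ∑ T ∈ Fs, (T ∩ A0).card := by
      rw [card_eq_sum_ones, sum_mul, mul_sum]
      apply sum_le_sum
      intro T hT
      rw [hFs, mem_filter] at hT
      have h3 := hd T hT.1 A0 hA0F.1
      have h4 := card_sdiff_add_card_inter T A0
      have h5 := card_sdiff_add_card_inter A0 T
      rw [inter_comm A0 T] at h5
      omega
    have h6 : n * (Fs.card * j) ≤ 2 * ((r + j) * (r * n.choose r)) := by
      rw [hj] at h1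
      calc n * (Fs.card * j) ≤ n * (2 * ∑ T ∈ Fs, (T ∩ A0).card) := Nat.mul_le_mul_left _ h2
        _ = 2 * (n * ∑ T ∈ Fs, (T ∩ A0).card) := by ring
        _ ≤ _ := Nat.mul_le_mul_left _ h1
    have h7 : (n : ℝ) * (Fs.card * j) ≤ 2 * ((r + j) * (r * n.choose r)) := by exact_mod_cast h6
    have h8 : (Fs.card : ℝ) = n.choose r - E := by linarith
    rw [h8] at h7
    have hjR : (0 : ℝ) ≤ j := Nat.cast_nonneg _
    have h9 : (((n : ℝ) - 10 * r) * j) * n.choose r ≤ (2 * ((r + j) * r)) * n.choose r := by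
      have h10 : (n : ℝ) * E * j ≤ 10 * r * n.choose r * j := mul_le_mul_of_nonneg_right hb' hjR
      nlinarith
    have h11 := le_of_mul_le_mul_right h9 hc0
    nlinarith
  -- the threshold
  have hex : ∃ x : ℕ, E < x.choose r := by
    refine ⟨n, ?_⟩
    have h1 : (n : ℝ) * E < n * n.choose r := by
      refine lt_of_le_of_lt hb' ?_
      apply mul_lt_mul_of_pos_right _ hc0
      linarith
    have h2 : (E : ℝ) < n.choose r := lt_of_mul_lt_mul_left h1 (by linarith)
    exact_mod_cast h2
  obtain ⟨x, hxdef⟩ : ∃ x : ℕ, x = Nat.find hex := ⟨_, rfl⟩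
  have hxE : E < x.choose r := by rw [hxdef]; exact Nat.find_spec hex
  have hxn : x ≤ n := by
    rw [hxdef]
    apply Nat.find_min' hex
    have h1 : (n : ℝ) * E < n * n.choose r := by
      refine lt_of_le_of_lt hb' ?_
      apply mul_lt_mul_of_pos_right _ hc0
      linarith
    have h2 : (E : ℝ) < n.choose r := lt_of_mul_lt_mul_left h1 (by linarith)
    exact_mod_cast h2
  have hx0 : 1 ≤ x := by
    by_contra h
    have : x = 0 := by omega
    rw [this, Nat.choose_eq_zero_of_lt (by omega)] at hxE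
    omega
  have hxm : (x - 1).choose r ≤ E := by
    have := Nat.find_min hex (m := x - 1) (by omega)
    omega
  have hkk : ∀ a, r < a → a ≤ r + j → (G.filter (fun A => A.card = a)).card ≤ x.choose (n - a) := by
    intro a h1 h2
    apply kk r a x E h1 (by omega) hxn hxE (G.filter (fun A => A.card = a)) Fs
    · intro A hA; exact (mem_filter.1 hA).2
    · intro T hT
      rw [hFs, mem_filter] at hT
      exact hT.2
    · intro T hT A hA
      rw [hFs, mem_filter] at hT
      rw [mem_filter, hG, mem_filter] at hA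
      exact hd T hT.1 A hA.1.1
    · omega
  obtain ⟨J, hJ⟩ : ∃ J, J = n - x := ⟨_, rfl⟩
  have hxa : n ≤ x + (r + j) := by
    have h1 := hkk (r + j) (by omega) le_rfl
    have h2 : 0 < (G.filter (fun A => A.card = r + j)).card := by
      rw [card_pos]
      exact ⟨A0, mem_filter.2 ⟨hA0, hj⟩⟩
    by_contra h
    rw [Nat.choose_eq_zero_of_lt (by omega)] at h1
    omega
  have hx21 : 21 * r ≤ x := by omega
  have hjJ : j + 1 ≤ J := by
    by_contra hcon
    have hJj : J ≤ j := by omega
    have h1 := bern (n := n) r J (by omega)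
    have e1 : n - (J + 1) = x - 1 := by omega
    rw [e1] at h1
    have h2 : ((x - 1).choose r : ℝ) ≤ E := by exact_mod_cast hxm
    have hnJ : (0 : ℝ) < (n : ℝ) - J := by
      have : ((J + 1 : ℕ) : ℝ) ≤ n := by exact_mod_cast (by omega)
      push_cast at this
      linarith
    have h3 : (n : ℝ) * (n.choose r * (1 - ((J : ℝ) + 1) * (r / ((n : ℝ) - J)))) ≤
        10 * r * n.choose r :=
      (mul_le_mul_of_nonneg_left (h1.trans h2) (by linarith)).trans hb'
    have h4 : ((n : ℝ) * (1 - ((J : ℝ) + 1) * (r / ((n : ℝ) - J)))) * n.choose r ≤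
        (10 * r) * n.choose r := by linarith
    have h5 := le_of_mul_le_mul_right h4 hc0
    have h6 : ((n : ℝ) * (1 - ((J : ℝ) + 1) * (r / ((n : ℝ) - J)))) * ((n : ℝ) - J) ≤
        (10 * r) * ((n : ℝ) - J) := mul_le_mul_of_nonneg_right h5 hnJ.le
    have h7 : ((n : ℝ) * (1 - ((J : ℝ) + 1) * (r / ((n : ℝ) - J)))) * ((n : ℝ) - J) =
        n * ((n : ℝ) - J) - n * (((J : ℝ) + 1) * r) := by
      field_simp
    rw [h7] at h6
    exact num1 n r j J hrR (Nat.cast_nonneg _) hnR hn3R hmark (by exact_mod_cast hJj) (by linarith)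
  -- the size of `G`
  have hGsum : G.card ≤ 2 * x.choose (r - 1) := by
    have h1 : G.card = ∑ a ∈ Icc (r + 1) (r + j), (G.filter (fun A => A.card = a)).card := by
      apply card_eq_sum_card_fiberwise
      intro A hA
      rw [mem_coe] at hA
      have h2 := hA0max A hA
      rw [hG, mem_filter] at hA
      rw [coe_Icc, Set.mem_Icc]
      omega
    have h2 : ∑ a ∈ Icc (r + 1) (r + j), (G.filter (fun A => A.card = a)).card ≤
        ∑ a ∈ Icc (r + 1) (r + j), if J ≤ a then x.choose (a - J) else 0 := by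
      apply sum_le_sum
      intro a ha
      rw [mem_Icc] at ha
      refine (hkk a (by omega) ha.2).trans (le_of_eq ?_)
      by_cases h3 : J ≤ a
      · rw [if_pos h3]
        rw [← Nat.choose_symm (show n - a ≤ x by omega)]
        congr 1
        omega
      · rw [if_neg h3, Nat.choose_eq_zero_of_lt (by omega)]
    have h3 : ∑ a ∈ Icc (r + 1) (r + j), (if J ≤ a then x.choose (a - J) else 0) ≤
        ∑ i ∈ range (r - 1 + 1), x.choose i := by
      rw [← sum_filter]
      have h4 : ∑ a ∈ (Icc (r + 1) (r + j)).filter (fun a => J ≤ a), x.choose (a - J) =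
          ∑ i ∈ ((Icc (r + 1) (r + j)).filter (fun a => J ≤ a)).image (fun a => a - J),
            x.choose i := by
        rw [sum_image]
        intro a ha b hb hab
        rw [mem_coe, mem_filter] at ha hb
        simp only at hab
        omega
      rw [h4]
      apply sum_le_sum_of_subset
      intro i hi
      rw [mem_image] at hi
      obtain ⟨a, ha, rfl⟩ := hi
      rw [mem_filter, mem_Icc] at ha
      rw [mem_range]
      omega
    have h4 := sum_low x (r - 1) (by omega)
    omega
  have h19 : 19 * (x.choose (r - 1) : ℝ) ≤ (x - 1).choose r := by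
    have hxR : (21 : ℝ) * r ≤ x := by exact_mod_cast hx21
    apply num2 x r _ _ hrR hxR (Nat.cast_nonneg _)
    have h1 := ratio x r hr (by omega)
    have h2 := Nat.choose_mul_succ_eq (x - 1) r
    have e1 : x - 1 + 1 = x := by omega
    rw [e1] at h2
    have h3 : (((x - 1).choose r * x : ℕ) : ℝ) = ((x.choose r * (x - r) : ℕ) : ℝ) := by rw [h2]
    rw [Nat.cast_mul, Nat.cast_mul, Nat.cast_sub (by omega)] at h3
    calc ((x - 1).choose r : ℝ) * x * r = (x.choose r * ((x : ℝ) - r)) * r := by rw [h3]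
      _ = (x.choose r * r) * ((x : ℝ) - r) := by ring
      _ = _ := by rw [h1]
  have hfin : (G.card : ℝ) + Fl.card ≤ E := by
    have h1 : (G.card : ℝ) ≤ 2 * x.choose (r - 1) := by exact_mod_cast hGsum
    have h2 : ((x - 1).choose r : ℝ) ≤ E := by exact_mod_cast hxm
    linarith
  have hfinN : G.card + Fl.card ≤ E := by exact_mod_cast hfin
  omega

end Pool.Agent.H66.AE
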