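import Pool.Agent.H66.AE6
set_option autoImplicit false
open Finset

/-! Antichains of even diameter: the range `n ^ 2 ≥ (2 r) ^ 3`. -/

namespace Pool.Agent.H66.AE

variable {n : ℕ}

theorem even_range (n r : ℕ) (hr : 1 ≤ r) (hn : 24 * r ≤ n) (hn3 : 8 * r ^ 3 ≤ n ^ 2)
    (F : Finset (Finset (Fin n)))
    (hanti : ∀ A ∈ F, ∀ B ∈ F, A ⊆ B → A = B)
    (hd : ∀ A ∈ F, ∀ B ∈ F, (A \ B).card + (B \ A).card ≤ 2 * r) : F.card ≤ n.choose r := by
  refine reduce n r 0 (by omega) hr (by omega) (fun _ => True) ?_ F hanti (by simpa using hd)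
    trivial (fun _ _ => trivial)
  intro G h1 h2 h3 _
  rcases le_or_gt (n * (G.filter (fun A => A.card ≤ r)).card) ((n - 9 * r) * n.choose r) with h | h
  · exact sparse_low n r 0 (by omega) hr (by omega) G h1 h2 h3 h
  · exact dense_low r hr hn hn3 G h1 (by simpa using h2) h3 h

end Pool.Agent.H66.AE
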