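import Mathlib
set_option autoImplicit false
set_option maxHeartbeats 1000000
open Finset

/-! A product-measure inequality for cross-`t`-intersecting families. -/

namespace Pool.Agent.H66.AF

variable {α : Type*} [DecidableEq α]

/-- the product measure of a property on the subsets of `U` -/
noncomputable def mu (p : ℝ) (U : Finset α) (P : Finset α → Prop) [DecidablePred P] : ℝ :=
  ∑ A ∈ U.powerset, if P A then p ^ A.card * (1 - p) ^ (U.card - A.card) else 0

theorem mu_nonneg (p : ℝ) (h0 : 0 ≤ p) (h1 : p ≤ 1) (U : Finset α) (P : Finset α → Prop)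
    [DecidablePred P] : 0 ≤ mu p U P := by
  unfold mu
  apply sum_nonneg
  intro A _
  split_ifs
  · exact mul_nonneg (pow_nonneg h0 _) (pow_nonneg (by linarith) _)
  · exact le_rfl

theorem mu_insert (p : ℝ) (U : Finset α) (a : α) (ha : a ∉ U) (P : Finset α → Prop)
    [DecidablePred P] : mu p (insert a U) P =
      (1 - p) * mu p U P + p * mu p U (fun A => P (insert a A)) := by
  unfold mu
  rw [sum_powerset_insert ha, mul_sum, mul_sum]
  congr 1
  · apply sum_congr rfl
    intro A hA
    rw [mem_powerset] at hA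
    have h1 := card_le_card hA
    rw [card_insert_of_notMem ha]
    by_cases h : P A
    · rw [if_pos h, if_pos h]
      have e : U.card + 1 - A.card = (U.card - A.card) + 1 := by omega
      rw [e, pow_succ]; ring
    · rw [if_neg h, if_neg h, mul_zero]
  · apply sum_congr rfl
    intro A hA
    rw [mem_powerset] at hA
    have h1 := card_le_card hA
    have haA : a ∉ A := fun h => ha (hA h)
    rw [card_insert_of_notMem ha, card_insert_of_notMem haA]
    by_cases h : P (insert a A)
    · rw [if_pos h, if_pos h]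
      have e : U.card + 1 - (A.card + 1) = U.card - A.card := by omega
      rw [e, pow_succ]; ring
    · rw [if_neg h, if_neg h, mul_zero]

theorem mu_le_one (p : ℝ) (h0 : 0 ≤ p) (h1 : p ≤ 1) (U : Finset α) (P : Finset α → Prop)
    [DecidablePred P] : mu p U P ≤ 1 := by
  classical
  induction U using Finset.induction_on generalizing P with
  | empty =>
    unfold mu
    rw [powerset_empty, sum_singleton]
    split_ifs
    · simp
    · norm_num
  | insert a U ha ih =>
    rw [mu_insert p U a ha P]
    have e1 := ih P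
    have e2 := ih (fun A => P (insert a A))
    nlinarith

/-- the two-point inequality -/
theorem two_point (p q w : ℝ) (β : ℕ) (hp0 : 0 ≤ p) (hp1 : p ≤ 1) (hq0 : 0 ≤ q) (hq1 : q ≤ 1)
    (hw0 : 0 < w) (hw1 : w < 1)
    (hK : (1 - q) * (p + (1 - p) * w) ^ β + q * (1 - p + p / w) ^ β ≤ 1)
    (x0 x1 g0 g1 L : ℝ) (hx0 : 0 ≤ x0) (hx1 : 0 ≤ x1) (hg0 : 0 ≤ g0) (hg1 : 0 ≤ g1) (hL : 0 ≤ L)
    (h00 : g0 * x0 ^ β ≤ L * w ^ β) (h01 : g0 * x1 ^ β ≤ L * w ^ β)
    (h10 : g1 * x0 ^ β ≤ L * w ^ β) (h11 : g1 * x1 ^ β ≤ L) :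
    ((1 - q) * g0 + q * g1) * ((1 - p) * x0 + p * x1) ^ β ≤ L * w ^ β := by
  rcases le_or_gt x1 x0 with hle | hlt
  · have h1 : ((1 - p) * x0 + p * x1) ^ β ≤ x0 ^ β := by
      apply pow_le_pow_left₀ (by nlinarith)
      nlinarith
    have h2 : 0 ≤ (1 - q) * g0 + q * g1 := by nlinarith
    calc ((1 - q) * g0 + q * g1) * ((1 - p) * x0 + p * x1) ^ β ≤
        ((1 - q) * g0 + q * g1) * x0 ^ β := mul_le_mul_of_nonneg_left h1 h2
      _ = (1 - q) * (g0 * x0 ^ β) + q * (g1 * x0 ^ β) := by ring
      _ ≤ (1 - q) * (L * w ^ β) + q * (L * w ^ β) := by nlinarith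
      _ = L * w ^ β := by ring
  · have hx1p : 0 < x1 := lt_of_le_of_lt hx0 hlt
    -- replace `x0` by `x1 * y` with `y ≥ w`
    obtain ⟨y, hy⟩ : ∃ y, y = max (x0 / x1) w := ⟨_, rfl⟩
    have hyw : w ≤ y := by rw [hy]; exact le_max_right _ _
    have hy1 : y ≤ 1 := by
      rw [hy]
      apply max_le
      · rw [div_le_one hx1p]; exact hlt.le
      · exact hw1.le
    have hy0 : 0 < y := lt_of_lt_of_le hw0 hyw
    have hxy : x0 ≤ x1 * y := by
      have h1 : x0 / x1 ≤ y := by rw [hy]; exact le_max_left _ _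
      rw [div_le_iff₀ hx1p] at h1
      linarith
    have hg1y : g1 * (x1 * y) ^ β ≤ L * w ^ β := by
      rcases le_total (x0 / x1) w with h1 | h1
      · have e : y = w := by rw [hy]; exact max_eq_right h1
        rw [e, mul_pow]
        calc g1 * (x1 ^ β * w ^ β) = (g1 * x1 ^ β) * w ^ β := by ring
          _ ≤ L * w ^ β := mul_le_mul_of_nonneg_right h11 (pow_nonneg hw0.le _)
      · have e : y = x0 / x1 := by rw [hy]; exact max_eq_left h1
        have e2 : x1 * y = x0 := by rw [e]; field_simp
        rw [e2]; exact h10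
    have h3 : ((1 - p) * x0 + p * x1) ^ β ≤ (x1 * (p + (1 - p) * y)) ^ β := by
      apply pow_le_pow_left₀ (by nlinarith)
      nlinarith
    have h2 : 0 ≤ (1 - q) * g0 + q * g1 := by nlinarith
    have hyi : 0 < 1 / y := by positivity
    -- convexity
    obtain ⟨θ, hθ⟩ : ∃ θ, θ = (y - w) / (1 - w) := ⟨_, rfl⟩
    have hw1' : 0 < 1 - w := by linarith
    have hθ0 : 0 ≤ θ := by rw [hθ]; exact div_nonneg (by linarith) hw1'.le
    have hθ1 : θ ≤ 1 := by rw [hθ, div_le_one hw1']; linarith
    have hyθ : y = (1 - θ) * w + θ := by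
      rw [hθ]; field_simp; ring
    have hcv : ∀ a : ℝ, 0 ≤ a → ((1 - θ) * a + θ * 1) ^ β ≤ (1 - θ) * a ^ β + θ * 1 ^ β := by
      intro a ha
      have h4 := (convexOn_pow (𝕜 := ℝ) β).2 (Set.mem_Ici.2 ha) (Set.mem_Ici.2 zero_le_one)
        (show 0 ≤ 1 - θ by linarith) hθ0 (by ring)
      simpa [smul_eq_mul] using h4
    have h4 : (p + (1 - p) * y) ^ β ≤ (1 - θ) * (p + (1 - p) * w) ^ β + θ := by
      have h5 := hcv (p + (1 - p) * w) (by nlinarith)
      rw [one_pow, mul_one] at h5
      refine le_trans (le_of_eq ?_) h5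
      congr 1
      rw [hyθ]; ring
    have h6 : (1 - p + p / y) ^ β ≤ (1 - θ) * (1 - p + p / w) ^ β + θ := by
      have h7 : (0 : ℝ) ≤ 1 - p + p / w := by
        have : 0 ≤ p / w := div_nonneg hp0 hw0.le
        linarith
      have h5 := hcv (1 - p + p / w) h7
      rw [one_pow, mul_one] at h5
      refine le_trans ?_ h5
      apply pow_le_pow_left₀
      · have : 0 ≤ p / y := div_nonneg hp0 hy0.le
        linarith
      · have h8 : 1 / y ≤ (1 - θ) * (1 / w) + θ := by
          have h9 : 1 ≤ ((1 - θ) * (1 / w) + θ) * y := by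
            rw [hyθ]
            have h10 : (2 : ℝ) ≤ 1 / w + w := by
              rw [← sub_nonneg]
              have : 1 / w + w - 2 = (1 - w) ^ 2 / w := by field_simp; ring
              rw [this]
              positivity
            have h11 : ((1 - θ) * (1 / w) + θ) * ((1 - θ) * w + θ) =
                (1 - θ) ^ 2 + θ ^ 2 + (1 - θ) * θ * (1 / w + w) := by
              field_simp
              ring
            rw [h11]
            nlinarith [mul_nonneg (show 0 ≤ 1 - θ by linarith) hθ0]
          rw [div_le_iff₀ hy0]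
          exact h9
        have h12 : p / y = p * (1 / y) := by ring
        have h13 : p / w = p * (1 / w) := by ring
        rw [h12, h13]
        nlinarith
    have hKy : (1 - q) * (p + (1 - p) * y) ^ β + q * (1 - p + p / y) ^ β ≤ 1 := by
      have h15 := mul_le_mul_of_nonneg_left h4 (show 0 ≤ 1 - q by linarith)
      have h16 := mul_le_mul_of_nonneg_left h6 hq0
      have h17 := mul_le_mul_of_nonneg_left hK (show 0 ≤ 1 - θ by linarith)
      have h14 : (1 - q) * ((1 - θ) * (p + (1 - p) * w) ^ β + θ) +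
          q * ((1 - θ) * (1 - p + p / w) ^ β + θ) =
          (1 - θ) * ((1 - q) * (p + (1 - p) * w) ^ β + q * (1 - p + p / w) ^ β) + θ := by
        ring
      linarith
    calc ((1 - q) * g0 + q * g1) * ((1 - p) * x0 + p * x1) ^ β ≤
        ((1 - q) * g0 + q * g1) * (x1 * (p + (1 - p) * y)) ^ β := mul_le_mul_of_nonneg_left h3 h2
      _ = (1 - q) * (g0 * x1 ^ β) * (p + (1 - p) * y) ^ β +
          q * (g1 * (x1 * y) ^ β) * (1 - p + p / y) ^ β := by
        have e : (1 - p + p / y) ^ β * y ^ β = (p + (1 - p) * y) ^ β := by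
          rw [← mul_pow]
          congr 1
          field_simp
          ring
        rw [mul_pow, mul_pow x1 y, ← e]
        ring
      _ ≤ (1 - q) * (L * w ^ β) * (p + (1 - p) * y) ^ β +
          q * (L * w ^ β) * (1 - p + p / y) ^ β := by
        have f1 : 0 ≤ (p + (1 - p) * y) ^ β := pow_nonneg (by nlinarith) _
        have f2 : 0 ≤ (1 - p + p / y) ^ β := pow_nonneg (by
          have : 0 ≤ p / y := div_nonneg hp0 hy0.le
          linarith) _
        have f3 := mul_le_mul_of_nonneg_left h01 (show 0 ≤ 1 - q by linarith)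
        have f4 := mul_le_mul_of_nonneg_left hg1y hq0
        exact add_le_add (mul_le_mul_of_nonneg_right f3 f1) (mul_le_mul_of_nonneg_right f4 f2)
      _ = (L * w ^ β) * ((1 - q) * (p + (1 - p) * y) ^ β + q * (1 - p + p / y) ^ β) := by ring
      _ ≤ (L * w ^ β) * 1 := mul_le_mul_of_nonneg_left hKy (mul_nonneg hL (pow_nonneg hw0.le _))
      _ = L * w ^ β := mul_one _

/-- the inequality for cross-`t`-intersecting properties -/
theorem cross (p q w : ℝ) (β : ℕ) (hp0 : 0 ≤ p) (hp1 : p ≤ 1) (hq0 : 0 ≤ q) (hq1 : q ≤ 1)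
    (hw0 : 0 < w) (hw1 : w < 1)
    (hK : (1 - q) * (p + (1 - p) * w) ^ β + q * (1 - p + p / w) ^ β ≤ 1) (U : Finset α) :
    ∀ (t : ℕ) (P Q : Finset α → Prop) [DecidablePred P] [DecidablePred Q],
      (∀ T ∈ U.powerset, P T → ∀ A ∈ U.powerset, Q A → t ≤ (T ∩ A).card) →
      mu q U Q * (mu p U P) ^ β ≤ (w ^ β) ^ t := by
  classical
  induction U using Finset.induction_on with
  | empty =>
    intro t P Q _ _ h
    rcases Nat.eq_zero_or_pos t with ht | ht
    · subst ht
      rw [pow_zero]
      have h1 := mu_le_one p hp0 hp1 ∅ P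
      have h2 := mu_nonneg p hp0 hp1 ∅ P
      have h3 := mu_le_one q hq0 hq1 ∅ Q
      exact mul_le_one₀ h3 (pow_nonneg h2 _) (pow_le_one₀ h2 h1)
    · have hR : (0 : ℝ) ≤ (w ^ β) ^ t := pow_nonneg (pow_nonneg hw0.le _) _
      by_cases hP : P ∅
      · by_cases hQ : Q ∅
        · exfalso
          have := h ∅ (by simp) hP ∅ (by simp) hQ
          simp at this
          omega
        · have e : mu q (∅ : Finset α) Q = 0 := by
            unfold mu; rw [powerset_empty, sum_singleton, if_neg hQ]
          rw [e, zero_mul]; exact hR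
      · have e : mu p (∅ : Finset α) P = 0 := by
          unfold mu; rw [powerset_empty, sum_singleton, if_neg hP]
        rcases Nat.eq_zero_or_pos β with hβ | hβ
        · subst hβ
          rw [e, pow_zero, pow_zero, one_pow, mul_one]
          exact mu_le_one q hq0 hq1 ∅ Q
        · rw [e, zero_pow (by omega), mul_zero]; exact hR
  | insert a U ha ih =>
    intro t P Q _ _ h
    rcases Nat.eq_zero_or_pos t with ht | ht
    · subst ht
      rw [pow_zero]
      have h1 := mu_le_one p hp0 hp1 (insert a U) P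
      have h2 := mu_nonneg p hp0 hp1 (insert a U) P
      have h3 := mu_le_one q hq0 hq1 (insert a U) Q
      exact mul_le_one₀ h3 (pow_nonneg h2 _) (pow_le_one₀ h2 h1)
    · obtain ⟨t', rfl⟩ : ∃ t', t = t' + 1 := ⟨t - 1, by omega⟩
      have hsub : ∀ A ∈ U.powerset, A ∈ (insert a U).powerset := by
        intro A hA
        rw [mem_powerset] at hA ⊢
        exact hA.trans (subset_insert _ _)
      have hsub2 : ∀ A ∈ U.powerset, insert a A ∈ (insert a U).powerset := by
        intro A hA
        rw [mem_powerset] at hA ⊢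
        exact insert_subset_insert _ hA
      have hna : ∀ A ∈ U.powerset, a ∉ A := fun A hA hh => ha ((mem_powerset.1 hA) hh)
      rw [mu_insert q U a ha Q, mu_insert p U a ha P, pow_succ]
      apply two_point p q w β hp0 hp1 hq0 hq1 hw0 hw1 hK _ _ _ _ _
        (mu_nonneg p hp0 hp1 U _) (mu_nonneg p hp0 hp1 U _) (mu_nonneg q hq0 hq1 U _)
        (mu_nonneg q hq0 hq1 U _) (pow_nonneg (pow_nonneg hw0.le _) _)
      · rw [← pow_succ]
        exact ih (t' + 1) P Q (fun T hT hPT A hA hQA => h T (hsub T hT) hPT A (hsub A hA) hQA)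
      · rw [← pow_succ]
        apply ih (t' + 1) (fun A => P (insert a A)) Q
        intro T hT hPT A hA hQA
        have := h _ (hsub2 T hT) hPT A (hsub A hA) hQA
        rwa [insert_inter_of_notMem (hna A hA)] at this
      · rw [← pow_succ]
        apply ih (t' + 1) P (fun A => Q (insert a A))
        intro T hT hPT A hA hQA
        have := h _ (hsub T hT) hPT _ (hsub2 A hA) hQA
        rwa [inter_insert_of_notMem (hna T hT)] at this
      · apply ih t' (fun A => P (insert a A)) (fun A => Q (insert a A))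
        intro T hT hPT A hA hQA
        have h1 := h _ (hsub2 T hT) hPT _ (hsub2 A hA) hQA
        rw [← insert_inter_distrib, card_insert_of_notMem] at h1
        · omega
        · intro hh
          exact hna T hT (mem_inter.1 hh).1

end Pool.Agent.H66.AF
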