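import Pool.Agent.H66.AF1
import Pool.Graph.R_seed8.H173R2.AntiDiamA
set_option autoImplicit false
set_option maxHeartbeats 1000000
open Finset

/-! From families of `s`-sets to product measures. -/

namespace Pool.Agent.H66.AF

variable {n : ℕ}

theorem up_density (s b : ℕ) (hsb : s ≤ b) (hbn : b ≤ n) (𝒯 : Finset (Finset (Fin n)))
    (h𝒯 : ∀ T ∈ 𝒯, T.card = s) :
    𝒯.card * n.choose b ≤
      ((powersetCard b (univ : Finset (Fin n))).filter (fun B => ∃ T ∈ 𝒯, T ⊆ B)).card *
        n.choose s := by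
  classical
  have h1 : ∑ T ∈ 𝒯, ((powersetCard b (univ : Finset (Fin n))).filter (fun B => T ⊆ B)).card =
      𝒯.card * (n - s).choose (b - s) := by
    rw [card_eq_sum_ones 𝒯, sum_mul]
    apply sum_congr rfl
    intro T hT
    have h2 := Pool.Agent.H173R2.AntiDiam.card_between T univ b (subset_univ _)
      (by rw [h𝒯 T hT]; exact hsb)
    rw [card_univ, Fintype.card_fin, h𝒯 T hT] at h2
    rw [one_mul, ← h2]
    congr 1
    ext B
    simp only [mem_filter, mem_powersetCard, subset_univ, true_and, and_true, mem_univ]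
  have h3 : ∑ T ∈ 𝒯, ((powersetCard b (univ : Finset (Fin n))).filter (fun B => T ⊆ B)).card ≤
      ((powersetCard b (univ : Finset (Fin n))).filter (fun B => ∃ T ∈ 𝒯, T ⊆ B)).card *
        b.choose s := by
    have e1 : ∀ T ∈ 𝒯, ((powersetCard b (univ : Finset (Fin n))).filter (fun B => T ⊆ B)).card =
        ∑ B ∈ powersetCard b (univ : Finset (Fin n)), if T ⊆ B then 1 else 0 := by
      intro T _
      rw [card_eq_sum_ones, sum_filter]
    rw [sum_congr rfl e1, sum_comm, card_eq_sum_ones, sum_filter, sum_mul]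
    apply sum_le_sum
    intro B hB
    rw [mem_powersetCard] at hB
    rw [← sum_filter, ← card_eq_sum_ones]
    by_cases hP : ∃ T ∈ 𝒯, T ⊆ B
    · rw [if_pos hP, one_mul]
      have h4 : 𝒯.filter (fun T => T ⊆ B) ⊆ powersetCard s B := by
        intro T hT
        rw [mem_filter] at hT
        rw [mem_powersetCard]
        exact ⟨hT.2, h𝒯 T hT.1⟩
      have h5 := card_le_card h4
      rwa [card_powersetCard, hB.2] at h5
    · rw [if_neg hP, zero_mul]
      apply le_of_eq
      rw [card_eq_zero, filter_eq_empty_iff]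
      intro T hT hTB
      exact hP ⟨T, hT, hTB⟩
  have h6 := Nat.choose_mul (n := n) hsb
  rw [h1] at h3
  have hpos : 0 < b.choose s := Nat.choose_pos hsb
  have h7 : (𝒯.card * n.choose b) * b.choose s ≤
      (((powersetCard b (univ : Finset (Fin n))).filter (fun B => ∃ T ∈ 𝒯, T ⊆ B)).card *
        n.choose s) * b.choose s := by
    calc (𝒯.card * n.choose b) * b.choose s = 𝒯.card * (n.choose b * b.choose s) := by ring
      _ = (𝒯.card * (n - s).choose (b - s)) * n.choose s := by rw [h6]; ring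
      _ ≤ (((powersetCard b (univ : Finset (Fin n))).filter (fun B => ∃ T ∈ 𝒯, T ⊆ B)).card *
          b.choose s) * n.choose s := Nat.mul_le_mul_right _ h3
      _ = _ := by ring
  exact Nat.le_of_mul_le_mul_right h7 hpos

theorem mu_eq (p : ℝ) (P : Finset (Fin n) → Prop) [DecidablePred P] :
    mu p (univ : Finset (Fin n)) P = ∑ b ∈ range (n + 1),
      (((powersetCard b (univ : Finset (Fin n))).filter P).card : ℝ) *
        (p ^ b * (1 - p) ^ (n - b)) := by
  unfold mu
  rw [sum_powerset, card_univ, Fintype.card_fin]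
  apply sum_congr rfl
  intro b _
  rw [← nsmul_eq_mul, ← sum_const, sum_filter]
  apply sum_congr rfl
  intro A hA
  rw [(mem_powersetCard.1 hA).2]

theorem variance (n : ℕ) (p : ℝ) : ∑ b ∈ range (n + 1),
    ((n : ℝ) * p - b) ^ 2 * ((n.choose b : ℝ) * (p ^ b * (1 - p) ^ (n - b))) =
      n * p * (1 - p) := by
  have h := congrArg (Polynomial.eval p) (bernsteinPolynomial.variance ℝ n)
  simp only [Polynomial.eval_finsetSum, Polynomial.eval_mul, Polynomial.eval_pow,
    Polynomial.eval_sub, Polynomial.eval_X, Polynomial.eval_one, Polynomial.eval_natCast,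
    bernsteinPolynomial, nsmul_eq_mul] at h
  rw [← h]
  apply sum_congr rfl
  intro b _
  ring

theorem total (n : ℕ) (p : ℝ) : ∑ b ∈ range (n + 1),
    ((n.choose b : ℝ) * (p ^ b * (1 - p) ^ (n - b))) = 1 := by
  have h := add_pow p (1 - p) n
  have e : p + (1 - p) = 1 := by ring
  rw [e, one_pow] at h
  refine Eq.trans ?_ h.symm
  apply sum_congr rfl
  intro b _
  ring

theorem cheb (n s : ℕ) (p d : ℝ) (h0 : 0 ≤ p) (h1 : p ≤ 1) (hd : 0 < d)
    (hs : (s : ℝ) + d ≤ n * p) :
    1 - n * p / d ^ 2 ≤ ∑ b ∈ (range (n + 1)).filter (fun b => s ≤ b),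
      ((n.choose b : ℝ) * (p ^ b * (1 - p) ^ (n - b))) := by
  have hsplit := sum_filter_add_sum_filter_not (range (n + 1)) (fun b => s ≤ b)
    (fun b => ((n.choose b : ℝ) * (p ^ b * (1 - p) ^ (n - b))))
  rw [total n p] at hsplit
  have hnn : ∀ b, 0 ≤ ((n.choose b : ℝ) * (p ^ b * (1 - p) ^ (n - b))) := fun b =>
    mul_nonneg (Nat.cast_nonneg _) (mul_nonneg (pow_nonneg h0 _) (pow_nonneg (by linarith) _))
  have h2 : d ^ 2 * ∑ b ∈ (range (n + 1)).filter (fun b => ¬ s ≤ b),
      ((n.choose b : ℝ) * (p ^ b * (1 - p) ^ (n - b))) ≤ n * p := by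
    calc d ^ 2 * ∑ b ∈ (range (n + 1)).filter (fun b => ¬ s ≤ b),
        ((n.choose b : ℝ) * (p ^ b * (1 - p) ^ (n - b))) ≤
        ∑ b ∈ (range (n + 1)).filter (fun b => ¬ s ≤ b),
          ((n : ℝ) * p - b) ^ 2 * ((n.choose b : ℝ) * (p ^ b * (1 - p) ^ (n - b))) := by
          rw [mul_sum]
          apply sum_le_sum
          intro b hb
          rw [mem_filter] at hb
          apply mul_le_mul_of_nonneg_right _ (hnn b)
          have h3 : (b : ℝ) ≤ s := by exact_mod_cast (by omega)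
          apply pow_le_pow_left₀ hd.le
          linarith
      _ ≤ ∑ b ∈ range (n + 1),
          ((n : ℝ) * p - b) ^ 2 * ((n.choose b : ℝ) * (p ^ b * (1 - p) ^ (n - b))) :=
          sum_le_sum_of_subset_of_nonneg (filter_subset _ _)
            (fun b _ _ => mul_nonneg (sq_nonneg _) (hnn b))
      _ = n * p * (1 - p) := variance n p
      _ ≤ n * p := by
          have : 0 ≤ (n : ℝ) * p := mul_nonneg (Nat.cast_nonneg _) h0
          nlinarith
  have hd2 : 0 < d ^ 2 := by positivity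
  have h3 : ∑ b ∈ (range (n + 1)).filter (fun b => ¬ s ≤ b),
      ((n.choose b : ℝ) * (p ^ b * (1 - p) ^ (n - b))) ≤ n * p / d ^ 2 := by
    rw [le_div_iff₀ hd2]
    linarith
  linarith

theorem transfer (s : ℕ) (p d : ℝ) (h0 : 0 ≤ p) (h1 : p ≤ 1) (hd : 0 < d)
    (hs : (s : ℝ) + d ≤ n * p) (𝒯 : Finset (Finset (Fin n)))
    (h𝒯 : ∀ T ∈ 𝒯, T.card = s) [DecidablePred (fun B : Finset (Fin n) => ∃ T ∈ 𝒯, T ⊆ B)] :
    (𝒯.card : ℝ) * (1 - n * p / d ^ 2) ≤
      mu p (univ : Finset (Fin n)) (fun B => ∃ T ∈ 𝒯, T ⊆ B) * n.choose s := by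
  have hc := cheb n s p d h0 h1 hd hs
  have h2 := mul_le_mul_of_nonneg_left hc (Nat.cast_nonneg (α := ℝ) 𝒯.card)
  refine h2.trans ?_
  rw [mu_eq, mul_sum, sum_mul, sum_filter]
  apply sum_le_sum
  intro b hb
  rw [mem_range] at hb
  have hnn : 0 ≤ p ^ b * (1 - p) ^ (n - b) :=
    mul_nonneg (pow_nonneg h0 _) (pow_nonneg (by linarith) _)
  by_cases hsb : s ≤ b
  · rw [if_pos hsb]
    have h3 := up_density s b hsb (by omega) 𝒯 h𝒯
    have h4 : (𝒯.card : ℝ) * n.choose b ≤
        (((powersetCard b (univ : Finset (Fin n))).filter (fun B => ∃ T ∈ 𝒯, T ⊆ B)).card : ℝ) *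
        n.choose s := by
      have h5 : (𝒯.card * n.choose b) ≤
        ((powersetCard b (univ : Finset (Fin n))).filter (fun B => ∃ T ∈ 𝒯, T ⊆ B)).card *
        n.choose s := by
        convert h3
      exact_mod_cast h5
    calc (𝒯.card : ℝ) * ((n.choose b : ℝ) * (p ^ b * (1 - p) ^ (n - b))) =
        ((𝒯.card : ℝ) * n.choose b) * (p ^ b * (1 - p) ^ (n - b)) := by ring
      _ ≤ ((((powersetCard b (univ : Finset (Fin n))).filter
          (fun B => ∃ T ∈ 𝒯, T ⊆ B)).card : ℝ) * n.choose s) * (p ^ b * (1 - p) ^ (n - b)) :=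
          mul_le_mul_of_nonneg_right h4 hnn
      _ = _ := by ring
  · rw [if_neg hsb]
    positivity

end Pool.Agent.H66.AF
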