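import Pool.Agent.H66.AF2
import Pool.Agent.H66.AE7
set_option autoImplicit false
set_option maxHeartbeats 1000000
open Finset

/-! Members of large size when an extreme level is nearly full. -/

namespace Pool.Agent.H66.AF

variable {n : ℕ}

theorem pw (β : ℕ) (hβ : 10 ≤ β) : 2048 * (β + 1) ^ 2 ≤ 4 ^ β := by
  induction β, hβ using Nat.le_induction with
  | base => norm_num
  | succ m hm ih =>
    have h1 : 4 ^ (m + 1) = 4 * 4 ^ m := by rw [pow_succ]; ring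
    have h2 : (m + 1 + 1) ^ 2 ≤ 4 * (m + 1) ^ 2 := by nlinarith
    rw [h1]
    calc 2048 * (m + 1 + 1) ^ 2 ≤ 2048 * (4 * (m + 1) ^ 2) := Nat.mul_le_mul_left _ h2
      _ = 4 * (2048 * (m + 1) ^ 2) := by ring
      _ ≤ 4 * 4 ^ m := Nat.mul_le_mul_left _ ih

theorem pw4 (b c : ℝ) (t : ℕ) : (2 * b * c * 64) ^ t = 2 ^ t * b ^ t * c ^ t * 64 ^ t := by
  rw [mul_pow, mul_pow, mul_pow]

theorem hK (n r : ℕ) (hr : 8 ≤ r) (hn : 40 * r ≤ n) :
    (1 - 4 * (r : ℝ) / n) * (2 * (r : ℝ) / n + (1 - 2 * (r : ℝ) / n) * (1 / 4)) ^ (n / (4 * r)) +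
      4 * (r : ℝ) / n * (1 - 2 * (r : ℝ) / n + 2 * (r : ℝ) / n / (1 / 4)) ^ (n / (4 * r)) ≤ 1 := by
  have hrR : (8 : ℝ) ≤ r := by exact_mod_cast hr
  have hnR : (40 : ℝ) * r ≤ n := by exact_mod_cast hn
  have hn0 : (0 : ℝ) < n := by linarith
  obtain ⟨p, hp⟩ : ∃ p : ℝ, p = 2 * (r : ℝ) / n := ⟨_, rfl⟩
  obtain ⟨β, hβ⟩ : ∃ β : ℕ, β = n / (4 * r) := ⟨_, rfl⟩
  have hp0 : 0 ≤ p := by rw [hp]; positivity
  have hp1 : p ≤ 1 / 20 := by
    rw [hp, div_le_iff₀ hn0]; linarith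
  have hq : 4 * (r : ℝ) / n = 2 * p := by rw [hp]; ring
  have hβ10 : 10 ≤ β := by
    rw [hβ, Nat.le_div_iff_mul_le (by omega)]; omega
  have hβn : β * (4 * r) ≤ n := by rw [hβ]; exact Nat.div_mul_le_self n (4 * r)
  have hβnR : (β : ℝ) * (4 * r) ≤ n := by exact_mod_cast hβn
  have hpβ : p * β ≤ 1 / 2 := by
    rw [hp, div_mul_eq_mul_div, div_le_iff₀ hn0]; linarith
  rw [hq, ← hp, ← hβ]
  have h1 : (p + (1 - p) * (1 / 4)) ^ β ≤ 9 / 100 := by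
    have h2 : (p + (1 - p) * (1 / 4)) ^ β ≤ (3 / 10 : ℝ) ^ β := by
      apply pow_le_pow_left₀
      · nlinarith
      · nlinarith
    have h3 : (3 / 10 : ℝ) ^ β ≤ (3 / 10 : ℝ) ^ 2 :=
      pow_le_pow_of_le_one (by norm_num) (by norm_num) (by omega)
    refine (h2.trans h3).trans (by norm_num)
  have h4 : (1 - p + p / (1 / 4)) ^ β ≤ 9 := by
    have e : 1 - p + p / (1 / 4) = 3 * p + 1 := by ring
    rw [e]
    have h5 : (3 * p + 1) ^ β ≤ (Real.exp (3 * p)) ^ β :=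
      pow_le_pow_left₀ (by linarith) (Real.add_one_le_exp _) _
    rw [← Real.exp_nat_mul] at h5
    have h6 : Real.exp ((β : ℝ) * (3 * p)) ≤ Real.exp 2 := by
      apply Real.exp_le_exp.2
      nlinarith
    have h7 : Real.exp 2 ≤ 9 := by
      have h8 : Real.exp 2 = Real.exp 1 * Real.exp 1 := by
        rw [← Real.exp_add]; norm_num
      rw [h8]
      have h9 := Real.exp_one_lt_d9
      have h10 := Real.exp_pos 1
      nlinarith
    linarith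
  have h11 : (0 : ℝ) ≤ (p + (1 - p) * (1 / 4)) ^ β := pow_nonneg (by nlinarith) _
  have h12 : (0 : ℝ) ≤ (1 - p + p / (1 / 4)) ^ β := pow_nonneg (by
    have : 0 ≤ p / (1 / 4) := by positivity
    linarith) _
  nlinarith

theorem choose_up (n r j : ℕ) (hr : 1 ≤ r) (hj : r + j ≤ n) :
    n.choose (r + j) * r ^ j ≤ n.choose r * n ^ j := by
  induction j with
  | zero => simp
  | succ j ih =>
    have h1 := ih (by omega)
    have h2 := Nat.choose_succ_right_eq n (r + j)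
    have h3 : n.choose (r + j + 1) * r ≤ n.choose (r + j) * n := by
      calc n.choose (r + j + 1) * r ≤ n.choose (r + j + 1) * (r + j + 1) :=
            Nat.mul_le_mul_left _ (by omega)
        _ = n.choose (r + j) * (n - (r + j)) := h2
        _ ≤ n.choose (r + j) * n := Nat.mul_le_mul_left _ (by omega)
    calc n.choose (r + (j + 1)) * r ^ (j + 1) = (n.choose (r + j + 1) * r) * r ^ j := by
          rw [pow_succ]; ring_nf
      _ ≤ (n.choose (r + j) * n) * r ^ j := Nat.mul_le_mul_right _ h3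
      _ = (n.choose (r + j) * r ^ j) * n := by ring
      _ ≤ (n.choose r * n ^ j) * n := Nat.mul_le_mul_right _ h1
      _ = n.choose r * n ^ (j + 1) := by rw [pow_succ]; ring

/-- one level of large members -/
theorem large_level (r j : ℕ) (hr : 8 ≤ r) (hn : 40 * r ≤ n) (hj : j ≤ 2 * r)
    (hjβ : 2 * (n / (4 * r)) ≤ j)
    (𝒯 𝒢 : Finset (Finset (Fin n))) (h𝒯 : ∀ T ∈ 𝒯, T.card = r) (h𝒢 : ∀ A ∈ 𝒢, A.card = r + j)
    (hcr : ∀ T ∈ 𝒯, ∀ A ∈ 𝒢, j ≤ 2 * (T ∩ A).card)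
    (hdens : 3 * n.choose r ≤ 4 * 𝒯.card) :
    (𝒢.card : ℝ) * 8 ^ j ≤ 2 * n.choose r := by
  classical
  have hrR : (8 : ℝ) ≤ r := by exact_mod_cast hr
  have hnR : (40 : ℝ) * r ≤ n := by exact_mod_cast hn
  have hn0 : (0 : ℝ) < n := by linarith
  obtain ⟨p, hp⟩ : ∃ p : ℝ, p = 2 * (r : ℝ) / n := ⟨_, rfl⟩
  obtain ⟨q, hq⟩ : ∃ q : ℝ, q = 4 * (r : ℝ) / n := ⟨_, rfl⟩
  obtain ⟨β, hβ⟩ : ∃ β : ℕ, β = n / (4 * r) := ⟨_, rfl⟩
  have hk := hK n r hr hn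
  rw [← hp, ← hq, ← hβ] at hk
  have hp0 : 0 ≤ p := by rw [hp]; positivity
  have hq0 : 0 ≤ q := by rw [hq]; positivity
  have hp1 : p ≤ 1 := by rw [hp, div_le_one hn0]; linarith
  have hq1 : q ≤ 1 := by rw [hq, div_le_one hn0]; linarith
  have hnp : n * p = 2 * r := by rw [hp]; field_simp
  have hnq : n * q = 4 * r := by rw [hq]; field_simp
  have hβ10 : 10 ≤ β := by
    rw [hβ, Nat.le_div_iff_mul_le (by omega)]; omega
  have hβlt : n < 4 * r * (β + 1) := by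
    rw [hβ]; exact Nat.lt_mul_div_succ n (by omega)
  obtain ⟨t, ht⟩ : ∃ t, t = (j + 1) / 2 := ⟨_, rfl⟩
  have hβt : β ≤ t := by omega
  obtain ⟨x, hx⟩ : ∃ x, x = mu p (univ : Finset (Fin n)) (fun B => ∃ T ∈ 𝒯, T ⊆ B) := ⟨_, rfl⟩
  obtain ⟨y, hy⟩ : ∃ y, y = mu q (univ : Finset (Fin n)) (fun B => ∃ T ∈ 𝒢, T ⊆ B) := ⟨_, rfl⟩
  have hcross := cross p q (1 / 4) β hp0 hp1 hq0 hq1 (by norm_num) (by norm_num) hk
    (univ : Finset (Fin n)) t (fun B => ∃ T ∈ 𝒯, T ⊆ B) (fun B => ∃ T ∈ 𝒢, T ⊆ B) (by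
      rintro B - ⟨T, hT, hTB⟩ B' - ⟨A, hA, hAB⟩
      have h1 := hcr T hT A hA
      have h2 : (T ∩ A).card ≤ (B ∩ B').card := card_le_card (inter_subset_inter hTB hAB)
      omega)
  rw [← hx, ← hy] at hcross
  have hc0 : (0 : ℝ) < n.choose r := by exact_mod_cast Nat.choose_pos (by omega)
  have ht1 := transfer r p r hp0 hp1 (by linarith) (by rw [hnp]; linarith) 𝒯 h𝒯
  rw [← hx, hnp] at ht1
  have hx12 : 1 / 2 ≤ x := by
    have h1 : (3 : ℝ) / 4 ≤ 1 - 2 * r / (r : ℝ) ^ 2 := by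
      have : 2 * (r : ℝ) / (r : ℝ) ^ 2 = 2 / r := by field_simp
      rw [this]
      have h2 : 2 / (r : ℝ) ≤ 1 / 4 := by
        rw [div_le_div_iff₀ (by linarith) (by norm_num)]; linarith
      linarith
    have h3 : (3 : ℝ) * n.choose r ≤ 4 * 𝒯.card := by exact_mod_cast hdens
    have h4 : (𝒯.card : ℝ) * (3 / 4) ≤ x * n.choose r :=
      (mul_le_mul_of_nonneg_left h1 (Nat.cast_nonneg _)).trans ht1
    have h5 : (1 / 2 : ℝ) * n.choose r ≤ x * n.choose r := by nlinarith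
    exact le_of_mul_le_mul_right h5 hc0
  have ht2 := transfer (r + j) q r hq0 hq1 (by linarith) (by
    rw [hnq]
    have : (j : ℝ) ≤ 2 * r := by exact_mod_cast hj
    push_cast
    linarith) 𝒢 h𝒢
  rw [← hy, hnq] at ht2
  have hG1 : (𝒢.card : ℝ) ≤ 2 * (y * n.choose (r + j)) := by
    have h1 : (1 : ℝ) / 2 ≤ 1 - 4 * r / (r : ℝ) ^ 2 := by
      have : 4 * (r : ℝ) / (r : ℝ) ^ 2 = 4 / r := by field_simp
      rw [this]
      have h2 : 4 / (r : ℝ) ≤ 1 / 2 := by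
        rw [div_le_div_iff₀ (by linarith) (by norm_num)]; linarith
      linarith
    have h4 : (𝒢.card : ℝ) * (1 / 2) ≤ y * n.choose (r + j) :=
      (mul_le_mul_of_nonneg_left h1 (Nat.cast_nonneg _)).trans ht2
    linarith
  -- `y ≤ 2 ^ β * (1 / 4) ^ (β t)`
  have hy0 : 0 ≤ y := by rw [hy]; exact mu_nonneg q hq0 hq1 _ _
  have hyb : y ≤ 2 ^ β * ((1 / 4 : ℝ) ^ β) ^ t := by
    have h1 : (1 / 2 : ℝ) ^ β ≤ x ^ β := pow_le_pow_left₀ (by norm_num) hx12 _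
    have h2 : y * (1 / 2 : ℝ) ^ β ≤ ((1 / 4 : ℝ) ^ β) ^ t :=
      (mul_le_mul_of_nonneg_left h1 hy0).trans hcross
    have h3 : (2 : ℝ) ^ β * (1 / 2 : ℝ) ^ β = 1 := by
      rw [← mul_pow]; norm_num
    calc y = 2 ^ β * (y * (1 / 2 : ℝ) ^ β) := by
          rw [mul_comm y, ← mul_assoc, h3, one_mul]
      _ ≤ _ := mul_le_mul_of_nonneg_left h2 (by positivity)
  -- the binomial coefficient
  have hup := choose_up n r j (by omega) (by omega)
  have hupR : (n.choose (r + j) : ℝ) * (r : ℝ) ^ j ≤ n.choose r * (n : ℝ) ^ j := by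
    exact_mod_cast hup
  have hB1 : (1 : ℝ) ≤ 4 * (β + 1) := by
    have : (0 : ℝ) ≤ β := Nat.cast_nonneg _
    linarith
  have hch : (n.choose (r + j) : ℝ) ≤ n.choose r * (16 * ((β : ℝ) + 1) ^ 2) ^ t := by
    have h1 : (n : ℝ) ≤ (4 * (β + 1)) * r := by
      have : ((n : ℕ) : ℝ) ≤ ((4 * r * (β + 1) : ℕ) : ℝ) := by exact_mod_cast hβlt.le
      push_cast at this
      linarith
    have h2 : (n : ℝ) ^ j ≤ ((4 * ((β : ℝ) + 1)) * r) ^ j := pow_le_pow_left₀ hn0.le h1 _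
    have h3 : (n.choose (r + j) : ℝ) * (r : ℝ) ^ j ≤
        (n.choose r * (4 * ((β : ℝ) + 1)) ^ j) * (r : ℝ) ^ j := by
      refine hupR.trans ((mul_le_mul_of_nonneg_left h2 hc0.le).trans (le_of_eq ?_))
      rw [mul_pow]; ring
    have h4 := le_of_mul_le_mul_right h3 (pow_pos (by linarith) j)
    refine h4.trans ?_
    apply mul_le_mul_of_nonneg_left _ hc0.le
    calc (4 * ((β : ℝ) + 1)) ^ j ≤ (4 * ((β : ℝ) + 1)) ^ (2 * t) :=
          pow_le_pow_right₀ hB1 (by omega)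
      _ = (16 * ((β : ℝ) + 1) ^ 2) ^ t := by rw [pow_mul]; congr 1; ring
  have h8 : (8 : ℝ) ^ j ≤ 64 ^ t := by
    calc (8 : ℝ) ^ j ≤ 8 ^ (2 * t) := pow_le_pow_right₀ (by norm_num) (by omega)
      _ = 64 ^ t := by rw [pow_mul]; norm_num
  have h2t : (2 : ℝ) ^ β ≤ 2 ^ t := pow_le_pow_right₀ (by norm_num) hβt
  have hν : (2 * ((1 / 4 : ℝ) ^ β) * (16 * ((β : ℝ) + 1) ^ 2) * 64) ^ t ≤ 1 := by
    apply pow_le_one₀ (by positivity)
    have h5 := pw β hβ10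
    have h6 : (2048 : ℝ) * ((β : ℝ) + 1) ^ 2 ≤ 4 ^ β := by exact_mod_cast h5
    have h7 : (4 : ℝ) ^ β * (1 / 4 : ℝ) ^ β = 1 := by
      rw [← mul_pow]; norm_num
    calc 2 * ((1 / 4 : ℝ) ^ β) * (16 * ((β : ℝ) + 1) ^ 2) * 64 =
        (2048 * ((β : ℝ) + 1) ^ 2) * (1 / 4 : ℝ) ^ β := by ring
      _ ≤ 4 ^ β * (1 / 4 : ℝ) ^ β := mul_le_mul_of_nonneg_right h6 (by positivity)
      _ = 1 := h7
  calc (𝒢.card : ℝ) * 8 ^ j ≤ (2 * (y * n.choose (r + j))) * 64 ^ t := by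
        apply mul_le_mul hG1 h8 (by positivity)
        exact mul_nonneg (by norm_num) (mul_nonneg hy0 (Nat.cast_nonneg _))
    _ ≤ (2 * ((2 ^ t * ((1 / 4 : ℝ) ^ β) ^ t) *
          (n.choose r * (16 * ((β : ℝ) + 1) ^ 2) ^ t))) * 64 ^ t := by
        apply mul_le_mul_of_nonneg_right _ (by positivity)
        apply mul_le_mul_of_nonneg_left _ (by norm_num)
        apply mul_le_mul _ hch (Nat.cast_nonneg _) (by positivity)
        exact hyb.trans (mul_le_mul_of_nonneg_right h2t (by positivity))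
    _ = 2 * n.choose r * (2 * ((1 / 4 : ℝ) ^ β) * (16 * ((β : ℝ) + 1) ^ 2) * 64) ^ t := by
        rw [pw4]; ring
    _ ≤ 2 * n.choose r * 1 := mul_le_mul_of_nonneg_left hν (by positivity)
    _ = 2 * n.choose r := mul_one _

end Pool.Agent.H66.AF
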