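import Pool.Agent.H66.AF3
set_option autoImplicit false
set_option maxHeartbeats 1000000
open Finset

/-! Antichains of even diameter: the linear range. -/

namespace Pool.Agent.H66.AF

open Pool.Agent.H66.AE

variable {n : ℕ}

/-- halving -/
theorem halve (n r m : ℕ) (h : m + 2 * r ≤ n) : n.choose r ≤ 2 ^ m * (n - m).choose r := by
  induction m with
  | zero => simp
  | succ m ih =>
    have h1 := ih (by omega)
    have h5 := Nat.choose_mul_succ_eq (n - (m + 1)) r
    have e1 : n - (m + 1) + 1 = n - m := by omega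
    rw [e1] at h5
    have h2 : (n - m).choose r ≤ 2 * (n - (m + 1)).choose r := by
      have h3 : n - m ≤ 2 * (n - m - r) := by omega
      have h4 : (n - m).choose r * (n - m) ≤ (2 * (n - (m + 1)).choose r) * (n - m) := by
        calc (n - m).choose r * (n - m) ≤ (n - m).choose r * (2 * (n - m - r)) :=
              Nat.mul_le_mul_left _ h3
          _ = 2 * ((n - m).choose r * (n - m - r)) := by ring
          _ = 2 * ((n - (m + 1)).choose r * (n - m)) := by rw [h5]
          _ = _ := by ring
      exact Nat.le_of_mul_le_mul_right h4 (by omega)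
    calc n.choose r ≤ 2 ^ m * (n - m).choose r := h1
      _ ≤ 2 ^ m * (2 * (n - (m + 1)).choose r) := Nat.mul_le_mul_left _ h2
      _ = 2 ^ (m + 1) * (n - (m + 1)).choose r := by rw [pow_succ]; ring

/-- geometric tail -/
theorem geo (J K : ℕ) : ∑ j ∈ Ico J K, (1 / 8 : ℝ) ^ j ≤ 8 / 7 * (1 / 8 : ℝ) ^ J := by
  rcases le_or_gt J K with h | h
  · obtain ⟨d, rfl⟩ := Nat.exists_eq_add_of_le h
    clear h
    have h1 : ∑ j ∈ Ico J (J + d), (1 / 8 : ℝ) ^ j ≤
        8 / 7 * (1 / 8 : ℝ) ^ J - 8 / 7 * (1 / 8 : ℝ) ^ (J + d) := by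
      induction d with
      | zero => simp
      | succ d ih =>
        rw [← add_assoc, sum_Ico_succ_top (by omega)]
        have e : (1 / 8 : ℝ) ^ (J + d + 1) = (1 / 8 : ℝ) ^ (J + d) * (1 / 8) := pow_succ _ _
        rw [e]
        linarith
    have h2 : (0 : ℝ) ≤ 8 / 7 * (1 / 8 : ℝ) ^ (J + d) := by positivity
    linarith
  · rw [Ico_eq_empty (by omega), sum_empty]
    positivity

theorem dense_low2 (r : ℕ) (hr : 8 ≤ r) (hn : 40 * r ≤ n)
    (F : Finset (Finset (Fin n)))
    (hanti : ∀ A ∈ F, ∀ B ∈ F, A ⊆ B → A = B)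
    (hd : ∀ A ∈ F, ∀ B ∈ F, (A \ B).card + (B \ A).card ≤ 2 * r)
    (hmax : ∀ A ∈ F, A.card + 1 ≤ 3 * r)
    (hdense : (n - 9 * r) * n.choose r < n * (F.filter (fun A => A.card ≤ r)).card) :
    F.card ≤ n.choose r := by
  classical
  obtain ⟨Fl, hFl⟩ : ∃ Fl, Fl = F.filter (fun A => A.card < r) := ⟨_, rfl⟩
  obtain ⟨Fs, hFs⟩ : ∃ Fs, Fs = F.filter (fun A => A.card = r) := ⟨_, rfl⟩
  obtain ⟨G, hG⟩ : ∃ G, G = F.filter (fun A => ¬ A.card ≤ r) := ⟨_, rfl⟩
  have hsp1 : (F.filter (fun A => A.card ≤ r)).card = Fl.card + Fs.card := by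
    rw [hFl, hFs, ← card_union_of_disjoint]
    · congr 1
      ext A
      simp only [mem_union, mem_filter]
      constructor
      · rintro ⟨h1, h2⟩
        rcases h2.lt_or_eq with h3 | h3
        · exact Or.inl ⟨h1, h3⟩
        · exact Or.inr ⟨h1, h3⟩
      · rintro (⟨h1, h2⟩ | ⟨h1, h2⟩)
        · exact ⟨h1, h2.le⟩
        · exact ⟨h1, h2.le⟩
    · rw [disjoint_left]
      intro A hA hB
      rw [mem_filter] at hA hB
      omega
  have hsp : Fl.card + Fs.card + G.card = F.card := by
    rw [← hsp1, hG]
    exact card_filter_add_card_filter_not (s := F) (fun A => A.card ≤ r)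
  have hFs' : ∀ T ∈ Fs, T ∈ F ∧ T.card = r := fun T hT => by rwa [hFs, mem_filter] at hT
  have hG' : ∀ A ∈ G, A ∈ F ∧ ¬ A.card ≤ r := fun A hA => by rwa [hG, mem_filter] at hA
  have hFsc : Fs.card ≤ n.choose r := by
    have h1 : Fs ⊆ powersetCard r (univ : Finset (Fin n)) := by
      intro T hT
      rw [mem_powersetCard]
      exact ⟨subset_univ _, (hFs' T hT).2⟩
    have := card_le_card h1
    rwa [card_powersetCard, card_univ, Fintype.card_fin] at this
  obtain ⟨E, hE⟩ : ∃ E, E = n.choose r - Fs.card := ⟨_, rfl⟩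
  have hES : Fs.card + E = n.choose r := by omega
  have hESR : (Fs.card : ℝ) + E = n.choose r := by exact_mod_cast hES
  have hrR : (8 : ℝ) ≤ r := by exact_mod_cast hr
  have hnR : (40 : ℝ) * r ≤ n := by exact_mod_cast hn
  have hn0 : (0 : ℝ) < n := by linarith
  have hc0 : (0 : ℝ) < n.choose r := by exact_mod_cast Nat.choose_pos (by omega)
  have hc1 : (0 : ℝ) < n.choose (r - 1) := by exact_mod_cast Nat.choose_pos (by omega)
  have hly := lym r (by omega) (by omega) F hanti
  rw [← hFl, ← hFs] at hly
  have hrat := AE.ratio n r (by omega) (by omega)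
  have ha : (Fl.card : ℝ) * ((n : ℝ) - r + 1) ≤ r * E := by
    have h1 : (Fl.card : ℝ) * n.choose r ≤ n.choose (r - 1) * E := by nlinarith
    have h2 : ((Fl.card : ℝ) * ((n : ℝ) - r + 1)) * n.choose (r - 1) ≤
        (r * E) * n.choose (r - 1) := by
      calc ((Fl.card : ℝ) * ((n : ℝ) - r + 1)) * n.choose (r - 1) =
          Fl.card * (n.choose (r - 1) * ((n : ℝ) - r + 1)) := by ring
        _ = Fl.card * (n.choose r * r) := by rw [hrat]
        _ = (Fl.card * n.choose r) * r := by ring
        _ ≤ (n.choose (r - 1) * E) * r := mul_le_mul_of_nonneg_right h1 (by linarith)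
        _ = _ := by ring
    exact le_of_mul_le_mul_right h2 hc1
  have hEnn : (0 : ℝ) ≤ E := Nat.cast_nonneg _
  have hFlnn : (0 : ℝ) ≤ Fl.card := Nat.cast_nonneg _
  have hb : 23 * (Fl.card : ℝ) ≤ E := by
    have h1 : (23 * (Fl.card : ℝ)) * r ≤ E * r := by nlinarith
    exact le_of_mul_le_mul_right h1 (by linarith)
  have hb' : (n : ℝ) * E ≤ 10 * r * n.choose r := by
    have h1 : (((n - 9 * r) * n.choose r : ℕ) : ℝ) <
        ((n * (F.filter (fun A => A.card ≤ r)).card : ℕ) : ℝ) := by exact_mod_cast hdense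
    rw [hsp1] at h1
    rw [Nat.cast_mul, Nat.cast_mul, Nat.cast_sub (by omega)] at h1
    push_cast at h1
    have h2 : (Fs.card : ℝ) = n.choose r - E := by linarith
    rw [h2] at h1
    have h3 : (n : ℝ) * (23 * Fl.card) ≤ n * E := mul_le_mul_of_nonneg_left hb (by linarith)
    nlinarith [mul_pos (show (0 : ℝ) < r by linarith) hc0]
  have hE4 : 4 * (E : ℝ) ≤ n.choose r := by
    have h1 : (n : ℝ) * (4 * E) ≤ n * n.choose r := by
      have h2 : (40 * (r : ℝ)) * n.choose r ≤ n * n.choose r :=
        mul_le_mul_of_nonneg_right hnR hc0.le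
      linarith
    exact le_of_mul_le_mul_left h1 hn0
  have hdens : 3 * n.choose r ≤ 4 * Fs.card := by
    have h1 : (3 : ℝ) * n.choose r ≤ 4 * Fs.card := by linarith
    exact_mod_cast h1
  -- the threshold
  have hEc : E < n.choose r := by
    have : (E : ℝ) < n.choose r := by linarith
    exact_mod_cast this
  have hex : ∃ x : ℕ, E < x.choose r := ⟨n, hEc⟩
  obtain ⟨x, hxdef⟩ : ∃ x : ℕ, x = Nat.find hex := ⟨_, rfl⟩
  have hxE : E < x.choose r := by rw [hxdef]; exact Nat.find_spec hex
  have hxn : x ≤ n := by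
    rw [hxdef]
    exact Nat.find_min' hex hEc
  have hx0 : 1 ≤ x := by
    by_contra h
    have : x = 0 := by omega
    rw [this, Nat.choose_eq_zero_of_lt (by omega)] at hxE
    omega
  have hxm : (x - 1).choose r ≤ E := by
    have := Nat.find_min hex (m := x - 1) (by omega)
    omega
  have hxmR : ((x - 1).choose r : ℝ) ≤ E := by exact_mod_cast hxm
  have hkk : ∀ a, r < a → a < 3 * r → (G.filter (fun A => A.card = a)).card ≤ x.choose (n - a) := by
    intro a h1 h2
    apply kk r a x E h1 (by omega) hxn hxE (G.filter (fun A => A.card = a)) Fs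
    · intro A hA; exact (mem_filter.1 hA).2
    · intro T hT
      exact (hFs' T hT).2
    · intro T hT A hA
      rw [mem_filter] at hA
      exact hd T (hFs' T hT).1 A (hG' A hA.1).1
    · omega
  obtain ⟨J, hJ⟩ : ∃ J, J = n - x := ⟨_, rfl⟩
  obtain ⟨G1, hG1⟩ : ∃ G1, G1 = G.filter (fun A => A.card < r + J) := ⟨_, rfl⟩
  obtain ⟨G2, hG2⟩ : ∃ G2, G2 = G.filter (fun A => ¬ A.card < r + J) := ⟨_, rfl⟩
  have hGsp : G1.card + G2.card = G.card := by
    rw [hG1, hG2]
    exact card_filter_add_card_filter_not (s := G) (fun A => A.card < r + J)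
  have hG1' : ∀ A ∈ G1, A ∈ G ∧ A.card < r + J := fun A hA => by rwa [hG1, mem_filter] at hA
  have hG2' : ∀ A ∈ G2, A ∈ G ∧ ¬ A.card < r + J := fun A hA => by rwa [hG2, mem_filter] at hA
  -- the smaller members
  have hsmall : 19 * (G1.card : ℝ) ≤ 2 * E := by
    rcases G1.eq_empty_or_nonempty with h0 | ⟨A0, hA0⟩
    · rw [h0, card_empty]; push_cast; linarith
    · have hx21 : 21 * r ≤ x := by
        have h1 := hG1' A0 hA0
        have h2 := hG' A0 h1.1
        have h3 := hmax A0 h2.1
        have h4 := hkk A0.card (by omega) (by omega)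
        have h5 : 0 < (G.filter (fun A => A.card = A0.card)).card := by
          rw [card_pos]
          exact ⟨A0, mem_filter.2 ⟨h1.1, rfl⟩⟩
        by_contra h
        rw [Nat.choose_eq_zero_of_lt (by omega)] at h4
        omega
      have hGsum : G1.card ≤ 2 * x.choose (r - 1) := by
        obtain ⟨M, hM⟩ : ∃ M, M = min (r + J - 1) (3 * r - 1) := ⟨_, rfl⟩
        have h1 : G1.card = ∑ a ∈ Icc (r + 1) M, (G1.filter (fun A => A.card = a)).card := by
          apply card_eq_sum_card_fiberwise
          intro A hA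
          rw [mem_coe] at hA
          have h1 := hG1' A hA
          have h2 := hG' A h1.1
          have h3 := hmax A h2.1
          rw [coe_Icc, Set.mem_Icc]
          omega
        have h2 : ∑ a ∈ Icc (r + 1) M, (G1.filter (fun A => A.card = a)).card ≤
            ∑ a ∈ Icc (r + 1) M, if J ≤ a then x.choose (a - J) else 0 := by
          apply sum_le_sum
          intro a ha
          rw [mem_Icc] at ha
          have h3 : (G1.filter (fun A => A.card = a)).card ≤
              (G.filter (fun A => A.card = a)).card := by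
            apply card_le_card
            apply filter_subset_filter
            intro A hA
            exact (hG1' A hA).1
          refine (h3.trans (hkk a (by omega) (by omega))).trans (le_of_eq ?_)
          by_cases h3 : J ≤ a
          · rw [if_pos h3]
            rw [← Nat.choose_symm (show n - a ≤ x by omega)]
            congr 1
            omega
          · rw [if_neg h3, Nat.choose_eq_zero_of_lt (by omega)]
        have h3 : ∑ a ∈ Icc (r + 1) M, (if J ≤ a then x.choose (a - J) else 0) ≤
            ∑ i ∈ range (r - 1 + 1), x.choose i := by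
          rw [← sum_filter]
          have h4 : ∑ a ∈ (Icc (r + 1) M).filter (fun a => J ≤ a), x.choose (a - J) =
              ∑ i ∈ ((Icc (r + 1) M).filter (fun a => J ≤ a)).image (fun a => a - J),
                x.choose i := by
            rw [sum_image]
            intro a ha b hb hab
            rw [mem_coe, mem_filter] at ha hb
            simp only at hab
            omega
          rw [h4]
          apply sum_le_sum_of_subset
          intro i hi
          rw [mem_image] at hi
          obtain ⟨a, ha, rfl⟩ := hi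
          rw [mem_filter, mem_Icc] at ha
          rw [mem_range]
          omega
        have h4 := sum_low x (r - 1) (by omega)
        omega
      have h19 : 19 * (x.choose (r - 1) : ℝ) ≤ (x - 1).choose r := by
        have hxR : (21 : ℝ) * r ≤ x := by exact_mod_cast hx21
        apply num2 x r _ _ (by linarith) hxR (Nat.cast_nonneg _)
        have h1 := AE.ratio x r (by omega) (by omega)
        have h2 := Nat.choose_mul_succ_eq (x - 1) r
        have e1 : x - 1 + 1 = x := by omega
        rw [e1] at h2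
        have h3 : (((x - 1).choose r * x : ℕ) : ℝ) = ((x.choose r * (x - r) : ℕ) : ℝ) := by rw [h2]
        rw [Nat.cast_mul, Nat.cast_mul, Nat.cast_sub (by omega)] at h3
        calc ((x - 1).choose r : ℝ) * x * r = (x.choose r * ((x : ℝ) - r)) * r := by rw [h3]
          _ = (x.choose r * r) * ((x : ℝ) - r) := by ring
          _ = _ := by rw [h1]
      have h1 : (G1.card : ℝ) ≤ 2 * x.choose (r - 1) := by exact_mod_cast hGsum
      linarith
  -- the larger members
  have hlarge : 2 * (G2.card : ℝ) ≤ E := by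
    rcases G2.eq_empty_or_nonempty with h0 | ⟨A0, hA0⟩
    · rw [h0, card_empty]; push_cast; linarith
    · have g1 := hG2' A0 hA0
      have g2 := hG' A0 g1.1
      have g3 := hmax A0 g2.1
      have hJ2 : J + 1 ≤ 2 * r := by omega
      -- lower bound for `J`
      have hJβ : 2 * (n / (4 * r)) ≤ J ∧ 2 ≤ J := by
        have h1 := bern (n := n) r J (by omega)
        have e1 : n - (J + 1) = x - 1 := by omega
        rw [e1] at h1
        have hJR : (J : ℝ) + 1 ≤ 2 * r := by exact_mod_cast hJ2
        have hnJ : (0 : ℝ) < (n : ℝ) - J := by linarith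
        have h3 : (n : ℝ) * (n.choose r * (1 - ((J : ℝ) + 1) * (r / ((n : ℝ) - J)))) ≤
            10 * r * n.choose r :=
          (mul_le_mul_of_nonneg_left (h1.trans hxmR) (by linarith)).trans hb'
        have h4 : ((n : ℝ) * (1 - ((J : ℝ) + 1) * (r / ((n : ℝ) - J)))) * n.choose r ≤
            (10 * r) * n.choose r := by linarith
        have h5 := le_of_mul_le_mul_right h4 hc0
        have h6 : ((n : ℝ) * (1 - ((J : ℝ) + 1) * (r / ((n : ℝ) - J)))) * ((n : ℝ) - J) ≤
            (10 * r) * ((n : ℝ) - J) := mul_le_mul_of_nonneg_right h5 hnJ.le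
        have h7 : ((n : ℝ) * (1 - ((J : ℝ) + 1) * (r / ((n : ℝ) - J)))) * ((n : ℝ) - J) =
            n * ((n : ℝ) - J) - n * (((J : ℝ) + 1) * r) := by
          field_simp
        rw [h7] at h6
        -- `(n - 10 r) (n - J) ≤ n (J + 1) r`
        have h8 : (3 / 4 * (n : ℝ)) * ((n : ℝ) - 2 * r) ≤ n * (((J : ℝ) + 1) * r) := by
          have h9 : (3 / 4 * (n : ℝ)) * ((n : ℝ) - 2 * r) ≤ ((n : ℝ) - 10 * r) * ((n : ℝ) - J) := by
            apply mul_le_mul
            · linarith
            · linarith
            · linarith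
            · linarith
          linarith
        have h10 : (3 / 4 : ℝ) * ((n : ℝ) - 2 * r) ≤ ((J : ℝ) + 1) * r := by
          have h11 : (n : ℝ) * (3 / 4 * ((n : ℝ) - 2 * r)) ≤ n * (((J : ℝ) + 1) * r) := by linarith
          exact le_of_mul_le_mul_left h11 hn0
        obtain ⟨β, hβ⟩ : ∃ β : ℕ, β = n / (4 * r) := ⟨_, rfl⟩
        have hβ10 : 10 ≤ β := by
          rw [hβ, Nat.le_div_iff_mul_le (by omega)]; omega
        have hβn : β * (4 * r) ≤ n := by rw [hβ]; exact Nat.div_mul_le_self n (4 * r)
        have hβnR : (β : ℝ) * (4 * r) ≤ n := by exact_mod_cast hβn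
        have hβR : (10 : ℝ) ≤ β := by exact_mod_cast hβ10
        have h12 : (2 * (β : ℝ)) * r ≤ (J : ℝ) * r := by nlinarith
        have h13 : 2 * (β : ℝ) ≤ J := le_of_mul_le_mul_right h12 (by linarith)
        have h14 : 2 * β ≤ J := by exact_mod_cast h13
        rw [← hβ]
        omega
      have hlev : ∀ j, J ≤ j → j < 2 * r →
          ((G2.filter (fun A => A.card = r + j)).card : ℝ) ≤ 2 * n.choose r * (1 / 8 : ℝ) ^ j := by
        intro j hj1 hj2
        have h1 := large_level r j hr hn hj2.le (by omega) Fs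
          (G2.filter (fun A => A.card = r + j)) (fun T hT => (hFs' T hT).2)
          (fun A hA => (mem_filter.1 hA).2) (by
            intro T hT A hA
            rw [mem_filter] at hA
            have h3 := hd T (hFs' T hT).1 A (hG' A (hG2' A hA.1).1).1
            have h4 := card_sdiff_add_card_inter T A
            have h5 := card_sdiff_add_card_inter A T
            rw [inter_comm A T] at h5
            have h6 := (hFs' T hT).2
            omega) hdens
        have h8 : (8 : ℝ) ^ j * (1 / 8 : ℝ) ^ j = 1 := by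
          rw [← mul_pow]; norm_num
        calc ((G2.filter (fun A => A.card = r + j)).card : ℝ) =
            ((G2.filter (fun A => A.card = r + j)).card * 8 ^ j) * (1 / 8 : ℝ) ^ j := by
              rw [mul_assoc, h8, mul_one]
          _ ≤ (2 * n.choose r) * (1 / 8 : ℝ) ^ j :=
              mul_le_mul_of_nonneg_right h1 (by positivity)
      have hsum : (G2.card : ℝ) ≤ 2 * n.choose r * (8 / 7 * (1 / 8 : ℝ) ^ J) := by
        have h1 : G2.card = ∑ j ∈ Ico J (2 * r), (G2.filter (fun A => A.card = r + j)).card := by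
          have h2 : G2.card = ∑ j ∈ Ico J (2 * r), (G2.filter (fun A => A.card - r = j)).card := by
            apply card_eq_sum_card_fiberwise (f := fun A : Finset (Fin n) => A.card - r)
            intro A hA
            rw [mem_coe] at hA
            have h1 := hG2' A hA
            have h2 := hG' A h1.1
            have h3 := hmax A h2.1
            rw [coe_Ico, Set.mem_Ico]
            show J ≤ A.card - r ∧ A.card - r < 2 * r
            omega
          rw [h2]
          apply sum_congr rfl
          intro j _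
          congr 1
          apply filter_congr
          intro A hA
          have h1 := hG' A (hG2' A hA).1
          omega
        have h1R : (G2.card : ℝ) = ∑ j ∈ Ico J (2 * r),
            ((G2.filter (fun A => A.card = r + j)).card : ℝ) := by
          exact_mod_cast h1
        rw [h1R]
        calc ∑ j ∈ Ico J (2 * r), ((G2.filter (fun A => A.card = r + j)).card : ℝ) ≤
            ∑ j ∈ Ico J (2 * r), 2 * n.choose r * (1 / 8 : ℝ) ^ j := by
              apply sum_le_sum
              intro j hj
              rw [mem_Ico] at hj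
              exact hlev j hj.1 hj.2
          _ = 2 * n.choose r * ∑ j ∈ Ico J (2 * r), (1 / 8 : ℝ) ^ j := by rw [mul_sum]
          _ ≤ _ := mul_le_mul_of_nonneg_left (geo J (2 * r)) (by positivity)
      have hhalf := halve n r (J + 1) (by omega)
      have e1 : n - (J + 1) = x - 1 := by omega
      rw [e1] at hhalf
      have hhalfR : (n.choose r : ℝ) ≤ 2 ^ (J + 1) * (x - 1).choose r := by exact_mod_cast hhalf
      have h18 : (1 / 8 : ℝ) ^ J * 2 ^ (J + 1) ≤ 1 / 8 := by
        have e2 : (1 / 8 : ℝ) ^ J * 2 ^ (J + 1) = 2 * (1 / 4 : ℝ) ^ J := by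
          rw [pow_succ, ← mul_assoc, ← mul_pow]
          norm_num
          ring
        rw [e2]
        have h3 : (1 / 4 : ℝ) ^ J ≤ (1 / 4 : ℝ) ^ 2 :=
          pow_le_pow_of_le_one (by norm_num) (by norm_num) hJβ.2
        linarith
      have h19 : (n.choose r : ℝ) * (1 / 8 : ℝ) ^ J ≤ 1 / 8 * E := by
        calc (n.choose r : ℝ) * (1 / 8 : ℝ) ^ J ≤
            (2 ^ (J + 1) * (x - 1).choose r) * (1 / 8 : ℝ) ^ J :=
              mul_le_mul_of_nonneg_right hhalfR (by positivity)
          _ = ((1 / 8 : ℝ) ^ J * 2 ^ (J + 1)) * (x - 1).choose r := by ring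
          _ ≤ 1 / 8 * (x - 1).choose r := mul_le_mul_of_nonneg_right h18 (Nat.cast_nonneg _)
          _ ≤ 1 / 8 * E := mul_le_mul_of_nonneg_left hxmR (by norm_num)
      have h20 : 2 * (n.choose r : ℝ) * (8 / 7 * (1 / 8 : ℝ) ^ J) =
          16 / 7 * ((n.choose r : ℝ) * (1 / 8 : ℝ) ^ J) := by ring
      rw [h20] at hsum
      linarith
  have hfin : (G.card : ℝ) + Fl.card ≤ E := by
    have h1 : (G.card : ℝ) = G1.card + G2.card := by exact_mod_cast hGsp.symm
    rw [h1]
    linarith
  have hfinN : G.card + Fl.card ≤ E := by exact_mod_cast hfin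
  omega

theorem even_linear (n r : ℕ) (hr : 1 ≤ r) (hn : 40 * r ≤ n)
    (F : Finset (Finset (Fin n)))
    (hanti : ∀ A ∈ F, ∀ B ∈ F, A ⊆ B → A = B)
    (hd : ∀ A ∈ F, ∀ B ∈ F, (A \ B).card + (B \ A).card ≤ 2 * r) : F.card ≤ n.choose r := by
  by_cases h8 : 8 ≤ r
  · refine reduce n r 0 (by omega) hr (by omega) (fun _ => True) ?_ F hanti (by simpa using hd)
      trivial (fun _ _ => trivial)
    intro G h1 h2 h3 _
    rcases le_or_gt (n * (G.filter (fun A => A.card ≤ r)).card) ((n - 9 * r) * n.choose r) with h | h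
    · exact sparse_low n r 0 (by omega) hr (by omega) G h1 h2 h3 h
    · exact dense_low2 r h8 hn G h1 (by simpa using h2) h3 h
  · apply even_range n r hr (by omega) _ F hanti hd
    have h1 : (40 * r) ^ 2 ≤ n ^ 2 := Nat.pow_le_pow_left hn 2
    have h2 : 8 * r ^ 3 ≤ (40 * r) ^ 2 := by
      have h3 : r ≤ 7 := by omega
      calc 8 * r ^ 3 = (8 * r) * r ^ 2 := by ring
        _ ≤ (8 * 7) * r ^ 2 := Nat.mul_le_mul_right _ (by omega)
        _ ≤ 1600 * r ^ 2 := Nat.mul_le_mul_right _ (by norm_num)
        _ = (40 * r) ^ 2 := by ring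
    exact h2.trans h1

end Pool.Agent.H66.AF
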