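import Pool.Agent.H66.AF4
set_option autoImplicit false
set_option maxHeartbeats 1000000
open Finset
open scoped FinsetFamily

/-! Odd diameter: variants of the level estimates. -/

namespace Pool.Agent.H66.AF

open Pool.Agent.H66.AE

variable {n : ℕ}

theorem pw' (β : ℕ) (hβ : 10 ≤ β) : 4096 * (β + 1) ^ 2 ≤ 4 ^ β := by
  induction β, hβ using Nat.le_induction with
  | base => norm_num
  | succ m hm ih =>
    have h1 : 4 ^ (m + 1) = 4 * 4 ^ m := by rw [pow_succ]; ring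
    have h2 : (m + 1 + 1) ^ 2 ≤ 4 * (m + 1) ^ 2 := by nlinarith
    rw [h1]
    calc 4096 * (m + 1 + 1) ^ 2 ≤ 4096 * (4 * (m + 1) ^ 2) := Nat.mul_le_mul_left _ h2
      _ = 4 * (4096 * (m + 1) ^ 2) := by ring
      _ ≤ 4 * 4 ^ m := Nat.mul_le_mul_left _ ih

theorem pw2 (β : ℕ) (hβ : 10 ≤ β) : 32 * (β + 1) ≤ 2 ^ β := by
  induction β, hβ using Nat.le_induction with
  | base => norm_num
  | succ m hm ih =>
    have h1 : 2 ^ (m + 1) = 2 * 2 ^ m := by rw [pow_succ]; ring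
    omega

/-- the Kruskal–Katona step for cross-intersecting families -/
theorem kk' (r a x E : ℕ) (hra : r < a) (han : a + r ≤ n) (hx : x ≤ n) (hE : E < x.choose r)
    (G H : Finset (Finset (Fin n))) (hG : ∀ A ∈ G, A.card = a) (hH : ∀ T ∈ H, T.card = r)
    (hcr : ∀ T ∈ H, ∀ A ∈ G, ¬ Disjoint T A)
    (hEH : n.choose r ≤ H.card + E) :
    G.card ≤ x.choose (n - a) := by
  classical
  set 𝒜 : Finset (Finset (Fin n)) := G.image (fun A => Aᶜ) with h𝒜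
  have hcard : 𝒜.card = G.card := card_image_of_injective _ compl_injective
  have hsz : (𝒜 : Set (Finset (Fin n))).Sized (n - a) := by
    intro B hB
    rw [mem_coe, h𝒜, mem_image] at hB
    obtain ⟨A, hA, rfl⟩ := hB
    rw [c_compl, hG A hA]
  have hsh : (∂^[n - a - r] 𝒜).card ≤ E := by
    have h1 : ∂^[n - a - r] 𝒜 ⊆ powersetCard r (univ : Finset (Fin n)) \ H := by
      intro T hT
      rw [mem_shadow_iterate_iff_exists_mem_card_add] at hT
      obtain ⟨B, hB, hTB, hc⟩ := hT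
      rw [h𝒜, mem_image] at hB
      obtain ⟨A, hA, rfl⟩ := hB
      rw [c_compl, hG A hA] at hc
      rw [mem_sdiff, mem_powersetCard]
      refine ⟨⟨subset_univ _, by omega⟩, ?_⟩
      intro hTH
      apply hcr T hTH A hA
      rw [disjoint_left]
      intro y hy hyA
      exact (mem_compl.1 (hTB hy)) hyA
    have h2 := card_le_card h1
    rw [card_sdiff_of_subset, card_powersetCard, card_univ, Fintype.card_fin] at h2
    · omega
    · intro T hT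
      rw [mem_powersetCard]
      exact ⟨subset_univ _, hH T hT⟩
  by_contra hcon
  push Not at hcon
  have e1 : n - a - (n - a - r) = r := by omega
  by_cases hxa : n - a ≤ x
  · have h3 := kruskal_katona_lovasz_form (i := n - a - r) (by omega) hxa hx hsz
      (by rw [hcard]; exact hcon.le)
    rw [e1] at h3
    omega
  · have h3 := kruskal_katona_lovasz_form (i := n - a - r) (k := n - a) (by omega) le_rfl
      (by omega) hsz (by rw [hcard, Nat.choose_self]; omega)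
    rw [e1] at h3
    have h4 : x.choose r ≤ (n - a).choose r := Nat.choose_le_choose r (by omega)
    omega

/-- one level of large members -/
theorem large_level' (r j : ℕ) (hr : 8 ≤ r) (hn : 40 * r ≤ n) (hj : j ≤ 2 * r)
    (hjβ : 2 * (n / (4 * r)) ≤ j)
    (𝒯 𝒢 : Finset (Finset (Fin n))) (h𝒯 : ∀ T ∈ 𝒯, T.card = r) (h𝒢 : ∀ A ∈ 𝒢, A.card = r + j)
    (hcr : ∀ T ∈ 𝒯, ∀ A ∈ 𝒢, j ≤ 2 * (T ∩ A).card + 1)
    (hdens : 3 * n.choose r ≤ 4 * 𝒯.card) :
    (𝒢.card : ℝ) * 8 ^ j ≤ 2 * n.choose r := by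
  classical
  have hrR : (8 : ℝ) ≤ r := by exact_mod_cast hr
  have hnR : (40 : ℝ) * r ≤ n := by exact_mod_cast hn
  have hn0 : (0 : ℝ) < n := by linarith
  obtain ⟨p, hp⟩ : ∃ p : ℝ, p = 2 * (r : ℝ) / n := ⟨_, rfl⟩
  obtain ⟨q, hq⟩ : ∃ q : ℝ, q = 4 * (r : ℝ) / n := ⟨_, rfl⟩
  obtain ⟨β, hβ⟩ : ∃ β : ℕ, β = n / (4 * r) := ⟨_, rfl⟩
  have hk := hK n r hr hn
  rw [← hp, ← hq, ← hβ] at hk
  have hp0 : 0 ≤ p := by rw [hp]; positivity
  have hq0 : 0 ≤ q := by rw [hq]; positivity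
  have hp1 : p ≤ 1 := by rw [hp, div_le_one hn0]; linarith
  have hq1 : q ≤ 1 := by rw [hq, div_le_one hn0]; linarith
  have hnp : n * p = 2 * r := by rw [hp]; field_simp
  have hnq : n * q = 4 * r := by rw [hq]; field_simp
  have hβ10 : 10 ≤ β := by
    rw [hβ, Nat.le_div_iff_mul_le (by omega)]; omega
  have hβlt : n < 4 * r * (β + 1) := by
    rw [hβ]; exact Nat.lt_mul_div_succ n (by omega)
  obtain ⟨t, ht⟩ : ∃ t, t = j / 2 := ⟨_, rfl⟩
  have hβt : β ≤ t := by omega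
  obtain ⟨x, hx⟩ : ∃ x, x = mu p (univ : Finset (Fin n)) (fun B => ∃ T ∈ 𝒯, T ⊆ B) := ⟨_, rfl⟩
  obtain ⟨y, hy⟩ : ∃ y, y = mu q (univ : Finset (Fin n)) (fun B => ∃ T ∈ 𝒢, T ⊆ B) := ⟨_, rfl⟩
  have hcross := cross p q (1 / 4) β hp0 hp1 hq0 hq1 (by norm_num) (by norm_num) hk
    (univ : Finset (Fin n)) t (fun B => ∃ T ∈ 𝒯, T ⊆ B) (fun B => ∃ T ∈ 𝒢, T ⊆ B) (by
      rintro B - ⟨T, hT, hTB⟩ B' - ⟨A, hA, hAB⟩
      have h1 := hcr T hT A hA
      have h2 : (T ∩ A).card ≤ (B ∩ B').card := card_le_card (inter_subset_inter hTB hAB)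
      omega)
  rw [← hx, ← hy] at hcross
  have hc0 : (0 : ℝ) < n.choose r := by exact_mod_cast Nat.choose_pos (by omega)
  have ht1 := transfer r p r hp0 hp1 (by linarith) (by rw [hnp]; linarith) 𝒯 h𝒯
  rw [← hx, hnp] at ht1
  have hx12 : 1 / 2 ≤ x := by
    have h1 : (3 : ℝ) / 4 ≤ 1 - 2 * r / (r : ℝ) ^ 2 := by
      have : 2 * (r : ℝ) / (r : ℝ) ^ 2 = 2 / r := by field_simp
      rw [this]
      have h2 : 2 / (r : ℝ) ≤ 1 / 4 := by
        rw [div_le_div_iff₀ (by linarith) (by norm_num)]; linarith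
      linarith
    have h3 : (3 : ℝ) * n.choose r ≤ 4 * 𝒯.card := by exact_mod_cast hdens
    have h4 : (𝒯.card : ℝ) * (3 / 4) ≤ x * n.choose r :=
      (mul_le_mul_of_nonneg_left h1 (Nat.cast_nonneg _)).trans ht1
    have h5 : (1 / 2 : ℝ) * n.choose r ≤ x * n.choose r := by nlinarith
    exact le_of_mul_le_mul_right h5 hc0
  have ht2 := transfer (r + j) q r hq0 hq1 (by linarith) (by
    rw [hnq]
    have : (j : ℝ) ≤ 2 * r := by exact_mod_cast hj
    push_cast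
    linarith) 𝒢 h𝒢
  rw [← hy, hnq] at ht2
  have hG1 : (𝒢.card : ℝ) ≤ 2 * (y * n.choose (r + j)) := by
    have h1 : (1 : ℝ) / 2 ≤ 1 - 4 * r / (r : ℝ) ^ 2 := by
      have : 4 * (r : ℝ) / (r : ℝ) ^ 2 = 4 / r := by field_simp
      rw [this]
      have h2 : 4 / (r : ℝ) ≤ 1 / 2 := by
        rw [div_le_div_iff₀ (by linarith) (by norm_num)]; linarith
      linarith
    have h4 : (𝒢.card : ℝ) * (1 / 2) ≤ y * n.choose (r + j) :=
      (mul_le_mul_of_nonneg_left h1 (Nat.cast_nonneg _)).trans ht2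
    linarith
  -- `y ≤ 2 ^ β * (1 / 4) ^ (β t)`
  have hy0 : 0 ≤ y := by rw [hy]; exact mu_nonneg q hq0 hq1 _ _
  have hyb : y ≤ 2 ^ β * ((1 / 4 : ℝ) ^ β) ^ t := by
    have h1 : (1 / 2 : ℝ) ^ β ≤ x ^ β := pow_le_pow_left₀ (by norm_num) hx12 _
    have h2 : y * (1 / 2 : ℝ) ^ β ≤ ((1 / 4 : ℝ) ^ β) ^ t :=
      (mul_le_mul_of_nonneg_left h1 hy0).trans hcross
    have h3 : (2 : ℝ) ^ β * (1 / 2 : ℝ) ^ β = 1 := by
      rw [← mul_pow]; norm_num
    calc y = 2 ^ β * (y * (1 / 2 : ℝ) ^ β) := by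
          rw [mul_comm y, ← mul_assoc, h3, one_mul]
      _ ≤ _ := mul_le_mul_of_nonneg_left h2 (by positivity)
  -- the binomial coefficient
  have hup := choose_up n r j (by omega) (by omega)
  have hupR : (n.choose (r + j) : ℝ) * (r : ℝ) ^ j ≤ n.choose r * (n : ℝ) ^ j := by
    exact_mod_cast hup
  have hB1 : (1 : ℝ) ≤ 4 * (β + 1) := by
    have : (0 : ℝ) ≤ β := Nat.cast_nonneg _
    linarith
  have hch : (n.choose (r + j) : ℝ) ≤
      n.choose r * ((16 * ((β : ℝ) + 1) ^ 2) ^ t * (4 * (β + 1))) := by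
    have h1 : (n : ℝ) ≤ (4 * (β + 1)) * r := by
      have : ((n : ℕ) : ℝ) ≤ ((4 * r * (β + 1) : ℕ) : ℝ) := by exact_mod_cast hβlt.le
      push_cast at this
      linarith
    have h2 : (n : ℝ) ^ j ≤ ((4 * ((β : ℝ) + 1)) * r) ^ j := pow_le_pow_left₀ hn0.le h1 _
    have h3 : (n.choose (r + j) : ℝ) * (r : ℝ) ^ j ≤
        (n.choose r * (4 * ((β : ℝ) + 1)) ^ j) * (r : ℝ) ^ j := by
      refine hupR.trans ((mul_le_mul_of_nonneg_left h2 hc0.le).trans (le_of_eq ?_))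
      rw [mul_pow]; ring
    have h4 := le_of_mul_le_mul_right h3 (pow_pos (by linarith) j)
    refine h4.trans ?_
    apply mul_le_mul_of_nonneg_left _ hc0.le
    calc (4 * ((β : ℝ) + 1)) ^ j ≤ (4 * ((β : ℝ) + 1)) ^ (2 * t + 1) :=
          pow_le_pow_right₀ hB1 (by omega)
      _ = (16 * ((β : ℝ) + 1) ^ 2) ^ t * (4 * (β + 1)) := by
          rw [pow_succ, pow_mul]; congr 2; ring
  have h8 : (8 : ℝ) ^ j ≤ 64 ^ t * 8 := by
    calc (8 : ℝ) ^ j ≤ 8 ^ (2 * t + 1) := pow_le_pow_right₀ (by norm_num) (by omega)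
      _ = 64 ^ t * 8 := by rw [pow_succ, pow_mul]; norm_num
  have h2t : (2 : ℝ) ^ β ≤ 2 ^ t := pow_le_pow_right₀ (by norm_num) hβt
  have h32 : 32 * ((β : ℝ) + 1) ≤ 2 ^ t := by
    have h1 := pw2 β hβ10
    have h2 : 32 * ((β : ℝ) + 1) ≤ 2 ^ β := by exact_mod_cast h1
    exact h2.trans h2t
  have hν : (4 * ((1 / 4 : ℝ) ^ β) * (16 * ((β : ℝ) + 1) ^ 2) * 64) ^ t ≤ 1 := by
    apply pow_le_one₀ (by positivity)
    have h5 := pw' β hβ10
    have h6 : (4096 : ℝ) * ((β : ℝ) + 1) ^ 2 ≤ 4 ^ β := by exact_mod_cast h5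
    have h7 : (4 : ℝ) ^ β * (1 / 4 : ℝ) ^ β = 1 := by
      rw [← mul_pow]; norm_num
    calc 4 * ((1 / 4 : ℝ) ^ β) * (16 * ((β : ℝ) + 1) ^ 2) * 64 =
        (4096 * ((β : ℝ) + 1) ^ 2) * (1 / 4 : ℝ) ^ β := by ring
      _ ≤ 4 ^ β * (1 / 4 : ℝ) ^ β := mul_le_mul_of_nonneg_right h6 (by positivity)
      _ = 1 := h7
  calc (𝒢.card : ℝ) * 8 ^ j ≤ (2 * (y * n.choose (r + j))) * (64 ^ t * 8) := by
        apply mul_le_mul hG1 h8 (by positivity)
        exact mul_nonneg (by norm_num) (mul_nonneg hy0 (Nat.cast_nonneg _))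
    _ ≤ (2 * ((2 ^ t * ((1 / 4 : ℝ) ^ β) ^ t) *
          (n.choose r * ((16 * ((β : ℝ) + 1) ^ 2) ^ t * (4 * (β + 1)))))) * (64 ^ t * 8) := by
        apply mul_le_mul_of_nonneg_right _ (by positivity)
        apply mul_le_mul_of_nonneg_left _ (by norm_num)
        apply mul_le_mul _ hch (Nat.cast_nonneg _) (by positivity)
        exact hyb.trans (mul_le_mul_of_nonneg_right h2t (by positivity))
    _ = (2 * n.choose r * (2 * ((1 / 4 : ℝ) ^ β) * (16 * ((β : ℝ) + 1) ^ 2) * 64) ^ t) *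
          (32 * ((β : ℝ) + 1)) := by
        rw [pw4]; ring
    _ ≤ (2 * n.choose r * (2 * ((1 / 4 : ℝ) ^ β) * (16 * ((β : ℝ) + 1) ^ 2) * 64) ^ t) * 2 ^ t :=
        mul_le_mul_of_nonneg_left h32 (by positivity)
    _ = 2 * n.choose r * (4 * ((1 / 4 : ℝ) ^ β) * (16 * ((β : ℝ) + 1) ^ 2) * 64) ^ t := by
        rw [mul_assoc, ← mul_pow]
        congr 2
        ring
    _ ≤ 2 * n.choose r * 1 := mul_le_mul_of_nonneg_left hν (by positivity)
    _ = 2 * n.choose r := mul_one _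

end Pool.Agent.H66.AF
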