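import Pool.Agent.H66.AG1
set_option autoImplicit false
set_option maxHeartbeats 1000000
open Finset

/-! Antichains of odd diameter: many members of size at most `r`. -/

namespace Pool.Agent.H66.AF

open Pool.Agent.H66.AE

variable {n : ℕ}

theorem low_small (r : ℕ) (hr : 1 ≤ r) (hn : 24 * r ≤ n) (Fl D : Finset (Finset (Fin n)))
    (hFl : ∀ A ∈ Fl, A.card < r) (hD : ∀ T ∈ D, T.card = r)
    (h1 : ∀ A ∈ Fl, ∀ B ∈ Fl, A ⊆ B → A = B) (h2 : ∀ A ∈ Fl, ∀ T ∈ D, ¬ A ⊆ T)
    (E : ℕ) (hE : D.card + E = n.choose r) : 23 * (Fl.card : ℝ) ≤ E := by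
  classical
  have hly := lym r hr (by omega) (Fl ∪ D) (by
    intro A hA B hB hAB
    rw [mem_union] at hA hB
    rcases hA with hA | hA
    · rcases hB with hB | hB
      · exact h1 A hA B hB hAB
      · exact absurd hAB (h2 A hA B hB)
    · rcases hB with hB | hB
      · have h3 := card_le_card hAB
        have h4 := hD A hA
        have h5 := hFl B hB
        omega
      · apply eq_of_subset_of_card_le hAB
        rw [hD A hA, hD B hB])
  have e1 : (Fl ∪ D).filter (fun A => A.card < r) = Fl := by
    ext A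
    rw [mem_filter, mem_union]
    constructor
    · rintro ⟨h3 | h3, h4⟩
      · exact h3
      · have := hD A h3
        omega
    · intro h3
      exact ⟨Or.inl h3, hFl A h3⟩
  have e2 : (Fl ∪ D).filter (fun A => A.card = r) = D := by
    ext A
    rw [mem_filter, mem_union]
    constructor
    · rintro ⟨h3 | h3, h4⟩
      · have := hFl A h3
        omega
      · exact h3
    · intro h3
      exact ⟨Or.inr h3, hD A h3⟩
  rw [e1, e2] at hly
  have hER : (D.card : ℝ) + E = n.choose r := by exact_mod_cast hE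
  have hrR : (1 : ℝ) ≤ r := by exact_mod_cast hr
  have hnR : (24 : ℝ) * r ≤ n := by exact_mod_cast hn
  have hc1 : (0 : ℝ) < n.choose (r - 1) := by exact_mod_cast Nat.choose_pos (by omega)
  have hrat := AE.ratio n r (by omega) (by omega)
  have ha : (Fl.card : ℝ) * ((n : ℝ) - r + 1) ≤ r * E := by
    have h1 : (Fl.card : ℝ) * n.choose r ≤ n.choose (r - 1) * E := by nlinarith
    have h2 : ((Fl.card : ℝ) * ((n : ℝ) - r + 1)) * n.choose (r - 1) ≤
        (r * E) * n.choose (r - 1) := by
      calc ((Fl.card : ℝ) * ((n : ℝ) - r + 1)) * n.choose (r - 1) =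
          Fl.card * (n.choose (r - 1) * ((n : ℝ) - r + 1)) := by ring
        _ = Fl.card * (n.choose r * r) := by rw [hrat]
        _ = (Fl.card * n.choose r) * r := by ring
        _ ≤ (n.choose (r - 1) * E) * r := mul_le_mul_of_nonneg_right h1 (by linarith)
        _ = _ := by ring
    exact le_of_mul_le_mul_right h2 hc1
  have hEnn : (0 : ℝ) ≤ E := Nat.cast_nonneg _
  have hFlnn : (0 : ℝ) ≤ Fl.card := Nat.cast_nonneg _
  have h1 : (23 * (Fl.card : ℝ)) * r ≤ E * r := by nlinarith
  exact le_of_mul_le_mul_right h1 (by linarith)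

theorem dense_odd (r b : ℕ) (hr : 1 ≤ r) (hn : 40 * r ≤ n) (hb1 : r ≤ b) (hb2 : b ≤ r + 2)
    (F : Finset (Finset (Fin n)))
    (hanti : ∀ A ∈ F, ∀ B ∈ F, A ⊆ B → A = B)
    (hd : ∀ A ∈ F, ∀ B ∈ F, (A \ B).card + (B \ A).card ≤ 2 * r + 1)
    (hmax : ∀ A ∈ F, A.card + 1 ≤ 3 * r)
    (hgap : ∀ A ∈ F, A.card ≠ b + 1)
    (hdense : (n - 9 * r) * n.choose r < n * (F.filter (fun A => A.card ≤ r)).card) :
    F.card ≤ n.choose r := by
  classical
  obtain ⟨Fl, hFl⟩ : ∃ Fl, Fl = F.filter (fun A => A.card < r) := ⟨_, rfl⟩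
  obtain ⟨Fs, hFs⟩ : ∃ Fs, Fs = F.filter (fun A => A.card = r) := ⟨_, rfl⟩
  obtain ⟨Bs, hBs⟩ : ∃ Bs, Bs = (F.filter (fun A => ¬ A.card ≤ r)).filter
    (fun A => A.card ≤ b) := ⟨_, rfl⟩
  obtain ⟨G, hG⟩ : ∃ G, G = (F.filter (fun A => ¬ A.card ≤ r)).filter
    (fun A => ¬ A.card ≤ b) := ⟨_, rfl⟩
  have hsp1 : (F.filter (fun A => A.card ≤ r)).card = Fl.card + Fs.card := by
    rw [hFl, hFs, ← card_union_of_disjoint]
    · congr 1
      ext A
      simp only [mem_union, mem_filter]
      constructor
      · rintro ⟨h1, h2⟩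
        rcases h2.lt_or_eq with h3 | h3
        · exact Or.inl ⟨h1, h3⟩
        · exact Or.inr ⟨h1, h3⟩
      · rintro (⟨h1, h2⟩ | ⟨h1, h2⟩)
        · exact ⟨h1, h2.le⟩
        · exact ⟨h1, h2.le⟩
    · rw [disjoint_left]
      intro A hA hB
      rw [mem_filter] at hA hB
      omega
  have hsp2 : Bs.card + G.card = (F.filter (fun A => ¬ A.card ≤ r)).card := by
    rw [hBs, hG]
    exact card_filter_add_card_filter_not (s := F.filter (fun A => ¬ A.card ≤ r))
      (fun A => A.card ≤ b)
  have hsp : Fl.card + Fs.card + (Bs.card + G.card) = F.card := by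
    rw [← hsp1, hsp2]
    exact card_filter_add_card_filter_not (s := F) (fun A => A.card ≤ r)
  have hFl' : ∀ T ∈ Fl, T ∈ F ∧ T.card < r := fun T hT => by rwa [hFl, mem_filter] at hT
  have hFs' : ∀ T ∈ Fs, T ∈ F ∧ T.card = r := fun T hT => by rwa [hFs, mem_filter] at hT
  have hBs' : ∀ A ∈ Bs, A ∈ F ∧ r < A.card ∧ A.card ≤ b := fun A hA => by
    rw [hBs, mem_filter, mem_filter] at hA
    exact ⟨hA.1.1, by omega, hA.2⟩
  have hG' : ∀ A ∈ G, A ∈ F ∧ b + 2 ≤ A.card := fun A hA => by
    rw [hG, mem_filter, mem_filter] at hA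
    have := hgap A hA.1.1
    exact ⟨hA.1.1, by omega⟩
  -- the shadow of the base levels
  obtain ⟨TB, hTB, hTBc⟩ := Pool.Agent.H173R2.AntiDiam.card_le_of_inj r Bs (by
    intro c hc h0
    apply Pool.Agent.H173R2.AntiDiam.two_size' r (r + 1) (r + 2) Bs _ _ _ _ c hc h0
    · intro A hA B hB
      exact hanti A (hBs' A hA).1 B (hBs' B hB).1
    · intro A hA B hB hAB
      have h1 := hd A (hBs' A hA).1 B (hBs' B hB).1
      have h2 := card_sdiff_add_card_inter A B
      have h3 := card_sdiff_add_card_inter B A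
      rw [inter_comm B A] at h3
      omega
    · intro A hA
      exact (hBs' A hA).2.1
    · intro A hA
      have := hBs' A hA
      omega)
  have hdisj : Disjoint Fs TB := by
    rw [disjoint_left]
    intro T hT hT2
    obtain ⟨h1, X, hX, hTX⟩ := hTB T hT2
    have h2 := hanti T (hFs' T hT).1 X (hBs' X hX).1 hTX
    have h3 := (hBs' X hX).2.1
    rw [← h2] at h3
    omega
  obtain ⟨D, hD⟩ : ∃ D, D = Fs ∪ TB := ⟨_, rfl⟩
  have hDc : D.card = Fs.card + TB.card := by
    rw [hD, card_union_of_disjoint hdisj]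
  have hDr : ∀ T ∈ D, T.card = r := by
    intro T hT
    rw [hD, mem_union] at hT
    rcases hT with hT | hT
    · exact (hFs' T hT).2
    · exact (hTB T hT).1
  have hcross : ∀ T ∈ D, ∀ A ∈ G, ¬ Disjoint T A := by
    intro T hT A hA hdis
    rw [hD, mem_union] at hT
    have g1 := hG' A hA
    rcases hT with hT | hT
    · have h1 := hd T (hFs' T hT).1 A g1.1
      rw [sdiff_eq_self_of_disjoint hdis, sdiff_eq_self_of_disjoint hdis.symm,
        (hFs' T hT).2] at h1
      omega
    · obtain ⟨h1, X, hX, hTX⟩ := hTB T hT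
      have h2 := hd X (hBs' X hX).1 A g1.1
      have h3 := hBs' X hX
      have h4 : T ⊆ X \ A := by
        intro y hy
        rw [mem_sdiff]
        exact ⟨hTX hy, disjoint_left.1 hdis hy⟩
      have h5 := card_le_card h4
      have h6 := card_sdiff_add_card_inter X A
      have h7 := card_sdiff_add_card_inter A X
      rw [inter_comm A X] at h7
      omega
  have hDle : D.card ≤ n.choose r := by
    have h1 : D ⊆ powersetCard r (univ : Finset (Fin n)) := by
      intro T hT
      rw [mem_powersetCard]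
      exact ⟨subset_univ _, hDr T hT⟩
    have := card_le_card h1
    rwa [card_powersetCard, card_univ, Fintype.card_fin] at this
  obtain ⟨E, hE⟩ : ∃ E, D.card + E = n.choose r := ⟨n.choose r - D.card, by omega⟩
  obtain ⟨E0, hE0⟩ : ∃ E0, Fs.card + E0 = n.choose r := ⟨n.choose r - Fs.card, by omega⟩
  have hEE0 : E ≤ E0 := by omega
  have hEE0R : (E : ℝ) ≤ E0 := by exact_mod_cast hEE0
  have hE0R : (Fs.card : ℝ) + E0 = n.choose r := by exact_mod_cast hE0
  have hrR1 : (1 : ℝ) ≤ r := by exact_mod_cast hr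
  have hnR : (40 : ℝ) * r ≤ n := by exact_mod_cast hn
  have hn0 : (0 : ℝ) < n := by linarith
  have hc0 : (0 : ℝ) < n.choose r := by exact_mod_cast Nat.choose_pos (by omega)
  have hEnn : (0 : ℝ) ≤ E := Nat.cast_nonneg _
  have hFlnn : (0 : ℝ) ≤ Fl.card := Nat.cast_nonneg _
  have hb0 : 23 * (Fl.card : ℝ) ≤ E0 := by
    apply low_small r hr (by omega) Fl Fs (fun A hA => (hFl' A hA).2) (fun A hA => (hFs' A hA).2)
      (fun A hA B hB => hanti A (hFl' A hA).1 B (hFl' B hB).1) _ E0 hE0
    intro A hA T hT hAT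
    have h1 := hanti A (hFl' A hA).1 T (hFs' T hT).1 hAT
    have h2 := (hFl' A hA).2
    have h3 := (hFs' T hT).2
    rw [h1] at h2
    omega
  have hb : 23 * (Fl.card : ℝ) ≤ E := by
    apply low_small r hr (by omega) Fl D (fun A hA => (hFl' A hA).2) hDr
      (fun A hA B hB => hanti A (hFl' A hA).1 B (hFl' B hB).1) _ E hE
    intro A hA T hT hAT
    have h2 := (hFl' A hA).2
    rw [hD, mem_union] at hT
    rcases hT with hT | hT
    · have h1 := hanti A (hFl' A hA).1 T (hFs' T hT).1 hAT
      have h3 := (hFs' T hT).2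
      rw [h1] at h2
      omega
    · obtain ⟨h3, X, hX, hTX⟩ := hTB T hT
      have h1 := hanti A (hFl' A hA).1 X (hBs' X hX).1 (hAT.trans hTX)
      have h4 := (hBs' X hX).2.1
      rw [h1] at h2
      omega
  have hb' : (n : ℝ) * E0 ≤ 10 * r * n.choose r := by
    have h1 : (((n - 9 * r) * n.choose r : ℕ) : ℝ) <
        ((n * (F.filter (fun A => A.card ≤ r)).card : ℕ) : ℝ) := by exact_mod_cast hdense
    rw [hsp1] at h1
    rw [Nat.cast_mul, Nat.cast_mul, Nat.cast_sub (by omega)] at h1
    push_cast at h1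
    have h2 : (Fs.card : ℝ) = n.choose r - E0 := by linarith
    rw [h2] at h1
    have h3 : (n : ℝ) * (23 * Fl.card) ≤ n * E0 := mul_le_mul_of_nonneg_left hb0 (by linarith)
    nlinarith [mul_pos (show (0 : ℝ) < r by linarith) hc0]
  have hfin0 : G.card + Fl.card ≤ E → F.card ≤ n.choose r := by
    intro h
    omega
  rcases G.eq_empty_or_nonempty with hG0 | ⟨A0, hA0⟩
  · apply hfin0
    rw [hG0, card_empty]
    have h1 : (Fl.card : ℝ) ≤ E := by linarith
    have h2 : Fl.card ≤ E := by exact_mod_cast h1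
    omega
  -- `r` is not small
  have hr8 : 8 ≤ r := by
    obtain ⟨j, hj⟩ : ∃ j, A0.card = r + j := ⟨A0.card - r, by
      have := hG' A0 hA0
      omega⟩
    have hj2 : 2 ≤ j := by
      have := hG' A0 hA0
      omega
    have h1 := inc r hr (by omega) A0 Fs (fun T hT => (hFs' T hT).2)
    have h2 : Fs.card * (j - 1) ≤ 2 * ∑ T ∈ Fs, (T ∩ A0).card := by
      rw [card_eq_sum_ones, sum_mul, mul_sum]
      apply sum_le_sum
      intro T hT
      have h3 := hd T (hFs' T hT).1 A0 (hG' A0 hA0).1
      have h4 := card_sdiff_add_card_inter T A0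
      have h5 := card_sdiff_add_card_inter A0 T
      rw [inter_comm A0 T] at h5
      have h6 := (hFs' T hT).2
      omega
    have h6 : n * (Fs.card * (j - 1)) ≤ 2 * ((r + j) * (r * n.choose r)) := by
      rw [hj] at h1
      calc n * (Fs.card * (j - 1)) ≤ n * (2 * ∑ T ∈ Fs, (T ∩ A0).card) := Nat.mul_le_mul_left _ h2
        _ = 2 * (n * ∑ T ∈ Fs, (T ∩ A0).card) := by ring
        _ ≤ _ := Nat.mul_le_mul_left _ h1
    have h7 : (n : ℝ) * (Fs.card * ((j : ℝ) - 1)) ≤ 2 * ((r + j) * (r * n.choose r)) := by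
      have h8 : ((n * (Fs.card * (j - 1)) : ℕ) : ℝ) ≤
          ((2 * ((r + j) * (r * n.choose r)) : ℕ) : ℝ) := by exact_mod_cast h6
      rw [Nat.cast_mul, Nat.cast_mul, Nat.cast_sub (by omega)] at h8
      push_cast at h8
      exact h8
    have hjR : (2 : ℝ) ≤ j := by exact_mod_cast hj2
    have h8 : 30 * (r : ℝ) * n.choose r ≤ n * Fs.card := by
      have h9 : (40 * (r : ℝ)) * n.choose r ≤ n * n.choose r :=
        mul_le_mul_of_nonneg_right hnR hc0.le
      have h10 : (n : ℝ) * (Fs.card + E0) = n * n.choose r := by rw [hE0R]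
      nlinarith
    have h9 : (30 * ((j : ℝ) - 1)) * (r * n.choose r) ≤ (2 * (r + j)) * (r * n.choose r) := by
      have h10 := mul_le_mul_of_nonneg_right h8 (show (0 : ℝ) ≤ (j : ℝ) - 1 by linarith)
      nlinarith
    have h10 := le_of_mul_le_mul_right h9 (mul_pos (by linarith) hc0)
    have h11 : (13 : ℝ) ≤ r := by linarith
    have h12 : 13 ≤ r := by exact_mod_cast h11
    omega
  clear hA0
  have hrR : (8 : ℝ) ≤ r := by exact_mod_cast hr8
  have hE4 : 4 * (E0 : ℝ) ≤ n.choose r := by
    have h1 : (n : ℝ) * (4 * E0) ≤ n * n.choose r := by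
      have h2 : (40 * (r : ℝ)) * n.choose r ≤ n * n.choose r :=
        mul_le_mul_of_nonneg_right hnR hc0.le
      linarith
    exact le_of_mul_le_mul_left h1 hn0
  have hdens : 3 * n.choose r ≤ 4 * Fs.card := by
    have h1 : (3 : ℝ) * n.choose r ≤ 4 * Fs.card := by linarith
    exact_mod_cast h1
  -- the threshold
  have hEc : E < n.choose r := by
    have h1 : (E : ℝ) ≤ E0 := by exact_mod_cast hEE0
    have : (E : ℝ) < n.choose r := by linarith
    exact_mod_cast this
  have hex : ∃ x : ℕ, E < x.choose r := ⟨n, hEc⟩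
  obtain ⟨x, hxdef⟩ : ∃ x : ℕ, x = Nat.find hex := ⟨_, rfl⟩
  have hxE : E < x.choose r := by rw [hxdef]; exact Nat.find_spec hex
  have hxn : x ≤ n := by
    rw [hxdef]
    exact Nat.find_min' hex hEc
  have hx0 : 1 ≤ x := by
    by_contra h
    have : x = 0 := by omega
    rw [this, Nat.choose_eq_zero_of_lt (by omega)] at hxE
    omega
  have hxm : (x - 1).choose r ≤ E := by
    have := Nat.find_min hex (m := x - 1) (by omega)
    omega
  have hxmR : ((x - 1).choose r : ℝ) ≤ E := by exact_mod_cast hxm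
  have hkk : ∀ a, r < a → a < 3 * r → (G.filter (fun A => A.card = a)).card ≤ x.choose (n - a) := by
    intro a h1 h2
    apply kk' r a x E h1 (by omega) hxn hxE (G.filter (fun A => A.card = a)) D
    · intro A hA; exact (mem_filter.1 hA).2
    · exact hDr
    · intro T hT A hA
      rw [mem_filter] at hA
      exact hcross T hT A hA.1
    · omega
  obtain ⟨J, hJ⟩ : ∃ J, J = n - x := ⟨_, rfl⟩
  obtain ⟨G1, hG1⟩ : ∃ G1, G1 = G.filter (fun A => A.card < r + J) := ⟨_, rfl⟩
  obtain ⟨G2, hG2⟩ : ∃ G2, G2 = G.filter (fun A => ¬ A.card < r + J) := ⟨_, rfl⟩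
  have hGsp : G1.card + G2.card = G.card := by
    rw [hG1, hG2]
    exact card_filter_add_card_filter_not (s := G) (fun A => A.card < r + J)
  have hG1' : ∀ A ∈ G1, A ∈ G ∧ A.card < r + J := fun A hA => by rwa [hG1, mem_filter] at hA
  have hG2' : ∀ A ∈ G2, A ∈ G ∧ ¬ A.card < r + J := fun A hA => by rwa [hG2, mem_filter] at hA
  -- the smaller members
  have hsmall : 19 * (G1.card : ℝ) ≤ 2 * E := by
    rcases G1.eq_empty_or_nonempty with h0 | ⟨A0, hA0⟩
    · rw [h0, card_empty]; push_cast; linarith
    · have hx21 : 21 * r ≤ x := by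
        have h1 := hG1' A0 hA0
        have h2 := hG' A0 h1.1
        have h3 := hmax A0 h2.1
        have h4 := hkk A0.card (by omega) (by omega)
        have h5 : 0 < (G.filter (fun A => A.card = A0.card)).card := by
          rw [card_pos]
          exact ⟨A0, mem_filter.2 ⟨h1.1, rfl⟩⟩
        by_contra h
        rw [Nat.choose_eq_zero_of_lt (by omega)] at h4
        omega
      have hGsum : G1.card ≤ 2 * x.choose (r - 1) := by
        obtain ⟨M, hM⟩ : ∃ M, M = min (r + J - 1) (3 * r - 1) := ⟨_, rfl⟩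
        have h1 : G1.card = ∑ a ∈ Icc (r + 1) M, (G1.filter (fun A => A.card = a)).card := by
          apply card_eq_sum_card_fiberwise
          intro A hA
          rw [mem_coe] at hA
          have h1 := hG1' A hA
          have h2 := hG' A h1.1
          have h3 := hmax A h2.1
          rw [coe_Icc, Set.mem_Icc]
          omega
        have h2 : ∑ a ∈ Icc (r + 1) M, (G1.filter (fun A => A.card = a)).card ≤
            ∑ a ∈ Icc (r + 1) M, if J ≤ a then x.choose (a - J) else 0 := by
          apply sum_le_sum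
          intro a ha
          rw [mem_Icc] at ha
          have h3 : (G1.filter (fun A => A.card = a)).card ≤
              (G.filter (fun A => A.card = a)).card := by
            apply card_le_card
            apply filter_subset_filter
            intro A hA
            exact (hG1' A hA).1
          refine (h3.trans (hkk a (by omega) (by omega))).trans (le_of_eq ?_)
          by_cases h3 : J ≤ a
          · rw [if_pos h3]
            rw [← Nat.choose_symm (show n - a ≤ x by omega)]
            congr 1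
            omega
          · rw [if_neg h3, Nat.choose_eq_zero_of_lt (by omega)]
        have h3 : ∑ a ∈ Icc (r + 1) M, (if J ≤ a then x.choose (a - J) else 0) ≤
            ∑ i ∈ range (r - 1 + 1), x.choose i := by
          rw [← sum_filter]
          have h4 : ∑ a ∈ (Icc (r + 1) M).filter (fun a => J ≤ a), x.choose (a - J) =
              ∑ i ∈ ((Icc (r + 1) M).filter (fun a => J ≤ a)).image (fun a => a - J),
                x.choose i := by
            rw [sum_image]
            intro a ha b hb hab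
            rw [mem_coe, mem_filter] at ha hb
            simp only at hab
            omega
          rw [h4]
          apply sum_le_sum_of_subset
          intro i hi
          rw [mem_image] at hi
          obtain ⟨a, ha, rfl⟩ := hi
          rw [mem_filter, mem_Icc] at ha
          rw [mem_range]
          omega
        have h4 := sum_low x (r - 1) (by omega)
        omega
      have h19 : 19 * (x.choose (r - 1) : ℝ) ≤ (x - 1).choose r := by
        have hxR : (21 : ℝ) * r ≤ x := by exact_mod_cast hx21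
        apply num2 x r _ _ (by linarith) hxR (Nat.cast_nonneg _)
        have h1 := AE.ratio x r (by omega) (by omega)
        have h2 := Nat.choose_mul_succ_eq (x - 1) r
        have e1 : x - 1 + 1 = x := by omega
        rw [e1] at h2
        have h3 : (((x - 1).choose r * x : ℕ) : ℝ) = ((x.choose r * (x - r) : ℕ) : ℝ) := by rw [h2]
        rw [Nat.cast_mul, Nat.cast_mul, Nat.cast_sub (by omega)] at h3
        calc ((x - 1).choose r : ℝ) * x * r = (x.choose r * ((x : ℝ) - r)) * r := by rw [h3]
          _ = (x.choose r * r) * ((x : ℝ) - r) := by ring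
          _ = _ := by rw [h1]
      have h1 : (G1.card : ℝ) ≤ 2 * x.choose (r - 1) := by exact_mod_cast hGsum
      linarith
  -- the larger members
  have hlarge : 2 * (G2.card : ℝ) ≤ E := by
    rcases G2.eq_empty_or_nonempty with h0 | ⟨A0, hA0⟩
    · rw [h0, card_empty]; push_cast; linarith
    · have g1 := hG2' A0 hA0
      have g2 := hG' A0 g1.1
      have g3 := hmax A0 g2.1
      have hJ2 : J + 1 ≤ 2 * r := by omega
      -- lower bound for `J`
      have hJβ : 2 * (n / (4 * r)) ≤ J ∧ 2 ≤ J := by
        have h1 := bern (n := n) r J (by omega)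
        have e1 : n - (J + 1) = x - 1 := by omega
        rw [e1] at h1
        have hJR : (J : ℝ) + 1 ≤ 2 * r := by exact_mod_cast hJ2
        have hnJ : (0 : ℝ) < (n : ℝ) - J := by linarith
        have h3 : (n : ℝ) * (n.choose r * (1 - ((J : ℝ) + 1) * (r / ((n : ℝ) - J)))) ≤
            10 * r * n.choose r :=
          (mul_le_mul_of_nonneg_left (h1.trans (hxmR.trans hEE0R)) (by linarith)).trans hb'
        have h4 : ((n : ℝ) * (1 - ((J : ℝ) + 1) * (r / ((n : ℝ) - J)))) * n.choose r ≤
            (10 * r) * n.choose r := by linarith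
        have h5 := le_of_mul_le_mul_right h4 hc0
        have h6 : ((n : ℝ) * (1 - ((J : ℝ) + 1) * (r / ((n : ℝ) - J)))) * ((n : ℝ) - J) ≤
            (10 * r) * ((n : ℝ) - J) := mul_le_mul_of_nonneg_right h5 hnJ.le
        have h7 : ((n : ℝ) * (1 - ((J : ℝ) + 1) * (r / ((n : ℝ) - J)))) * ((n : ℝ) - J) =
            n * ((n : ℝ) - J) - n * (((J : ℝ) + 1) * r) := by
          field_simp
        rw [h7] at h6
        -- `(n - 10 r) (n - J) ≤ n (J + 1) r`
        have h8 : (3 / 4 * (n : ℝ)) * ((n : ℝ) - 2 * r) ≤ n * (((J : ℝ) + 1) * r) := by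
          have h9 : (3 / 4 * (n : ℝ)) * ((n : ℝ) - 2 * r) ≤ ((n : ℝ) - 10 * r) * ((n : ℝ) - J) := by
            apply mul_le_mul
            · linarith
            · linarith
            · linarith
            · linarith
          linarith
        have h10 : (3 / 4 : ℝ) * ((n : ℝ) - 2 * r) ≤ ((J : ℝ) + 1) * r := by
          have h11 : (n : ℝ) * (3 / 4 * ((n : ℝ) - 2 * r)) ≤ n * (((J : ℝ) + 1) * r) := by linarith
          exact le_of_mul_le_mul_left h11 hn0
        obtain ⟨β, hβ⟩ : ∃ β : ℕ, β = n / (4 * r) := ⟨_, rfl⟩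
        have hβ10 : 10 ≤ β := by
          rw [hβ, Nat.le_div_iff_mul_le (by omega)]; omega
        have hβn : β * (4 * r) ≤ n := by rw [hβ]; exact Nat.div_mul_le_self n (4 * r)
        have hβnR : (β : ℝ) * (4 * r) ≤ n := by exact_mod_cast hβn
        have hβR : (10 : ℝ) ≤ β := by exact_mod_cast hβ10
        have h12 : (2 * (β : ℝ)) * r ≤ (J : ℝ) * r := by nlinarith
        have h13 : 2 * (β : ℝ) ≤ J := le_of_mul_le_mul_right h12 (by linarith)
        have h14 : 2 * β ≤ J := by exact_mod_cast h13
        rw [← hβ]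
        omega
      have hlev : ∀ j, J ≤ j → j < 2 * r →
          ((G2.filter (fun A => A.card = r + j)).card : ℝ) ≤ 2 * n.choose r * (1 / 8 : ℝ) ^ j := by
        intro j hj1 hj2
        have h1 := large_level' r j hr8 hn hj2.le (by omega) Fs
          (G2.filter (fun A => A.card = r + j)) (fun T hT => (hFs' T hT).2)
          (fun A hA => (mem_filter.1 hA).2) (by
            intro T hT A hA
            rw [mem_filter] at hA
            have h3 := hd T (hFs' T hT).1 A (hG' A (hG2' A hA.1).1).1
            have h4 := card_sdiff_add_card_inter T A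
            have h5 := card_sdiff_add_card_inter A T
            rw [inter_comm A T] at h5
            have h6 := (hFs' T hT).2
            omega) hdens
        have h8 : (8 : ℝ) ^ j * (1 / 8 : ℝ) ^ j = 1 := by
          rw [← mul_pow]; norm_num
        calc ((G2.filter (fun A => A.card = r + j)).card : ℝ) =
            ((G2.filter (fun A => A.card = r + j)).card * 8 ^ j) * (1 / 8 : ℝ) ^ j := by
              rw [mul_assoc, h8, mul_one]
          _ ≤ (2 * n.choose r) * (1 / 8 : ℝ) ^ j :=
              mul_le_mul_of_nonneg_right h1 (by positivity)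
      have hsum : (G2.card : ℝ) ≤ 2 * n.choose r * (8 / 7 * (1 / 8 : ℝ) ^ J) := by
        have h1 : G2.card = ∑ j ∈ Ico J (2 * r), (G2.filter (fun A => A.card = r + j)).card := by
          have h2 : G2.card = ∑ j ∈ Ico J (2 * r), (G2.filter (fun A => A.card - r = j)).card := by
            apply card_eq_sum_card_fiberwise (f := fun A : Finset (Fin n) => A.card - r)
            intro A hA
            rw [mem_coe] at hA
            have h1 := hG2' A hA
            have h2 := hG' A h1.1
            have h3 := hmax A h2.1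
            rw [coe_Ico, Set.mem_Ico]
            show J ≤ A.card - r ∧ A.card - r < 2 * r
            omega
          rw [h2]
          apply sum_congr rfl
          intro j _
          congr 1
          apply filter_congr
          intro A hA
          have h1 := hG' A (hG2' A hA).1
          omega
        have h1R : (G2.card : ℝ) = ∑ j ∈ Ico J (2 * r),
            ((G2.filter (fun A => A.card = r + j)).card : ℝ) := by
          exact_mod_cast h1
        rw [h1R]
        calc ∑ j ∈ Ico J (2 * r), ((G2.filter (fun A => A.card = r + j)).card : ℝ) ≤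
            ∑ j ∈ Ico J (2 * r), 2 * n.choose r * (1 / 8 : ℝ) ^ j := by
              apply sum_le_sum
              intro j hj
              rw [mem_Ico] at hj
              exact hlev j hj.1 hj.2
          _ = 2 * n.choose r * ∑ j ∈ Ico J (2 * r), (1 / 8 : ℝ) ^ j := by rw [mul_sum]
          _ ≤ _ := mul_le_mul_of_nonneg_left (geo J (2 * r)) (by positivity)
      have hhalf := halve n r (J + 1) (by omega)
      have e1 : n - (J + 1) = x - 1 := by omega
      rw [e1] at hhalf
      have hhalfR : (n.choose r : ℝ) ≤ 2 ^ (J + 1) * (x - 1).choose r := by exact_mod_cast hhalf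
      have h18 : (1 / 8 : ℝ) ^ J * 2 ^ (J + 1) ≤ 1 / 8 := by
        have e2 : (1 / 8 : ℝ) ^ J * 2 ^ (J + 1) = 2 * (1 / 4 : ℝ) ^ J := by
          rw [pow_succ, ← mul_assoc, ← mul_pow]
          norm_num
          ring
        rw [e2]
        have h3 : (1 / 4 : ℝ) ^ J ≤ (1 / 4 : ℝ) ^ 2 :=
          pow_le_pow_of_le_one (by norm_num) (by norm_num) hJβ.2
        linarith
      have h19 : (n.choose r : ℝ) * (1 / 8 : ℝ) ^ J ≤ 1 / 8 * E := by
        calc (n.choose r : ℝ) * (1 / 8 : ℝ) ^ J ≤
            (2 ^ (J + 1) * (x - 1).choose r) * (1 / 8 : ℝ) ^ J :=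
              mul_le_mul_of_nonneg_right hhalfR (by positivity)
          _ = ((1 / 8 : ℝ) ^ J * 2 ^ (J + 1)) * (x - 1).choose r := by ring
          _ ≤ 1 / 8 * (x - 1).choose r := mul_le_mul_of_nonneg_right h18 (Nat.cast_nonneg _)
          _ ≤ 1 / 8 * E := mul_le_mul_of_nonneg_left hxmR (by norm_num)
      have h20 : 2 * (n.choose r : ℝ) * (8 / 7 * (1 / 8 : ℝ) ^ J) =
          16 / 7 * ((n.choose r : ℝ) * (1 / 8 : ℝ) ^ J) := by ring
      rw [h20] at hsum
      linarith
  have hfin : (G.card : ℝ) + Fl.card ≤ E := by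
    have h1 : (G.card : ℝ) = G1.card + G2.card := by exact_mod_cast hGsp.symm
    rw [h1]
    linarith
  have hfinN : G.card + Fl.card ≤ E := by exact_mod_cast hfin
  exact hfin0 hfinN


end Pool.Agent.H66.AF
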