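import Pool.Agent.H66.AG2
set_option autoImplicit false
open Finset

/-! Antichains of odd diameter in the linear range. -/

namespace Pool.Agent.H66.AF

open Pool.Agent.H66.AE

variable {n : ℕ}

/-- reduction to families with a member of size at most `r`, with a general side condition -/
theorem reduce' (n r ε : ℕ) (hε : ε ≤ 1) (hr : 1 ≤ r) (hn : 10 * r ≤ n)
    (P : Finset (Finset (Fin n)) → Prop)
    (hP : ∀ G : Finset (Finset (Fin n)), (∀ A ∈ G, ∀ B ∈ G, A ⊆ B → A = B) →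
      (∀ A ∈ G, ∀ B ∈ G, (A \ B).card + (B \ A).card ≤ 2 * r + ε) →
      (∀ A ∈ G, A.card + 1 ≤ 3 * r) → P G → G.card ≤ n.choose r)
    (F : Finset (Finset (Fin n)))
    (hanti : ∀ A ∈ F, ∀ B ∈ F, A ⊆ B → A = B)
    (hd : ∀ A ∈ F, ∀ B ∈ F, (A \ B).card + (B \ A).card ≤ 2 * r + ε)
    (hP1 : P F)
    (hP2 : ∀ G : Finset (Finset (Fin n)), (∀ X, X ∈ G ↔ Xᶜ ∈ F) → P G) :
    F.card ≤ n.choose r := by
  classical
  have hg := AD.gap (2 * r + ε) F hanti hd
  by_cases h1 : ∃ A ∈ F, A.card ≤ r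
  · obtain ⟨A0, hA0, h0⟩ := h1
    apply hP F hanti hd _ hP1
    intro B hB
    rcases hg B hB A0 hA0 with h3 | h3
    · omega
    · rw [h3]; omega
  · by_cases h2 : ∃ A ∈ F, n ≤ A.card + r
    · obtain ⟨A0, hA0, h0⟩ := h2
      obtain ⟨G, hGc, hGm, hG1, hG2⟩ := AD.compl_fam (2 * r + ε) F hanti hd
      rw [← hGc]
      apply hP G hG1 hG2 _ (hP2 G hGm)
      intro X hX
      rw [hGm] at hX
      have h4 := card_le_n X
      rcases hg A0 hA0 _ hX with h3 | h3
      · rw [c_compl] at h3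
        omega
      · rw [h3, c_compl] at h0
        omega
    · push Not at h1 h2
      apply mid n r ε hε hr hn F hanti hd
      intro A hA
      have := h1 A hA
      have := h2 A hA
      omega

theorem odd_linear (n r : ℕ) (hr : 1 ≤ r) (hn : 40 * r ≤ n)
    (F : Finset (Finset (Fin n)))
    (hanti : ∀ A ∈ F, ∀ B ∈ F, A ⊆ B → A = B)
    (hd : ∀ A ∈ F, ∀ B ∈ F, (A \ B).card + (B \ A).card ≤ 2 * r + 1)
    (hlow : (∃ i, 1 ≤ i ∧ i ≤ 3 ∧ ∀ A ∈ F, A.card ≠ r + i) ∨
      n * (F.filter (fun A => A.card ≤ r)).card ≤ (n - 9 * r) * n.choose r)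
    (hhigh : (∃ i, 1 ≤ i ∧ i ≤ 3 ∧ ∀ A ∈ F, A.card + (r + i) ≠ n) ∨
      n * (F.filter (fun A => n ≤ A.card + r)).card ≤ (n - 9 * r) * n.choose r) :
    F.card ≤ n.choose r := by
  refine reduce' n r 1 le_rfl hr (by omega)
    (fun G => (∃ i, 1 ≤ i ∧ i ≤ 3 ∧ ∀ A ∈ G, A.card ≠ r + i) ∨
      n * (G.filter (fun A => A.card ≤ r)).card ≤ (n - 9 * r) * n.choose r) ?_ F hanti hd
    hlow ?_
  · intro G h1 h2 h3 hP
    rcases le_or_gt (n * (G.filter (fun A => A.card ≤ r)).card) ((n - 9 * r) * n.choose r)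
      with h | h
    · exact sparse_low n r 1 le_rfl hr (by omega) G h1 h2 h3 h
    · rcases hP with ⟨i, hi1, hi3, hi⟩ | h'
      · apply dense_odd r (r + i - 1) hr hn (by omega) (by omega) G h1 h2 h3 _ h
        intro A hA
        have := hi A hA
        omega
      · omega
  · intro G hG
    rcases hhigh with ⟨i, hi1, hi3, hi⟩ | h
    · left
      refine ⟨i, hi1, hi3, ?_⟩
      intro X hX hc
      rw [hG] at hX
      apply hi _ hX
      have := card_le_n X
      rw [c_compl]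
      omega
    · right
      rw [filter_compl F G r hG]
      exact h

end Pool.Agent.H66.AF
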