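import Pool.Agent.H66.AG3
set_option autoImplicit false
set_option maxHeartbeats 1000000
open Finset

/-! Density transfer. -/

namespace Pool.Agent.H66.AH

variable {n : ℕ}

theorem dens (U : Finset (Fin n)) (c m r : ℕ) (hrc : r ≤ c) (hcu : c ≤ U.card)
    (𝒜 𝒩 : Finset (Finset (Fin n))) (X : Finset (Fin n) → Finset (Fin n))
    (h𝒜 : ∀ A ∈ 𝒜, A ⊆ U ∧ A.card = c) (hX : ∀ A ∈ 𝒜, Disjoint (X A) U ∧ (X A).card = m)
    (hN : ∀ A ∈ 𝒜, ∀ S : Finset (Fin n), S.card = r → S ⊆ A ∪ X A → S ∈ 𝒩) :
    𝒜.card * (m + U.card).choose r ≤ 𝒩.card * U.card.choose c := by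
  classical
  have key : ∀ i ∈ range (r + 1), 𝒜.card * (m.choose i * U.card.choose (r - i)) ≤
      (𝒩.filter (fun S => (S \ U).card = i ∧ S.card = r)).card * U.card.choose c := by
    intro i hi
    rw [mem_range] at hi
    obtain ⟨N, hNd⟩ : ∃ N, N = 𝒩.filter (fun S => (S \ U).card = i ∧ S.card = r) := ⟨_, rfl⟩
    rw [← hNd]
    have h1 : ∀ A ∈ 𝒜, m.choose i * c.choose (r - i) ≤ (N.filter (fun S => S ⊆ A ∪ X A)).card := by
      intro A hA
      have e1 : m.choose i * c.choose (r - i) =
          ((powersetCard i (X A)) ×ˢ (powersetCard (r - i) A)).card := by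
        rw [card_product, card_powersetCard, card_powersetCard, (hX A hA).2, (h𝒜 A hA).2]
      rw [e1]
      have hdj := (hX A hA).1
      have hAU := (h𝒜 A hA).1
      have p1 : ∀ Z S : Finset (Fin n), Z ⊆ X A → S ⊆ A → (Z ∪ S) \ U = Z := by
        intro Z S hZ hS
        ext y
        rw [mem_sdiff, mem_union]
        constructor
        · rintro ⟨h | h, h2⟩
          · exact h
          · exact absurd (hAU (hS h)) h2
        · intro h
          exact ⟨Or.inl h, disjoint_left.1 hdj (hZ h)⟩
      have p2 : ∀ Z S : Finset (Fin n), Z ⊆ X A → S ⊆ A → (Z ∪ S) ∩ U = S := by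
        intro Z S hZ hS
        ext y
        rw [mem_inter, mem_union]
        constructor
        · rintro ⟨h | h, h2⟩
          · exact absurd h2 (disjoint_left.1 hdj (hZ h))
          · exact h
        · intro h
          exact ⟨Or.inr h, hAU (hS h)⟩
      apply card_le_card_of_injOn (fun q => q.1 ∪ q.2)
      · intro q hq
        rw [mem_coe, mem_product, mem_powersetCard, mem_powersetCard] at hq
        obtain ⟨⟨hq1, hq2⟩, hq3, hq4⟩ := hq
        have hd : Disjoint q.1 q.2 := by
          rw [disjoint_left]
          intro y hy hy2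
          exact disjoint_left.1 hdj (hq1 hy) (hAU (hq3 hy2))
        have hc : (q.1 ∪ q.2).card = r := by
          rw [card_union_of_disjoint hd, hq2, hq4]; omega
        have hs : q.1 ∪ q.2 ⊆ A ∪ X A := by
          intro y hy
          rw [mem_union] at hy ⊢
          rcases hy with hy | hy
          · exact Or.inr (hq1 hy)
          · exact Or.inl (hq3 hy)
        rw [mem_coe, mem_filter]
        refine ⟨?_, hs⟩
        rw [hNd, mem_filter]
        exact ⟨hN A hA _ hc hs, by rw [p1 _ _ hq1 hq3, hq2], hc⟩
      · intro q hq q' hq' heq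
        rw [mem_coe, mem_product, mem_powersetCard, mem_powersetCard] at hq hq'
        simp only at heq
        have e1 := p1 q.1 q.2 hq.1.1 hq.2.1
        have e2 := p1 q'.1 q'.2 hq'.1.1 hq'.2.1
        have e3 := p2 q.1 q.2 hq.1.1 hq.2.1
        have e4 := p2 q'.1 q'.2 hq'.1.1 hq'.2.1
        rw [heq] at e1 e3
        exact Prod.ext (e1.symm.trans e2) (e3.symm.trans e4)
    have h2 : ∀ S ∈ N, (𝒜.filter (fun A => S ⊆ A ∪ X A)).card ≤
        (U.card - (r - i)).choose (c - (r - i)) := by
      intro S hS
      rw [hNd, mem_filter] at hS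
      have hSU : (S ∩ U).card = r - i := by
        have := card_sdiff_add_card_inter S U
        omega
      have h3 := Pool.Agent.H173R2.AntiDiam.card_between (S ∩ U) U c inter_subset_right
        (by omega)
      rw [hSU] at h3
      rw [← h3]
      apply card_le_card
      intro A hA
      rw [mem_filter] at hA ⊢
      refine ⟨mem_univ _, (h𝒜 A hA.1).2, ?_, (h𝒜 A hA.1).1⟩
      intro y hy
      rw [mem_inter] at hy
      have := hA.2 hy.1
      rw [mem_union] at this
      rcases this with h | h
      · exact h
      · exact absurd hy.2 (disjoint_left.1 (hX A hA.1).1 h)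
    have h3 : 𝒜.card * (m.choose i * c.choose (r - i)) ≤
        N.card * (U.card - (r - i)).choose (c - (r - i)) := by
      calc 𝒜.card * (m.choose i * c.choose (r - i)) =
          ∑ A ∈ 𝒜, m.choose i * c.choose (r - i) := by rw [sum_const, smul_eq_mul]
        _ ≤ ∑ A ∈ 𝒜, (N.filter (fun S => S ⊆ A ∪ X A)).card := sum_le_sum h1
        _ = ∑ S ∈ N, (𝒜.filter (fun A => S ⊆ A ∪ X A)).card := by
            simp only [card_filter]
            rw [sum_comm]
        _ ≤ ∑ S ∈ N, (U.card - (r - i)).choose (c - (r - i)) := sum_le_sum h2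
        _ = _ := by rw [sum_const, smul_eq_mul]
    have h4 := Nat.choose_mul (n := U.card) (k := c) (s := r - i) (by omega)
    have h5 : 0 < (U.card - (r - i)).choose (c - (r - i)) := Nat.choose_pos (by omega)
    have h6 : (𝒜.card * (m.choose i * U.card.choose (r - i))) *
        (U.card - (r - i)).choose (c - (r - i)) ≤
        (N.card * U.card.choose c) * (U.card - (r - i)).choose (c - (r - i)) := by
      calc (𝒜.card * (m.choose i * U.card.choose (r - i))) *
          (U.card - (r - i)).choose (c - (r - i)) =
          𝒜.card * m.choose i * (U.card.choose (r - i) *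
            (U.card - (r - i)).choose (c - (r - i))) := by ring
        _ = 𝒜.card * m.choose i * (U.card.choose c * c.choose (r - i)) := by rw [h4]
        _ = (𝒜.card * (m.choose i * c.choose (r - i))) * U.card.choose c := by ring
        _ ≤ (N.card * (U.card - (r - i)).choose (c - (r - i))) * U.card.choose c :=
            Nat.mul_le_mul_right _ h3
        _ = _ := by ring
    exact Nat.le_of_mul_le_mul_right h6 h5
  have hv : (m + U.card).choose r = ∑ i ∈ range (r + 1), m.choose i * U.card.choose (r - i) := by
    rw [Nat.add_choose_eq, Finset.Nat.sum_antidiagonal_eq_sum_range_succ_mk]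
  rw [hv, mul_sum]
  refine (sum_le_sum key).trans ?_
  rw [← sum_mul]
  apply Nat.mul_le_mul_right
  have h7 : ∑ i ∈ range (r + 1), (𝒩.filter (fun S => (S \ U).card = i ∧ S.card = r)).card =
      (𝒩.filter (fun S => S.card = r)).card := by
    rw [card_eq_sum_card_fiberwise (f := fun S => (S \ U).card) (t := range (r + 1))
      (s := 𝒩.filter (fun S => S.card = r))]
    · apply sum_congr rfl
      intro i _
      congr 1
      rw [filter_filter]
      apply filter_congr
      intro S _
      exact and_comm
    · intro S hS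
      rw [mem_coe, mem_filter] at hS
      have h8 := card_le_card (sdiff_subset : S \ U ⊆ S)
      have h9 : (S \ U).card < r + 1 := by omega
      exact mem_coe.2 (mem_range.2 h9)
  rw [h7]
  exact card_le_card (filter_subset _ _)

end Pool.Agent.H66.AH
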