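import Pool.Agent.H66.AG3
set_option autoImplicit false
set_option maxHeartbeats 1000000
open Finset

/-! Weighted degree bound. -/

namespace Pool.Agent.H66.AH

open Pool.Agent.H66.AE Pool.Agent.H66.AF

theorem ratio_pow (N r d : ℕ) (hN : 31 * r ≤ N) (hd : d ≤ r) :
    30 ^ d * N.choose (r - d) ≤ N.choose r := by
  induction d with
  | zero => simp
  | succ d ih =>
    have h1 := ih (by omega)
    have h2 := Nat.choose_succ_right_eq N (r - (d + 1))
    have e : r - (d + 1) + 1 = r - d := by omega
    rw [e] at h2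
    have h3 : 30 * N.choose (r - (d + 1)) ≤ N.choose (r - d) := by
      have h4 : 30 * (r - d) ≤ N - (r - (d + 1)) := by omega
      have h5 : (30 * N.choose (r - (d + 1))) * (r - d) ≤ N.choose (r - d) * (r - d) := by
        rw [h2]
        calc (30 * N.choose (r - (d + 1))) * (r - d) =
            N.choose (r - (d + 1)) * (30 * (r - d)) := by ring
          _ ≤ _ := Nat.mul_le_mul_left _ h4
      exact Nat.le_of_mul_le_mul_right h5 (by omega)
    calc 30 ^ (d + 1) * N.choose (r - (d + 1)) = 30 ^ d * (30 * N.choose (r - (d + 1))) := by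
          rw [pow_succ]; ring
      _ ≤ 30 ^ d * N.choose (r - d) := Nat.mul_le_mul_left _ h3
      _ ≤ _ := h1

theorem rev_geo (J : ℕ) : ∑ j ∈ range J, (1 / 30 : ℝ) ^ (J - j) ≤ 1 / 29 := by
  induction J with
  | zero => simp
  | succ J ih =>
    rw [sum_range_succ]
    have h1 : ∑ j ∈ range J, (1 / 30 : ℝ) ^ (J + 1 - j) =
        (∑ j ∈ range J, (1 / 30 : ℝ) ^ (J - j)) * (1 / 30) := by
      rw [sum_mul]
      apply sum_congr rfl
      intro j hj
      rw [mem_range] at hj
      have e : J + 1 - j = (J - j) + 1 := by omega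
      rw [e, pow_succ]
    have e : J + 1 - J = 1 := by omega
    rw [h1, e]
    norm_num at ih ⊢
    linarith

theorem lev_sum {m : ℕ} (r : ℕ) (𝒢 : Finset (Finset (Fin m))) (s : Finset ℕ) (f w : ℕ → ℝ)
    (h1 : ∀ A ∈ 𝒢, r ≤ A.card ∧ A.card - r ∈ s)
    (h2 : ∀ j ∈ s, ((𝒢.filter (fun A => A.card = r + j)).card : ℝ) * f (r + j) ≤ w j) :
    ∑ A ∈ 𝒢, f A.card ≤ ∑ j ∈ s, w j := by
  classical
  rw [← sum_fiberwise_of_maps_to (t := s) (g := fun A : Finset (Fin m) => A.card - r)
    (fun A hA => (h1 A hA).2)]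
  apply sum_le_sum
  intro j hj
  refine le_trans (le_of_eq ?_) (h2 j hj)
  have e : 𝒢.filter (fun A => A.card - r = j) = 𝒢.filter (fun A => A.card = r + j) := by
    apply filter_congr
    intro A hA
    have := (h1 A hA).1
    omega
  rw [e, ← nsmul_eq_mul, ← sum_const]
  apply sum_congr rfl
  intro A hA
  rw [(mem_filter.1 hA).2]

theorem deg_bound (m r : ℕ) (hr : 8 ≤ r) (hm : 40 * r ≤ m) (E : ℕ)
    (𝒮 𝒢 : Finset (Finset (Fin m))) (h𝒮 : ∀ T ∈ 𝒮, T.card = r)
    (h𝒢 : ∀ A ∈ 𝒢, r + 3 ≤ A.card ∧ A.card + 1 ≤ 3 * r)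
    (hcr : ∀ T ∈ 𝒮, ∀ A ∈ 𝒢, A.card ≤ r + (2 * (T ∩ A).card + 1))
    (hE : 𝒮.card + E = m.choose r) (hb' : (m : ℝ) * E ≤ 10 * r * m.choose r) :
    ∑ A ∈ 𝒢, (1 : ℝ) / (m + r - A.card).choose r ≤ 1 / 10 := by
  classical
  have hrR : (8 : ℝ) ≤ r := by exact_mod_cast hr
  have hnR : (40 : ℝ) * r ≤ m := by exact_mod_cast hm
  have hn0 : (0 : ℝ) < m := by linarith
  have hc0 : (0 : ℝ) < m.choose r := by exact_mod_cast Nat.choose_pos (by omega)
  have hER : (𝒮.card : ℝ) + E = m.choose r := by exact_mod_cast hE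
  have hE4 : 4 * (E : ℝ) ≤ m.choose r := by
    have h1 : (m : ℝ) * (4 * E) ≤ m * m.choose r := by
      have h2 : (40 * (r : ℝ)) * m.choose r ≤ m * m.choose r :=
        mul_le_mul_of_nonneg_right hnR hc0.le
      linarith
    exact le_of_mul_le_mul_left h1 hn0
  have hdens : 3 * m.choose r ≤ 4 * 𝒮.card := by
    have h1 : (3 : ℝ) * m.choose r ≤ 4 * 𝒮.card := by linarith
    exact_mod_cast h1
  have hEc : E < m.choose r := by
    have : (E : ℝ) < m.choose r := by linarith
    exact_mod_cast this
  have hex : ∃ x : ℕ, E < x.choose r := ⟨m, hEc⟩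
  obtain ⟨x, hxdef⟩ : ∃ x : ℕ, x = Nat.find hex := ⟨_, rfl⟩
  have hxE : E < x.choose r := by rw [hxdef]; exact Nat.find_spec hex
  have hxn : x ≤ m := by
    rw [hxdef]
    exact Nat.find_min' hex hEc
  have hx0 : 1 ≤ x := by
    by_contra h
    have : x = 0 := by omega
    rw [this, Nat.choose_eq_zero_of_lt (by omega)] at hxE
    omega
  have hxm : (x - 1).choose r ≤ E := by
    have := Nat.find_min hex (m := x - 1) (by omega)
    omega
  have hxmR : ((x - 1).choose r : ℝ) ≤ E := by exact_mod_cast hxm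
  have hkk : ∀ a, r < a → a < 3 * r → (𝒢.filter (fun A => A.card = a)).card ≤ x.choose (m - a) := by
    intro a h1 h2
    apply kk' r a x E h1 (by omega) hxn hxE (𝒢.filter (fun A => A.card = a)) 𝒮
    · intro A hA; exact (mem_filter.1 hA).2
    · exact h𝒮
    · intro T hT A hA hdis
      rw [mem_filter] at hA
      have h3 := hcr T hT A hA.1
      rw [disjoint_iff_inter_eq_empty.1 hdis, card_empty] at h3
      have h4 := h𝒢 A hA.1
      omega
    · omega
  obtain ⟨J, hJ⟩ : ∃ J, J = m - x := ⟨_, rfl⟩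
  obtain ⟨G1, hG1⟩ : ∃ G1, G1 = 𝒢.filter (fun A => A.card < r + J) := ⟨_, rfl⟩
  obtain ⟨G2, hG2⟩ : ∃ G2, G2 = 𝒢.filter (fun A => ¬ A.card < r + J) := ⟨_, rfl⟩
  have hG1' : ∀ A ∈ G1, A ∈ 𝒢 ∧ A.card < r + J := fun A hA => by rwa [hG1, mem_filter] at hA
  have hG2' : ∀ A ∈ G2, A ∈ 𝒢 ∧ ¬ A.card < r + J := fun A hA => by rwa [hG2, mem_filter] at hA
  have hsplit : ∑ A ∈ 𝒢, (1 : ℝ) / (m + r - A.card).choose r =
      ∑ A ∈ G1, (1 : ℝ) / (m + r - A.card).choose r +
      ∑ A ∈ G2, (1 : ℝ) / (m + r - A.card).choose r := by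
    rw [hG1, hG2]
    exact (sum_filter_add_sum_filter_not 𝒢 _ _).symm
  have hsmall : ∑ A ∈ G1, (1 : ℝ) / (m + r - A.card).choose r ≤ 1 / 29 := by
    refine le_trans ?_ (rev_geo J)
    apply lev_sum r G1 (range J) (fun a => (1 : ℝ) / (m + r - a).choose r)
    · intro A hA
      have h1 := hG1' A hA
      have h2 := h𝒢 A h1.1
      refine ⟨by omega, ?_⟩
      rw [mem_range]
      omega
    · intro j hj
      rw [mem_range] at hj
      rcases (G1.filter (fun A => A.card = r + j)).eq_empty_or_nonempty with h0 | ⟨A0, hA0⟩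
      · rw [h0, card_empty]; push_cast; rw [zero_mul]; positivity
      · rw [mem_filter] at hA0
        have h1 := h𝒢 A0 (hG1' A0 hA0.1).1
        have h2 : (G1.filter (fun A => A.card = r + j)).card ≤
            (𝒢.filter (fun A => A.card = r + j)).card := by
          apply card_le_card
          apply filter_subset_filter
          intro A hA
          exact (hG1' A hA).1
        have h3 := hkk (r + j) (by omega) (by omega)
        have h4 : 0 < (G1.filter (fun A => A.card = r + j)).card := by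
          rw [card_pos]
          exact ⟨A0, mem_filter.2 hA0⟩
        have h5 : m - (r + j) ≤ x := by
          by_contra h
          rw [Nat.choose_eq_zero_of_lt (by omega)] at h3
          omega
        obtain ⟨d, hd⟩ : ∃ d, d = J - j := ⟨_, rfl⟩
        have e1 : x.choose (m - (r + j)) = x.choose (r - d) := by
          rw [← Nat.choose_symm (show m - (r + j) ≤ x by omega)]
          congr 1
          omega
        have h6 : x.choose (r - d) ≤ (m - j).choose (r - d) :=
          Nat.choose_le_choose _ (by omega)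
        have h7 := ratio_pow (m - j) r d (by omega) (by omega)
        have h8 : (G1.filter (fun A => A.card = r + j)).card * 30 ^ d ≤ (m - j).choose r := by
          calc (G1.filter (fun A => A.card = r + j)).card * 30 ^ d ≤
              (m - j).choose (r - d) * 30 ^ d := Nat.mul_le_mul_right _ (by omega)
            _ = 30 ^ d * (m - j).choose (r - d) := by ring
            _ ≤ _ := h7
        have h8R : ((G1.filter (fun A => A.card = r + j)).card : ℝ) * 30 ^ d ≤
            (m - j).choose r := by exact_mod_cast h8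
        have hcj : (0 : ℝ) < (m - j).choose r := by exact_mod_cast Nat.choose_pos (by omega)
        have e2 : m + r - (r + j) = m - j := by omega
        show ((G1.filter (fun A => A.card = r + j)).card : ℝ) *
          ((1 : ℝ) / (m + r - (r + j)).choose r) ≤ (1 / 30 : ℝ) ^ (J - j)
        rw [e2, ← hd, mul_one_div, div_le_iff₀ hcj]
        have h9 : (30 : ℝ) ^ d * (1 / 30 : ℝ) ^ d = 1 := by
          rw [← mul_pow]; norm_num
        calc ((G1.filter (fun A => A.card = r + j)).card : ℝ) =
            ((G1.filter (fun A => A.card = r + j)).card * 30 ^ d) * (1 / 30 : ℝ) ^ d := by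
              rw [mul_assoc, h9, mul_one]
          _ ≤ ((m - j).choose r) * (1 / 30 : ℝ) ^ d :=
              mul_le_mul_of_nonneg_right h8R (by positivity)
          _ = _ := by ring
  have hlarge : ∑ A ∈ G2, (1 : ℝ) / (m + r - A.card).choose r ≤ 1 / 90 := by
    rcases G2.eq_empty_or_nonempty with h0 | ⟨A0, hA0⟩
    · rw [h0, sum_empty]; norm_num
    · have g1 := hG2' A0 hA0
      have g3 := h𝒢 A0 g1.1
      have hJ2 : J + 1 ≤ 2 * r := by omega
      have hJβ : 2 * (m / (4 * r)) ≤ J ∧ 4 ≤ J := by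
        have h1 := bern (n := m) r J (by omega)
        have e1 : m - (J + 1) = x - 1 := by omega
        rw [e1] at h1
        have hJR : (J : ℝ) + 1 ≤ 2 * r := by exact_mod_cast hJ2
        have hnJ : (0 : ℝ) < (m : ℝ) - J := by linarith
        have h3 : (m : ℝ) * (m.choose r * (1 - ((J : ℝ) + 1) * (r / ((m : ℝ) - J)))) ≤
            10 * r * m.choose r :=
          (mul_le_mul_of_nonneg_left (h1.trans hxmR) (by linarith)).trans hb'
        have h4 : ((m : ℝ) * (1 - ((J : ℝ) + 1) * (r / ((m : ℝ) - J)))) * m.choose r ≤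
            (10 * r) * m.choose r := by linarith
        have h5 := le_of_mul_le_mul_right h4 hc0
        have h6 : ((m : ℝ) * (1 - ((J : ℝ) + 1) * (r / ((m : ℝ) - J)))) * ((m : ℝ) - J) ≤
            (10 * r) * ((m : ℝ) - J) := mul_le_mul_of_nonneg_right h5 hnJ.le
        have h7 : ((m : ℝ) * (1 - ((J : ℝ) + 1) * (r / ((m : ℝ) - J)))) * ((m : ℝ) - J) =
            m * ((m : ℝ) - J) - m * (((J : ℝ) + 1) * r) := by
          field_simp
        rw [h7] at h6
        have h8 : (3 / 4 * (m : ℝ)) * ((m : ℝ) - 2 * r) ≤ m * (((J : ℝ) + 1) * r) := by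
          have h9 : (3 / 4 * (m : ℝ)) * ((m : ℝ) - 2 * r) ≤ ((m : ℝ) - 10 * r) * ((m : ℝ) - J) := by
            apply mul_le_mul
            · linarith
            · linarith
            · linarith
            · linarith
          linarith
        have h10 : (3 / 4 : ℝ) * ((m : ℝ) - 2 * r) ≤ ((J : ℝ) + 1) * r := by
          have h11 : (m : ℝ) * (3 / 4 * ((m : ℝ) - 2 * r)) ≤ m * (((J : ℝ) + 1) * r) := by linarith
          exact le_of_mul_le_mul_left h11 hn0
        obtain ⟨β, hβ⟩ : ∃ β : ℕ, β = m / (4 * r) := ⟨_, rfl⟩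
        have hβ10 : 10 ≤ β := by
          rw [hβ, Nat.le_div_iff_mul_le (by omega)]; omega
        have hβn : β * (4 * r) ≤ m := by rw [hβ]; exact Nat.div_mul_le_self m (4 * r)
        have hβnR : (β : ℝ) * (4 * r) ≤ m := by exact_mod_cast hβn
        have hβR : (10 : ℝ) ≤ β := by exact_mod_cast hβ10
        have h12 : (2 * (β : ℝ)) * r ≤ (J : ℝ) * r := by nlinarith
        have h13 : 2 * (β : ℝ) ≤ J := le_of_mul_le_mul_right h12 (by linarith)
        have h14 : 2 * β ≤ J := by exact_mod_cast h13
        rw [← hβ]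
        omega
      have hsum : ∑ A ∈ G2, (1 : ℝ) / (m + r - A.card).choose r ≤
          ∑ j ∈ Ico J (2 * r), 2 * (1 / 4 : ℝ) ^ j := by
        apply lev_sum r G2 (Ico J (2 * r)) (fun a => (1 : ℝ) / (m + r - a).choose r)
        · intro A hA
          have h1 := hG2' A hA
          have h2 := h𝒢 A h1.1
          refine ⟨by omega, ?_⟩
          rw [mem_Ico]
          omega
        · intro j hj
          rw [mem_Ico] at hj
          have h1 := large_level' r j hr hm hj.2.le (by omega) 𝒮
            (G2.filter (fun A => A.card = r + j)) h𝒮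
            (fun A hA => (mem_filter.1 hA).2) (by
              intro T hT A hA
              rw [mem_filter] at hA
              have h3 := hcr T hT A (hG2' A hA.1).1
              omega) hdens
          have h2 := halve m r j (by omega)
          have h2R : (m.choose r : ℝ) ≤ 2 ^ j * (m - j).choose r := by exact_mod_cast h2
          have hcj : (0 : ℝ) < (m - j).choose r := by exact_mod_cast Nat.choose_pos (by omega)
          have e2 : m + r - (r + j) = m - j := by omega
          show ((G2.filter (fun A => A.card = r + j)).card : ℝ) *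
            ((1 : ℝ) / (m + r - (r + j)).choose r) ≤ 2 * (1 / 4 : ℝ) ^ j
          rw [e2, mul_one_div, div_le_iff₀ hcj]
          have h9 : (8 : ℝ) ^ j * (1 / 8 : ℝ) ^ j = 1 := by
            rw [← mul_pow]; norm_num
          have h10 : (2 : ℝ) ^ j * (1 / 8 : ℝ) ^ j = (1 / 4 : ℝ) ^ j := by
            rw [← mul_pow]; norm_num
          calc ((G2.filter (fun A => A.card = r + j)).card : ℝ) =
              ((G2.filter (fun A => A.card = r + j)).card * 8 ^ j) * (1 / 8 : ℝ) ^ j := by
                rw [mul_assoc, h9, mul_one]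
            _ ≤ (2 * m.choose r) * (1 / 8 : ℝ) ^ j :=
                mul_le_mul_of_nonneg_right h1 (by positivity)
            _ ≤ (2 * (2 ^ j * (m - j).choose r)) * (1 / 8 : ℝ) ^ j := by
                apply mul_le_mul_of_nonneg_right _ (by positivity)
                linarith
            _ = 2 * (2 ^ j * (1 / 8 : ℝ) ^ j) * (m - j).choose r := by ring
            _ = _ := by rw [h10]
      have hgeo := geom_sum_Ico_le_of_lt_one (x := (1 / 4 : ℝ)) (m := J) (n := 2 * r)
        (by norm_num) (by norm_num)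
      have h3 : (1 / 4 : ℝ) ^ J ≤ (1 / 4 : ℝ) ^ 4 :=
        pow_le_pow_of_le_one (by norm_num) (by norm_num) hJβ.2
      rw [← mul_sum] at hsum
      norm_num at hgeo h3 hsum ⊢
      linarith
  rw [hsplit]
  norm_num at hsmall hlarge ⊢
  linarith

end Pool.Agent.H66.AH
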