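import Pool.Agent.H66.AH1
import Pool.Agent.H66.AH2
set_option autoImplicit false
set_option maxHeartbeats 1000000
open Finset

/-! Weighted degree bound, local version. -/

namespace Pool.Agent.H66.AH

open Pool.Agent.H66.AE Pool.Agent.H66.AF

theorem deg_local (n r : ℕ) (hr : 8 ≤ r) (hn : 41 * r ≤ n) (E0 : ℕ)
    (Fs G : Finset (Finset (Fin n))) (hFs : ∀ S ∈ Fs, S.card = r)
    (hG : ∀ A ∈ G, r + 3 ≤ A.card ∧ A.card + 1 ≤ 3 * r)
    (hcr : ∀ S ∈ Fs, ∀ A ∈ G, A.card ≤ r + (2 * (S ∩ A).card + 1))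
    (hE0 : Fs.card + E0 = n.choose r) (hb' : (n : ℝ) * E0 ≤ 10 * r * n.choose r)
    (T : Finset (Fin n)) (hT : T.card = r) :
    ∑ A ∈ G.filter (fun A => Disjoint T A), (1 : ℝ) / (n - A.card).choose r ≤ 1 / 10 := by
  classical
  obtain ⟨U, hU⟩ : ∃ U, U = Tᶜ := ⟨_, rfl⟩
  obtain ⟨m, hm⟩ : ∃ m, m = n - r := ⟨_, rfl⟩
  have hUc : U.card = m := by rw [hU, c_compl, hT, hm]
  obtain ⟨e, he⟩ : ∃ e : Fin m ↪ Fin n, ∀ y, y ∈ U ↔ ∃ x, e x = y := by
    refine ⟨(U.orderEmbOfFin hUc).toEmbedding, ?_⟩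
    intro y
    have h1 := Finset.range_orderEmbOfFin U hUc
    have h2 : y ∈ (U : Set (Fin n)) ↔ y ∈ Set.range (U.orderEmbOfFin hUc) := by rw [h1]
    rw [mem_coe] at h2
    exact h2
  have hTU : ∀ y, y ∈ T → y ∉ U := by
    intro y hy hyU
    rw [hU, mem_compl] at hyU
    exact hyU hy
  -- pulling back
  obtain ⟨pull, hpull⟩ : ∃ pull : Finset (Fin n) → Finset (Fin m),
      ∀ A x, x ∈ pull A ↔ e x ∈ A :=
    ⟨fun A => univ.filter (fun x => e x ∈ A), fun A x => by simp⟩
  have hAU : ∀ A : Finset (Fin n), Disjoint T A → ∀ y ∈ A, y ∈ U := by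
    intro A hA y hy
    rw [hU, mem_compl]
    intro hyT
    exact disjoint_left.1 hA hyT hy
  have hmap : ∀ A : Finset (Fin n), Disjoint T A → (pull A).map e = A := by
    intro A hA
    ext y
    rw [mem_map]
    constructor
    · rintro ⟨x, hx, rfl⟩
      exact (hpull A x).1 hx
    · intro hy
      obtain ⟨x, hx⟩ := (he y).1 (hAU A hA y hy)
      exact ⟨x, (hpull A x).2 (by rw [hx]; exact hy), hx⟩
  have hcard : ∀ A : Finset (Fin n), Disjoint T A → (pull A).card = A.card := by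
    intro A hA
    have := congrArg card (hmap A hA)
    rwa [card_map] at this
  have hint : ∀ (S : Finset (Fin m)) (A : Finset (Fin n)), (S ∩ pull A).card =
      (S.map e ∩ A).card := by
    intro S A
    rw [← card_map e]
    congr 1
    ext y
    rw [mem_map, mem_inter, mem_map]
    constructor
    · rintro ⟨x, hx, rfl⟩
      rw [mem_inter] at hx
      exact ⟨⟨x, hx.1, rfl⟩, (hpull A x).1 hx.2⟩
    · rintro ⟨⟨x, hx, rfl⟩, hy⟩
      exact ⟨x, mem_inter.2 ⟨hx, (hpull A x).2 hy⟩, rfl⟩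
  -- the bad sets
  obtain ⟨𝒜, h𝒜⟩ : ∃ 𝒜, 𝒜 = (powersetCard r U).filter (fun S => ∃ A ∈ G, Disjoint T A ∧
    r + (2 * (S ∩ A).card + 1) < A.card) := ⟨_, rfl⟩
  obtain ⟨N0, hN0⟩ : ∃ N0, N0 = powersetCard r (univ : Finset (Fin n)) \ Fs := ⟨_, rfl⟩
  have hN0c : N0.card = E0 := by
    rw [hN0, card_sdiff_of_subset, card_powersetCard, card_univ, Fintype.card_fin]
    · omega
    · intro S hS
      rw [mem_powersetCard]
      exact ⟨subset_univ _, hFs S hS⟩
  have hdens := dens U r r r le_rfl (by omega) 𝒜 N0 (fun _ => T)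
    (by
      intro A hA
      rw [h𝒜, mem_filter, mem_powersetCard] at hA
      exact hA.1)
    (by
      intro A _
      refine ⟨?_, hT⟩
      rw [disjoint_left]
      exact hTU)
    (by
      intro A hA S hSr hSA
      rw [h𝒜, mem_filter] at hA
      obtain ⟨-, B, hB, hTB, hlt⟩ := hA
      rw [hN0, mem_sdiff, mem_powersetCard]
      refine ⟨⟨subset_univ _, hSr⟩, ?_⟩
      intro hSF
      have h1 := hcr S hSF B hB
      have h2 : S ∩ B ⊆ A ∩ B := by
        intro y hy
        rw [mem_inter] at hy ⊢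
        have h3 := hSA hy.1
        rw [mem_union] at h3
        rcases h3 with h3 | h3
        · exact ⟨h3, hy.2⟩
        · exact absurd hy.2 (disjoint_left.1 hTB h3)
      have h3 := card_le_card h2
      omega)
  have erU : r + U.card = n := by omega
  rw [erU, hN0c, hUc] at hdens
  obtain ⟨𝒮, h𝒮⟩ : ∃ 𝒮, 𝒮 = (powersetCard r (univ : Finset (Fin m))).filter
    (fun S => S.map e ∉ 𝒜) := ⟨_, rfl⟩
  obtain ⟨ℬ, hℬ⟩ : ∃ ℬ, ℬ = (powersetCard r (univ : Finset (Fin m))).filter
    (fun S => ¬ S.map e ∉ 𝒜) := ⟨_, rfl⟩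
  have hsplit : 𝒮.card + ℬ.card = m.choose r := by
    have h1 := card_filter_add_card_filter_not (s := powersetCard r (univ : Finset (Fin m)))
      (fun S => S.map e ∉ 𝒜)
    rw [card_powersetCard, card_univ, Fintype.card_fin] at h1
    rw [h𝒮, hℬ]
    exact h1
  have hℬc : ℬ.card ≤ 𝒜.card := by
    apply card_le_card_of_injOn (fun S => S.map e)
    · intro S hS
      rw [mem_coe, hℬ, mem_filter, not_not] at hS
      exact hS.2
    · intro S _ S' _ h
      exact map_injective e h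
  have hc0 : (0 : ℝ) < n.choose r := by exact_mod_cast Nat.choose_pos (by omega)
  have hb2 : (m : ℝ) * ℬ.card ≤ 10 * r * m.choose r := by
    have h1 : (𝒜.card : ℝ) * n.choose r ≤ E0 * m.choose r := by exact_mod_cast hdens
    have h2 : ((n : ℝ) * 𝒜.card) * n.choose r ≤ (10 * r * m.choose r) * n.choose r := by
      calc ((n : ℝ) * 𝒜.card) * n.choose r = n * (𝒜.card * n.choose r) := by ring
        _ ≤ n * (E0 * m.choose r) := mul_le_mul_of_nonneg_left h1 (Nat.cast_nonneg _)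
        _ = (n * E0) * m.choose r := by ring
        _ ≤ (10 * r * n.choose r) * m.choose r :=
            mul_le_mul_of_nonneg_right hb' (Nat.cast_nonneg _)
        _ = _ := by ring
    have h3 := le_of_mul_le_mul_right h2 hc0
    have h4 : (m : ℝ) ≤ n := by exact_mod_cast (by omega : m ≤ n)
    have h5 : (ℬ.card : ℝ) ≤ 𝒜.card := by exact_mod_cast hℬc
    have h6 : (m : ℝ) * ℬ.card ≤ n * 𝒜.card :=
      mul_le_mul h4 h5 (Nat.cast_nonneg _) (Nat.cast_nonneg _)
    linarith
  obtain ⟨G', hG'⟩ : ∃ G', G' = G.filter (fun A => Disjoint T A) := ⟨_, rfl⟩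
  have hG'' : ∀ A ∈ G', A ∈ G ∧ Disjoint T A := fun A hA => by rwa [hG', mem_filter] at hA
  have key := deg_bound m r hr (by omega) ℬ.card 𝒮 (G'.image pull)
    (by
      intro S hS
      rw [h𝒮, mem_filter, mem_powersetCard] at hS
      exact hS.1.2)
    (by
      intro B hB
      rw [mem_image] at hB
      obtain ⟨A, hA, rfl⟩ := hB
      rw [hcard A (hG'' A hA).2]
      exact hG A (hG'' A hA).1)
    (by
      intro S hS B hB
      rw [mem_image] at hB
      obtain ⟨A, hA, rfl⟩ := hB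
      rw [hcard A (hG'' A hA).2, hint]
      rw [h𝒮, mem_filter, mem_powersetCard] at hS
      by_contra hcon
      apply hS.2
      rw [h𝒜, mem_filter, mem_powersetCard]
      refine ⟨⟨?_, by rw [card_map]; exact hS.1.2⟩, A, (hG'' A hA).1, (hG'' A hA).2, by omega⟩
      intro y hy
      rw [mem_map] at hy
      obtain ⟨x, -, hx⟩ := hy
      exact (he y).2 ⟨x, hx⟩)
    hsplit hb2
  rw [← hG']
  refine le_trans (le_of_eq ?_) key
  rw [sum_image]
  · apply sum_congr rfl
    intro A hA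
    rw [hcard A (hG'' A hA).2]
    have : m + r = n := by omega
    rw [this]
  · intro A hA B hB hAB
    rw [mem_coe] at hA hB
    rw [← hmap A (hG'' A hA).2, ← hmap B (hG'' B hB).2, hAB]

end Pool.Agent.H66.AH
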