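import Pool.Agent.H66.AH3
set_option autoImplicit false
set_option maxHeartbeats 1000000
open Finset

/-! Antichains of odd diameter: many members of size at most `r`, general case. -/

namespace Pool.Agent.H66.AH

open Pool.Agent.H66.AE Pool.Agent.H66.AF

variable {n : ℕ}

/-- few of the `r`-sets disjoint from an `(r+3)`-member lie under a member of size at most
`r + 2` -/
theorem few_under (r : ℕ) (hr : 1 ≤ r) (hn : 41 * r ≤ n)
    (F : Finset (Finset (Fin n)))
    (hd : ∀ A ∈ F, ∀ B ∈ F, (A \ B).card + (B \ A).card ≤ 2 * r + 1)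
    (Fs TB : Finset (Finset (Fin n))) (hFs : ∀ S ∈ Fs, S ∈ F ∧ S.card = r)
    (hTB : ∀ T ∈ TB, T.card = r ∧ ∃ X ∈ F, (X.card ≤ r + 2) ∧ T ⊆ X)
    (E0 : ℕ) (hE0 : Fs.card + E0 = n.choose r) (hE4 : 4 * (E0 : ℝ) ≤ n.choose r)
    (L : Finset (Fin n)) (hL : L ∈ F) (hLc : r + 3 ≤ L.card) (hLn : L.card + 1 ≤ 3 * r) :
    2 * (TB.filter (fun T => Disjoint T L)).card ≤ (n - L.card).choose r := by
  classical
  obtain ⟨𝒯, h𝒯⟩ : ∃ 𝒯, 𝒯 = TB.filter (fun T => Disjoint T L) := ⟨_, rfl⟩
  rw [← h𝒯]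
  obtain ⟨U, hU⟩ : ∃ U, U = Lᶜ := ⟨_, rfl⟩
  have hUc : U.card = n - L.card := by rw [hU, c_compl]
  -- the data attached to a member of `𝒯`
  have hdat : ∀ T ∈ 𝒯, T ⊆ U ∧ T.card = r ∧ L.card = r + 3 ∧ ∃ Y : Finset (Fin n),
      Disjoint Y U ∧ Y.card = r + 1 ∧ ∀ S ∈ Fs, ¬ S ⊆ (U \ T) ∪ Y := by
    intro T hT
    rw [h𝒯, mem_filter] at hT
    obtain ⟨h1, K, hK, hKc, hTK⟩ := hTB T hT.1
    have hTL := hT.2
    have h2 := hd K hK L hL
    have h4 : T ⊆ K \ L := by
      intro y hy
      rw [mem_sdiff]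
      exact ⟨hTK hy, disjoint_left.1 hTL hy⟩
    have h5 := card_le_card h4
    have h6 := card_sdiff_add_card_inter K L
    have h7 := card_sdiff_add_card_inter L K
    rw [inter_comm L K] at h7
    have h8 : K \ L = T := (eq_of_subset_of_card_le h4 (by omega)).symm
    refine ⟨?_, h1, by omega, L \ K, ?_, by omega, ?_⟩
    · intro y hy
      rw [hU, mem_compl]
      exact disjoint_left.1 hTL hy
    · rw [disjoint_left]
      intro y hy hyU
      rw [hU, mem_compl] at hyU
      exact hyU (mem_sdiff.1 hy).1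
    · intro S hS hsub
      have h9 := hd S (hFs S hS).1 K hK
      have h10 : Disjoint S K := by
        rw [disjoint_left]
        intro y hy hyK
        have h11 := hsub hy
        rw [mem_union, mem_sdiff, mem_sdiff] at h11
        rcases h11 with h11 | h11
        · apply h11.2
          rw [← h8, mem_sdiff]
          refine ⟨hyK, ?_⟩
          have h12 := h11.1
          rw [hU, mem_compl] at h12
          exact h12
        · exact h11.2 hyK
      rw [sdiff_eq_self_of_disjoint h10, sdiff_eq_self_of_disjoint h10.symm,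
        (hFs S hS).2] at h9
      omega
  rcases 𝒯.eq_empty_or_nonempty with h0 | ⟨T0, hT0⟩
  · rw [h0, card_empty]; omega
  have hL3 : L.card = r + 3 := (hdat T0 hT0).2.2.1
  have hch : ∀ T : Finset (Fin n), ∃ Y : Finset (Fin n), T ∈ 𝒯 →
      (Disjoint Y U ∧ Y.card = r + 1 ∧ ∀ S ∈ Fs, ¬ S ⊆ (U \ T) ∪ Y) := by
    intro T
    by_cases hT : T ∈ 𝒯
    · obtain ⟨Y, hY⟩ := (hdat T hT).2.2.2
      exact ⟨Y, fun _ => hY⟩
    · exact ⟨∅, fun h => absurd h hT⟩
  choose Y hY using hch
  obtain ⟨N0, hN0⟩ : ∃ N0, N0 = powersetCard r (univ : Finset (Fin n)) \ Fs := ⟨_, rfl⟩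
  have hN0c : N0.card = E0 := by
    rw [hN0, card_sdiff_of_subset, card_powersetCard, card_univ, Fintype.card_fin]
    · omega
    · intro S hS
      rw [mem_powersetCard]
      exact ⟨subset_univ _, (hFs S hS).2⟩
  have hUU : ∀ T ∈ 𝒯, U \ (U \ T) = T := by
    intro T hT
    exact Finset.sdiff_sdiff_eq_self (hdat T hT).1
  have hinj : (𝒯.image (fun T => U \ T)).card = 𝒯.card := by
    apply card_image_of_injOn
    intro T hT T' hT' h
    rw [mem_coe] at hT hT'
    simp only at h
    rw [← hUU T hT, ← hUU T' hT', h]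
  have hdens := dens U (U.card - r) (r + 1) r (by omega) (by omega) (𝒯.image (fun T => U \ T)) N0
    (fun A => Y (U \ A))
    (by
      intro A hA
      rw [mem_image] at hA
      obtain ⟨T, hT, rfl⟩ := hA
      refine ⟨sdiff_subset, ?_⟩
      rw [card_sdiff_of_subset (hdat T hT).1, (hdat T hT).2.1])
    (by
      intro A hA
      rw [mem_image] at hA
      obtain ⟨T, hT, rfl⟩ := hA
      show Disjoint (Y (U \ (U \ T))) U ∧ (Y (U \ (U \ T))).card = r + 1
      rw [hUU T hT]
      exact ⟨(hY T hT).1, (hY T hT).2.1⟩)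
    (by
      intro A hA S hSr hSA
      rw [mem_image] at hA
      obtain ⟨T, hT, rfl⟩ := hA
      have hSA' : S ⊆ (U \ T) ∪ Y (U \ (U \ T)) := hSA
      rw [hUU T hT] at hSA'
      rw [hN0, mem_sdiff, mem_powersetCard]
      exact ⟨⟨subset_univ _, hSr⟩, fun hSF => (hY T hT).2.2 S hSF hSA'⟩)
  rw [hinj, hN0c, Nat.choose_symm (by omega)] at hdens
  have e1 : r + 1 + U.card = n - (1 + 1) := by omega
  rw [e1] at hdens
  have hb := bern (n := n) r 1 (by omega)
  have hrR1 : (1 : ℝ) ≤ r := by exact_mod_cast hr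
  have hnR : (41 : ℝ) * r ≤ n := by exact_mod_cast hn
  have hc0 : (0 : ℝ) < n.choose r := by exact_mod_cast Nat.choose_pos (by omega)
  have h1 : (r : ℝ) / ((n : ℝ) - (1 : ℕ)) ≤ 1 / 4 := by
    push_cast
    rw [div_le_div_iff₀ (by linarith) (by norm_num)]
    linarith
  have h2 : (n.choose r : ℝ) * (1 / 2) ≤ (n - (1 + 1)).choose r := by
    refine le_trans ?_ hb
    apply mul_le_mul_of_nonneg_left _ hc0.le
    push_cast at h1 ⊢
    linarith
  have h3 : 2 * (E0 : ℝ) ≤ (n - (1 + 1)).choose r := by linarith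
  have h4 : 2 * E0 ≤ (n - (1 + 1)).choose r := by exact_mod_cast h3
  have hcp : 0 < (n - (1 + 1)).choose r := Nat.choose_pos (by omega)
  have h5 : (2 * 𝒯.card) * (n - (1 + 1)).choose r ≤ U.card.choose r * (n - (1 + 1)).choose r := by
    calc (2 * 𝒯.card) * (n - (1 + 1)).choose r = 2 * (𝒯.card * (n - (1 + 1)).choose r) := by ring
      _ ≤ 2 * (E0 * U.card.choose r) := Nat.mul_le_mul_left _ hdens
      _ = (2 * E0) * U.card.choose r := by ring
      _ ≤ (n - (1 + 1)).choose r * U.card.choose r := Nat.mul_le_mul_right _ h4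
      _ = _ := by ring
  have h6 := Nat.le_of_mul_le_mul_right h5 hcp
  rwa [hUc] at h6

theorem dense_all (r b : ℕ) (hr : 1 ≤ r) (hn : 41 * r ≤ n) (hb : b = r + 2)
    (F : Finset (Finset (Fin n)))
    (hanti : ∀ A ∈ F, ∀ B ∈ F, A ⊆ B → A = B)
    (hd : ∀ A ∈ F, ∀ B ∈ F, (A \ B).card + (B \ A).card ≤ 2 * r + 1)
    (hmax : ∀ A ∈ F, A.card + 1 ≤ 3 * r)
    (hdense : (n - 9 * r) * n.choose r < n * (F.filter (fun A => A.card ≤ r)).card) :
    F.card ≤ n.choose r := by
  classical
  obtain ⟨Fl, hFl⟩ : ∃ Fl, Fl = F.filter (fun A => A.card < r) := ⟨_, rfl⟩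
  obtain ⟨Fs, hFs⟩ : ∃ Fs, Fs = F.filter (fun A => A.card = r) := ⟨_, rfl⟩
  obtain ⟨Bs, hBs⟩ : ∃ Bs, Bs = (F.filter (fun A => ¬ A.card ≤ r)).filter
    (fun A => A.card ≤ b) := ⟨_, rfl⟩
  obtain ⟨G, hG⟩ : ∃ G, G = (F.filter (fun A => ¬ A.card ≤ r)).filter
    (fun A => ¬ A.card ≤ b) := ⟨_, rfl⟩
  have hsp1 : (F.filter (fun A => A.card ≤ r)).card = Fl.card + Fs.card := by
    rw [hFl, hFs, ← card_union_of_disjoint]
    · congr 1
      ext A
      simp only [mem_union, mem_filter]
      constructor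
      · rintro ⟨h1, h2⟩
        rcases h2.lt_or_eq with h3 | h3
        · exact Or.inl ⟨h1, h3⟩
        · exact Or.inr ⟨h1, h3⟩
      · rintro (⟨h1, h2⟩ | ⟨h1, h2⟩)
        · exact ⟨h1, h2.le⟩
        · exact ⟨h1, h2.le⟩
    · rw [disjoint_left]
      intro A hA hB
      rw [mem_filter] at hA hB
      omega
  have hsp2 : Bs.card + G.card = (F.filter (fun A => ¬ A.card ≤ r)).card := by
    rw [hBs, hG]
    exact card_filter_add_card_filter_not (s := F.filter (fun A => ¬ A.card ≤ r))
      (fun A => A.card ≤ b)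
  have hsp : Fl.card + Fs.card + (Bs.card + G.card) = F.card := by
    rw [← hsp1, hsp2]
    exact card_filter_add_card_filter_not (s := F) (fun A => A.card ≤ r)
  have hFl' : ∀ T ∈ Fl, T ∈ F ∧ T.card < r := fun T hT => by rwa [hFl, mem_filter] at hT
  have hFs' : ∀ T ∈ Fs, T ∈ F ∧ T.card = r := fun T hT => by rwa [hFs, mem_filter] at hT
  have hBs' : ∀ A ∈ Bs, A ∈ F ∧ r < A.card ∧ A.card ≤ b := fun A hA => by
    rw [hBs, mem_filter, mem_filter] at hA
    exact ⟨hA.1.1, by omega, hA.2⟩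
  have hG' : ∀ A ∈ G, A ∈ F ∧ r + 3 ≤ A.card := fun A hA => by
    rw [hG, mem_filter, mem_filter] at hA
    exact ⟨hA.1.1, by omega⟩
  -- the shadow of the base levels
  obtain ⟨TB, hTB, hTBc⟩ := Pool.Agent.H173R2.AntiDiam.card_le_of_inj r Bs (by
    intro c hc h0
    apply Pool.Agent.H173R2.AntiDiam.two_size' r (r + 1) (r + 2) Bs _ _ _ _ c hc h0
    · intro A hA B hB
      exact hanti A (hBs' A hA).1 B (hBs' B hB).1
    · intro A hA B hB hAB
      have h1 := hd A (hBs' A hA).1 B (hBs' B hB).1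
      have h2 := card_sdiff_add_card_inter A B
      have h3 := card_sdiff_add_card_inter B A
      rw [inter_comm B A] at h3
      omega
    · intro A hA
      exact (hBs' A hA).2.1
    · intro A hA
      have := hBs' A hA
      omega)
  have hdisj : Disjoint Fs TB := by
    rw [disjoint_left]
    intro T hT hT2
    obtain ⟨h1, X, hX, hTX⟩ := hTB T hT2
    have h2 := hanti T (hFs' T hT).1 X (hBs' X hX).1 hTX
    have h3 := (hBs' X hX).2.1
    rw [← h2] at h3
    omega
  obtain ⟨D, hD⟩ : ∃ D, D = Fs ∪ TB := ⟨_, rfl⟩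
  have hDc : D.card = Fs.card + TB.card := by
    rw [hD, card_union_of_disjoint hdisj]
  have hDr : ∀ T ∈ D, T.card = r := by
    intro T hT
    rw [hD, mem_union] at hT
    rcases hT with hT | hT
    · exact (hFs' T hT).2
    · exact (hTB T hT).1
  have hDle : D.card ≤ n.choose r := by
    have h1 : D ⊆ powersetCard r (univ : Finset (Fin n)) := by
      intro T hT
      rw [mem_powersetCard]
      exact ⟨subset_univ _, hDr T hT⟩
    have := card_le_card h1
    rwa [card_powersetCard, card_univ, Fintype.card_fin] at this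
  obtain ⟨E, hE⟩ : ∃ E, D.card + E = n.choose r := ⟨n.choose r - D.card, by omega⟩
  obtain ⟨E0, hE0⟩ : ∃ E0, Fs.card + E0 = n.choose r := ⟨n.choose r - Fs.card, by omega⟩
  have hEE0 : E ≤ E0 := by omega
  have hEE0R : (E : ℝ) ≤ E0 := by exact_mod_cast hEE0
  have hE0R : (Fs.card : ℝ) + E0 = n.choose r := by exact_mod_cast hE0
  have hrR1 : (1 : ℝ) ≤ r := by exact_mod_cast hr
  have hnR41 : (41 : ℝ) * r ≤ n := by exact_mod_cast hn
  have hnR : (40 : ℝ) * r ≤ n := by linarith
  have hn0 : (0 : ℝ) < n := by linarith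
  have hc0 : (0 : ℝ) < n.choose r := by exact_mod_cast Nat.choose_pos (by omega)
  have hEnn : (0 : ℝ) ≤ E := Nat.cast_nonneg _
  have hFlnn : (0 : ℝ) ≤ Fl.card := Nat.cast_nonneg _
  have hb0 : 23 * (Fl.card : ℝ) ≤ E0 := by
    apply low_small r hr (by omega) Fl Fs (fun A hA => (hFl' A hA).2) (fun A hA => (hFs' A hA).2)
      (fun A hA B hB => hanti A (hFl' A hA).1 B (hFl' B hB).1) _ E0 hE0
    intro A hA T hT hAT
    have h1 := hanti A (hFl' A hA).1 T (hFs' T hT).1 hAT
    have h2 := (hFl' A hA).2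
    have h3 := (hFs' T hT).2
    rw [h1] at h2
    omega
  have hbE : 23 * (Fl.card : ℝ) ≤ E := by
    apply low_small r hr (by omega) Fl D (fun A hA => (hFl' A hA).2) hDr
      (fun A hA B hB => hanti A (hFl' A hA).1 B (hFl' B hB).1) _ E hE
    intro A hA T hT hAT
    have h2 := (hFl' A hA).2
    rw [hD, mem_union] at hT
    rcases hT with hT | hT
    · have h1 := hanti A (hFl' A hA).1 T (hFs' T hT).1 hAT
      have h3 := (hFs' T hT).2
      rw [h1] at h2
      omega
    · obtain ⟨h3, X, hX, hTX⟩ := hTB T hT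
      have h1 := hanti A (hFl' A hA).1 X (hBs' X hX).1 (hAT.trans hTX)
      have h4 := (hBs' X hX).2.1
      rw [h1] at h2
      omega
  have hb' : (n : ℝ) * E0 ≤ 10 * r * n.choose r := by
    have h1 : (((n - 9 * r) * n.choose r : ℕ) : ℝ) <
        ((n * (F.filter (fun A => A.card ≤ r)).card : ℕ) : ℝ) := by exact_mod_cast hdense
    rw [hsp1] at h1
    rw [Nat.cast_mul, Nat.cast_mul, Nat.cast_sub (by omega)] at h1
    push_cast at h1
    have h2 : (Fs.card : ℝ) = n.choose r - E0 := by linarith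
    rw [h2] at h1
    have h3 : (n : ℝ) * (23 * Fl.card) ≤ n * E0 := mul_le_mul_of_nonneg_left hb0 (by linarith)
    nlinarith [mul_pos (show (0 : ℝ) < r by linarith) hc0]
  have hfin0 : G.card + Fl.card ≤ E → F.card ≤ n.choose r := by
    intro h
    omega
  rcases G.eq_empty_or_nonempty with hG0 | ⟨A0, hA0⟩
  · apply hfin0
    rw [hG0, card_empty]
    have h1 : (Fl.card : ℝ) ≤ E := by linarith
    have h2 : Fl.card ≤ E := by exact_mod_cast h1
    omega
  -- `r` is not small
  have hr8 : 8 ≤ r := by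
    obtain ⟨j, hj⟩ : ∃ j, A0.card = r + j := ⟨A0.card - r, by
      have := hG' A0 hA0
      omega⟩
    have hj2 : 2 ≤ j := by
      have := hG' A0 hA0
      omega
    have h1 := inc r hr (by omega) A0 Fs (fun T hT => (hFs' T hT).2)
    have h2 : Fs.card * (j - 1) ≤ 2 * ∑ T ∈ Fs, (T ∩ A0).card := by
      rw [card_eq_sum_ones, sum_mul, mul_sum]
      apply sum_le_sum
      intro T hT
      have h3 := hd T (hFs' T hT).1 A0 (hG' A0 hA0).1
      have h4 := card_sdiff_add_card_inter T A0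
      have h5 := card_sdiff_add_card_inter A0 T
      rw [inter_comm A0 T] at h5
      have h6 := (hFs' T hT).2
      omega
    have h6 : n * (Fs.card * (j - 1)) ≤ 2 * ((r + j) * (r * n.choose r)) := by
      rw [hj] at h1
      calc n * (Fs.card * (j - 1)) ≤ n * (2 * ∑ T ∈ Fs, (T ∩ A0).card) := Nat.mul_le_mul_left _ h2
        _ = 2 * (n * ∑ T ∈ Fs, (T ∩ A0).card) := by ring
        _ ≤ _ := Nat.mul_le_mul_left _ h1
    have h7 : (n : ℝ) * (Fs.card * ((j : ℝ) - 1)) ≤ 2 * ((r + j) * (r * n.choose r)) := by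
      have h8 : ((n * (Fs.card * (j - 1)) : ℕ) : ℝ) ≤
          ((2 * ((r + j) * (r * n.choose r)) : ℕ) : ℝ) := by exact_mod_cast h6
      rw [Nat.cast_mul, Nat.cast_mul, Nat.cast_sub (by omega)] at h8
      push_cast at h8
      exact h8
    have hjR : (2 : ℝ) ≤ j := by exact_mod_cast hj2
    have h8 : 30 * (r : ℝ) * n.choose r ≤ n * Fs.card := by
      have h9 : (40 * (r : ℝ)) * n.choose r ≤ n * n.choose r :=
        mul_le_mul_of_nonneg_right hnR hc0.le
      have h10 : (n : ℝ) * (Fs.card + E0) = n * n.choose r := by rw [hE0R]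
      nlinarith
    have h9 : (30 * ((j : ℝ) - 1)) * (r * n.choose r) ≤ (2 * (r + j)) * (r * n.choose r) := by
      have h10 := mul_le_mul_of_nonneg_right h8 (show (0 : ℝ) ≤ (j : ℝ) - 1 by linarith)
      nlinarith
    have h10 := le_of_mul_le_mul_right h9 (mul_pos (by linarith) hc0)
    have h11 : (13 : ℝ) ≤ r := by linarith
    have h12 : 13 ≤ r := by exact_mod_cast h11
    omega
  have hE4 : 4 * (E0 : ℝ) ≤ n.choose r := by
    have h1 : (n : ℝ) * (4 * E0) ≤ n * n.choose r := by
      have h2 : (40 * (r : ℝ)) * n.choose r ≤ n * n.choose r :=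
        mul_le_mul_of_nonneg_right hnR hc0.le
      linarith
    exact le_of_mul_le_mul_left h1 hn0
  obtain ⟨P, hP⟩ : ∃ P, P = powersetCard r (univ : Finset (Fin n)) \ D := ⟨_, rfl⟩
  have hPc : P.card = E := by
    rw [hP, card_sdiff_of_subset, card_powersetCard, card_univ, Fintype.card_fin]
    · omega
    · intro S hS
      rw [mem_powersetCard]
      exact ⟨subset_univ _, hDr S hS⟩
  have hcrF : ∀ S ∈ Fs, ∀ A ∈ G, A.card ≤ r + (2 * (S ∩ A).card + 1) := by
    intro T hT A hA
    have h3 := hd T (hFs' T hT).1 A (hG' A hA).1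
    have h4 := card_sdiff_add_card_inter T A
    have h5 := card_sdiff_add_card_inter A T
    rw [inter_comm A T] at h5
    have h6 := (hFs' T hT).2
    omega
  have hGr : ∀ A ∈ G, r + 3 ≤ A.card ∧ A.card + 1 ≤ 3 * r := fun A hA =>
    ⟨(hG' A hA).2, hmax A (hG' A hA).1⟩
  have hhalf : ∀ A ∈ G, (1 : ℝ) ≤
      2 * ((P.filter (fun T => Disjoint T A)).card * ((1 : ℝ) / (n - A.card).choose r)) := by
    intro A hA
    have hfew := few_under r hr hn F hd Fs TB hFs' (fun T hT => by
      obtain ⟨h1, X, hX, hTX⟩ := hTB T hT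
      exact ⟨h1, X, (hBs' X hX).1, by have := (hBs' X hX).2.2; omega, hTX⟩) E0 hE0 hE4 A
      (hG' A hA).1 (hGr A hA).1 (hGr A hA).2
    have h1 : powersetCard r Aᶜ ⊆ P.filter (fun T => Disjoint T A) ∪
        TB.filter (fun T => Disjoint T A) := by
      intro T hT
      rw [mem_powersetCard] at hT
      have hdis : Disjoint T A := by
        rw [disjoint_left]
        intro y hy hyA
        exact (mem_compl.1 (hT.1 hy)) hyA
      rw [mem_union, mem_filter, mem_filter]
      by_cases hTB' : T ∈ TB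
      · exact Or.inr ⟨hTB', hdis⟩
      · left
        refine ⟨?_, hdis⟩
        rw [hP, mem_sdiff, mem_powersetCard]
        refine ⟨⟨subset_univ _, hT.2⟩, ?_⟩
        intro hTD
        rw [hD, mem_union] at hTD
        rcases hTD with h2 | h2
        · have h3 := hcrF T h2 A hA
          rw [disjoint_iff_inter_eq_empty.1 hdis, card_empty] at h3
          have h4 := (hG' A hA).2
          omega
        · exact hTB' h2
    have h2 := (card_le_card h1).trans (card_union_le _ _)
    rw [card_powersetCard, c_compl] at h2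
    have h3 : (n - A.card).choose r ≤ 2 * (P.filter (fun T => Disjoint T A)).card := by omega
    have h3R : ((n - A.card).choose r : ℝ) ≤ 2 * (P.filter (fun T => Disjoint T A)).card := by
      exact_mod_cast h3
    have hcp : (0 : ℝ) < (n - A.card).choose r := by
      have := hGr A hA
      exact_mod_cast Nat.choose_pos (by omega)
    rw [mul_one_div, mul_div_assoc', le_div_iff₀ hcp]
    linarith
  have hdeg : ∀ T ∈ P, ∑ A ∈ G.filter (fun A => Disjoint T A),
      (1 : ℝ) / (n - A.card).choose r ≤ 1 / 10 := by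
    intro T hT
    rw [hP, mem_sdiff, mem_powersetCard] at hT
    exact deg_local n r hr8 hn E0 Fs G (fun S hS => (hFs' S hS).2) hGr hcrF hE0 hb' T hT.1.2
  have hcount : (G.card : ℝ) ≤ 2 * (E * (1 / 10)) := by
    calc (G.card : ℝ) = ∑ A ∈ G, (1 : ℝ) := by rw [sum_const, nsmul_eq_mul, mul_one]
      _ ≤ ∑ A ∈ G, 2 * ((P.filter (fun T => Disjoint T A)).card *
            ((1 : ℝ) / (n - A.card).choose r)) := sum_le_sum hhalf
      _ = 2 * ∑ A ∈ G, ∑ T ∈ P, (if Disjoint T A then (1 : ℝ) / (n - A.card).choose r else 0) := by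
          rw [← mul_sum]
          congr 1
          apply sum_congr rfl
          intro A _
          rw [← sum_filter, sum_const, nsmul_eq_mul]
      _ = 2 * ∑ T ∈ P, ∑ A ∈ G.filter (fun A => Disjoint T A),
            (1 : ℝ) / (n - A.card).choose r := by
          rw [sum_comm]
          congr 1
          apply sum_congr rfl
          intro T _
          rw [sum_filter]
      _ ≤ 2 * ∑ T ∈ P, (1 / 10 : ℝ) := by
          apply mul_le_mul_of_nonneg_left _ (by norm_num)
          exact sum_le_sum hdeg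
      _ = 2 * (E * (1 / 10)) := by rw [sum_const, nsmul_eq_mul, hPc]
  apply hfin0
  have hfin : (G.card : ℝ) + Fl.card ≤ E := by linarith
  exact_mod_cast hfin

end Pool.Agent.H66.AH
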