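import Pool.Agent.H66.AH4
set_option autoImplicit false
open Finset

/-! Antichains of odd diameter in the linear range, all families. -/

namespace Pool.Agent.H66.AH

open Pool.Agent.H66.AE Pool.Agent.H66.AF

theorem odd_linear_all (n r : ℕ) (hr : 1 ≤ r) (hn : 41 * r ≤ n)
    (F : Finset (Finset (Fin n)))
    (hanti : ∀ A ∈ F, ∀ B ∈ F, A ⊆ B → A = B)
    (hd : ∀ A ∈ F, ∀ B ∈ F, (A \ B).card + (B \ A).card ≤ 2 * r + 1) :
    F.card ≤ n.choose r := by
  refine reduce n r 1 le_rfl hr (by omega) (fun _ => True) ?_ F hanti hd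
    trivial (fun _ _ => trivial)
  intro G h1 h2 h3 _
  rcases le_or_gt (n * (G.filter (fun A => A.card ≤ r)).card) ((n - 9 * r) * n.choose r) with h | h
  · exact sparse_low n r 1 le_rfl hr (by omega) G h1 h2 h3 h
  · exact dense_all r (r + 2) hr hn rfl G h1 h2 h3 h

end Pool.Agent.H66.AH
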